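import Pool.Agent.DCX.Round
import Pool.Agent.Helper1.TuranLimit

/-!
Section 6 of the DCX project: Theorem H (`main_H`) implies Theorem T, in the finite form `main_fin` and for the
Turan density (`main_T`).

`M₀ = m + ⌈C m / k⌉₊` with `C = max (log D) 1`, `G` extremal on `Fin M₀` (`exists_exNum`),
`E = powersetCard k univ \ G`. If `ex(n, K_m^k) > (1 - A₀ / C(m-1,k-1)) C(n,k)` for some `n ≥ 2 m ≥ M₀`, then
`|E| < A₀ C(M₀,k) / C(m-1,k-1)` (`ratio_antitone`), so `k |E| ≤ x M₀` with `x = A₀ exp (C+1)` (`choose_ratio`).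
A vertex cover of `E` has at least `M₀ - m + 1` points, which contradicts `main_H`.
-/

namespace Pool.Agent.DCX

open Finset

variable {V : Type} [Fintype V] [DecidableEq V]

theorem choose_ratio {k m M₀ : ℕ} (hk : 1 ≤ k) (hkm : k < m) (hm : m ≤ M₀) :
    ((M₀ - 1).choose (k - 1) : ℝ) ≤
      ((m - 1).choose (k - 1) : ℝ) *
        Real.exp (((M₀ : ℝ) - m) * ((k : ℝ) - 1) / ((m : ℝ) - k + 1)) := by
  have hkR : (1 : ℝ) ≤ (k : ℝ) := by exact_mod_cast hk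
  have hkmR : (k : ℝ) + 1 ≤ (m : ℝ) := by exact_mod_cast hkm
  have hden : (0 : ℝ) < (m : ℝ) - k + 1 := by linarith
  induction M₀, hm using Nat.le_induction with
  | base => simp
  | succ N hN ih =>
    have hNR : (m : ℝ) ≤ (N : ℝ) := by exact_mod_cast hN
    -- one step
    have h1 : (N - 1).choose (k - 1) * N = N.choose (k - 1) * (N - (k - 1)) := by
      have h := Nat.choose_mul_succ_eq (N - 1) (k - 1)
      have hN1 : N - 1 + 1 = N := by omega
      rw [hN1] at h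
      exact h
    have h1R : ((N - 1).choose (k - 1) : ℝ) * (N : ℝ) =
        (N.choose (k - 1) : ℝ) * ((N : ℝ) - k + 1) := by
      have h2 : (((N - (k - 1) : ℕ)) : ℝ) = (N : ℝ) - k + 1 := by
        rw [Nat.cast_sub (by omega), Nat.cast_sub hk]
        push_cast; ring
      have h3 : (((N - 1).choose (k - 1) * N : ℕ) : ℝ) =
          ((N.choose (k - 1) * (N - (k - 1)) : ℕ) : ℝ) := by exact_mod_cast h1
      push_cast at h3
      rw [h3, ← h2]
    have hdN : (0 : ℝ) < (N : ℝ) - k + 1 := by linarith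
    have h4 : (N.choose (k - 1) : ℝ) =
        ((N - 1).choose (k - 1) : ℝ) * (1 + ((k : ℝ) - 1) / ((N : ℝ) - k + 1)) := by
      have h5 : (1 + ((k : ℝ) - 1) / ((N : ℝ) - k + 1)) = (N : ℝ) / ((N : ℝ) - k + 1) := by
        field_simp
        ring
      rw [h5, mul_div_assoc', h1R, mul_div_assoc, div_self hdN.ne', mul_one]
    have h6 : (1 + ((k : ℝ) - 1) / ((N : ℝ) - k + 1)) ≤
        Real.exp (((k : ℝ) - 1) / ((m : ℝ) - k + 1)) := by
      have h7 : ((k : ℝ) - 1) / ((N : ℝ) - k + 1) ≤ ((k : ℝ) - 1) / ((m : ℝ) - k + 1) :=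
        div_le_div_of_nonneg_left (by linarith) hden (by linarith)
      have h8 := Real.add_one_le_exp (((k : ℝ) - 1) / ((m : ℝ) - k + 1))
      linarith
    have h9 : N + 1 - 1 = N := by omega
    rw [h9, h4]
    have h10 : Real.exp ((((N + 1 : ℕ) : ℝ) - m) * ((k : ℝ) - 1) / ((m : ℝ) - k + 1)) =
        Real.exp (((N : ℝ) - m) * ((k : ℝ) - 1) / ((m : ℝ) - k + 1)) *
          Real.exp (((k : ℝ) - 1) / ((m : ℝ) - k + 1)) := by
      rw [← Real.exp_add]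
      congr 1
      push_cast
      rw [← add_div]
      congr 1
      ring
    rw [h10, ← mul_assoc]
    have h11 : (0 : ℝ) ≤ 1 + ((k : ℝ) - 1) / ((N : ℝ) - k + 1) := by
      have : 0 ≤ ((k : ℝ) - 1) / ((N : ℝ) - k + 1) := div_nonneg (by linarith) hdN.le
      linarith
    exact mul_le_mul ih h6 h11 (by positivity)

/-- an `m`-set avoiding a small set: a vertex cover of the missing edges is large -/
private theorem ToTuran_cover {k m M : ℕ} (hmM : m ≤ M)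
    {G : Finset (Finset (Fin M))} (hfree : Pool.Agent.Helper1.Turan.CompleteFree k m M G)
    (S : Finset (Fin M))
    (hS : ∀ e ∈ (univ : Finset (Fin M)).powersetCard k \ G, ¬ Disjoint e S) :
    M - m < S.card := by
  by_contra hcon
  have hcard : m ≤ (Sᶜ).card := by
    rw [card_compl, Fintype.card_fin]; omega
  obtain ⟨W, hW, hWc⟩ := exists_subset_card_eq hcard
  obtain ⟨e, heW, hec, heG⟩ := hfree W hWc
  have heE : e ∈ (univ : Finset (Fin M)).powersetCard k \ G := by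
    rw [mem_sdiff, mem_powersetCard]
    exact ⟨⟨subset_univ _, hec⟩, heG⟩
  apply hS e heE
  rw [disjoint_left]
  intro v hv hvS
  have := hW (heW hv)
  rw [mem_compl] at this
  exact this hvS

/-- Theorem T, finite form: for all `n ≥ 2 m` -/
theorem main_fin (A₀ : ℝ) (hA : 1 ≤ A₀) : ∃ (k₀ : ℕ) (α₀ : ℝ), ∀ k m n : ℕ, k₀ ≤ k →
    α₀ * (k : ℝ) ≤ (m : ℝ) → 2 * m ≤ n → 2 ≤ k ∧ k < m ∧
      (Pool.Agent.Helper1.Turan.exNum k m n : ℝ) ≤
        (1 - A₀ / ((m - 1).choose (k - 1) : ℝ)) * (n.choose k : ℝ) := by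
  have hA0 : 0 < A₀ := by linarith
  have hlogA : 0 ≤ Real.log A₀ := Real.log_nonneg hA
  obtain ⟨D, k₁, hD, hH⟩ := main_H (Real.log A₀ + 3) (by linarith)
  have hDpos : 0 < D := by linarith
  obtain ⟨C, hCdef⟩ : ∃ C : ℝ, C = max (Real.log D) 1 := ⟨_, rfl⟩
  have hC1 : 1 ≤ C := by rw [hCdef]; exact le_max_right _ _
  have hCD : Real.log D ≤ C := by rw [hCdef]; exact le_max_left _ _
  refine ⟨max k₁ (⌈C ^ 2⌉₊ + 2), C + 2, ?_⟩
  intro k m n hk hm hn
  have hk1 : k₁ ≤ k := (le_max_left _ _).trans hk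
  have hk2 : ⌈C ^ 2⌉₊ + 2 ≤ k := (le_max_right _ _).trans hk
  have hkC : C ^ 2 ≤ (k : ℝ) := by
    have h1 : C ^ 2 ≤ (⌈C ^ 2⌉₊ : ℝ) := Nat.le_ceil _
    have h2 : ((⌈C ^ 2⌉₊ + 2 : ℕ) : ℝ) ≤ (k : ℝ) := by exact_mod_cast hk2
    push_cast at h2
    linarith
  have hk2' : 2 ≤ k := by omega
  have hkR : (2 : ℝ) ≤ (k : ℝ) := by exact_mod_cast hk2'
  have hkpos : (0 : ℝ) < (k : ℝ) := by linarith
  have hkmR : (k : ℝ) < (m : ℝ) := by nlinarith
  have hkm : k < m := by exact_mod_cast hkmR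
  refine ⟨hk2', hkm, ?_⟩
  have hmpos : (0 : ℝ) < (m : ℝ) := by linarith
  by_contra hcon
  push Not at hcon
  -- the number of vertices
  obtain ⟨M₀, hM₀⟩ : ∃ M₀ : ℕ, M₀ = m + ⌈C * (m : ℝ) / (k : ℝ)⌉₊ := ⟨_, rfl⟩
  have hCmk0 : 0 ≤ C * (m : ℝ) / (k : ℝ) := by positivity
  have hmM : m ≤ M₀ := by omega
  have hMlow : (m : ℝ) + C * (m : ℝ) / (k : ℝ) ≤ (M₀ : ℝ) := by
    rw [hM₀]; push_cast
    have := Nat.le_ceil (C * (m : ℝ) / (k : ℝ))
    linarith
  have hMup : (M₀ : ℝ) ≤ (m : ℝ) + C * (m : ℝ) / (k : ℝ) + 1 := by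
    rw [hM₀]; push_cast
    have := (Nat.ceil_lt_add_one hCmk0).le
    linarith
  have hCk : C ≤ (k : ℝ) := by nlinarith
  have hM2 : M₀ ≤ 2 * m := by
    have h1 : ⌈C * (m : ℝ) / (k : ℝ)⌉₊ ≤ m := by
      rw [Nat.ceil_le, div_le_iff₀ hkpos]
      nlinarith
    omega
  have hM₀n : M₀ ≤ n := hM2.trans hn
  have hMpos : (0 : ℝ) < (M₀ : ℝ) := by
    have : (m : ℝ) ≤ (M₀ : ℝ) := by exact_mod_cast hmM
    linarith
  -- density at `M₀`
  obtain ⟨B, hB⟩ : ∃ B : ℝ, B = ((m - 1).choose (k - 1) : ℝ) := ⟨_, rfl⟩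
  have hBpos : 0 < B := by
    rw [hB]; exact_mod_cast Nat.choose_pos (by omega)
  have hcn : (0 : ℝ) < (n.choose k : ℝ) := by exact_mod_cast Nat.choose_pos (by omega)
  have hcM : (0 : ℝ) < (M₀.choose k : ℝ) := by exact_mod_cast Nat.choose_pos (by omega)
  have hratio : (1 - A₀ / B) <
      (Pool.Agent.Helper1.Turan.exNum k m M₀ : ℝ) / (M₀.choose k : ℝ) := by
    refine lt_of_lt_of_le ?_
      (Pool.Agent.Helper1.Turan.ratio_antitone hkm.le (by omega : k ≤ M₀) hM₀n)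
    rw [lt_div_iff₀ hcn, hB]
    exact hcon
  obtain ⟨G, hG1, hG2, hG3⟩ :=
    Pool.Agent.Helper1.Turan.exists_exNum (k := k) (m := m) (n := M₀) hkm.le
  obtain ⟨E, hE⟩ : ∃ E : Finset (Finset (Fin M₀)),
    E = (univ : Finset (Fin M₀)).powersetCard k \ G := ⟨_, rfl⟩
  have hGsub : G ⊆ (univ : Finset (Fin M₀)).powersetCard k := by
    intro e he
    rw [mem_powersetCard]
    exact ⟨subset_univ _, hG1 e he⟩
  have hEcard : (E.card : ℝ) = (M₀.choose k : ℝ) - (G.card : ℝ) := by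
    rw [hE, card_sdiff_of_subset hGsub, card_powersetCard, card_univ, Fintype.card_fin,
      Nat.cast_sub]
    have := card_le_card hGsub
    simpa using this
  have hEunif : Unif k E := by
    intro e he
    rw [hE, mem_sdiff, mem_powersetCard] at he
    exact he.1.2
  have hElt : (E.card : ℝ) ≤ A₀ / B * (M₀.choose k : ℝ) := by
    rw [lt_div_iff₀ hcM] at hratio
    rw [hEcard, hG3]
    linarith
  -- `k |E| ≤ x M₀`
  have hchoose : (k : ℝ) * (M₀.choose k : ℝ) = (M₀ : ℝ) * ((M₀ - 1).choose (k - 1) : ℝ) := by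
    have h := Nat.add_one_mul_choose_eq (M₀ - 1) (k - 1)
    have e1 : M₀ - 1 + 1 = M₀ := by omega
    have e2 : k - 1 + 1 = k := by omega
    rw [e1, e2] at h
    have h' : ((M₀ * (M₀ - 1).choose (k - 1) : ℕ) : ℝ) = ((M₀.choose k * k : ℕ) : ℝ) := by
      exact_mod_cast h
    push_cast at h'
    linarith
  have hexp : ((M₀ - 1).choose (k - 1) : ℝ) ≤ B * Real.exp (C + 1) := by
    refine (choose_ratio (by omega : 1 ≤ k) hkm hmM).trans ?_
    rw [← hB]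
    refine mul_le_mul_of_nonneg_left ?_ hBpos.le
    rw [Real.exp_le_exp, div_le_iff₀ (by linarith)]
    have h1 : (M₀ : ℝ) - m ≤ C * (m : ℝ) / (k : ℝ) + 1 := by linarith
    have h2 : ((M₀ : ℝ) - m) * ((k : ℝ) - 1) ≤ (C * (m : ℝ) / (k : ℝ) + 1) * ((k : ℝ) - 1) :=
      mul_le_mul_of_nonneg_right h1 (by linarith)
    have h3 : (C * (m : ℝ) / (k : ℝ) + 1) * ((k : ℝ) - 1) ≤
        (C * (m : ℝ) / (k : ℝ) + 1) * (k : ℝ) :=
      mul_le_mul_of_nonneg_left (by linarith) (by linarith)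
    have h4 : (C * (m : ℝ) / (k : ℝ) + 1) * (k : ℝ) = C * (m : ℝ) + k := by
      field_simp
    nlinarith
  have hkE : (k : ℝ) * (E.card : ℝ) ≤ (A₀ * Real.exp (C + 1)) * (M₀ : ℝ) := by
    have h1 : (k : ℝ) * (E.card : ℝ) ≤ A₀ / B * ((k : ℝ) * (M₀.choose k : ℝ)) := by
      calc (k : ℝ) * (E.card : ℝ) ≤ (k : ℝ) * (A₀ / B * (M₀.choose k : ℝ)) :=
            mul_le_mul_of_nonneg_left hElt hkpos.le
        _ = _ := by ring
    rw [hchoose] at h1
    have h2 : A₀ / B * ((M₀ : ℝ) * ((M₀ - 1).choose (k - 1) : ℝ)) ≤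
        A₀ / B * ((M₀ : ℝ) * (B * Real.exp (C + 1))) :=
      mul_le_mul_of_nonneg_left (mul_le_mul_of_nonneg_left hexp hMpos.le) (by positivity)
    have h3 : A₀ / B * ((M₀ : ℝ) * (B * Real.exp (C + 1))) =
        (A₀ * Real.exp (C + 1)) * (M₀ : ℝ) := by
      field_simp
    linarith
  have hxD : D ≤ A₀ * Real.exp (C + 1) := by
    have h1 : D ≤ Real.exp C := by
      rw [← Real.exp_log hDpos]; exact Real.exp_le_exp.2 hCD
    have h2 : Real.exp C ≤ Real.exp (C + 1) := Real.exp_le_exp.2 (by linarith)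
    have h3 : 0 < Real.exp (C + 1) := Real.exp_pos _
    nlinarith
  have htau := hH k hk1 M₀ (A₀ * Real.exp (C + 1)) hxD E hEunif
    (by rw [Fintype.card_fin]; exact hkE)
  rw [Fintype.card_fin, Real.log_mul hA0.ne' (Real.exp_pos _).ne', Real.log_exp] at htau
  -- the cover
  obtain ⟨S, hS1, hS2⟩ := exists_cover (by omega : 1 ≤ k) hEunif
  have hS3 := ToTuran_cover hmM hG2 S (by rw [← hE]; exact hS2)
  have htlow : (M₀ : ℝ) - m + 1 ≤ (tau E : ℝ) := by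
    have h1 : M₀ - m + 1 ≤ tau E := by omega
    have h2 : ((M₀ - m + 1 : ℕ) : ℝ) ≤ (tau E : ℝ) := by exact_mod_cast h1
    rw [Nat.cast_add, Nat.cast_sub hmM] at h2
    push_cast at h2
    exact h2
  have hlow : C * (m : ℝ) + k ≤ (k : ℝ) * (tau E : ℝ) := by
    have h1 : C * (m : ℝ) / (k : ℝ) + 1 ≤ (tau E : ℝ) := by linarith
    have h2 := mul_le_mul_of_nonneg_left h1 hkpos.le
    have h3 : (k : ℝ) * (C * (m : ℝ) / (k : ℝ) + 1) = C * (m : ℝ) + k := by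
      field_simp
    linarith
  have hfin : C * (m : ℝ) + k ≤ (C - 2) * (M₀ : ℝ) := by
    have : (Real.log A₀ + (C + 1) + -(Real.log A₀ + 3)) = C - 2 := by ring
    rw [this] at htau
    linarith
  rcases le_or_gt C 2 with hC2 | hC2
  · have : (C - 2) * (M₀ : ℝ) ≤ 0 := mul_nonpos_of_nonpos_of_nonneg (by linarith) hMpos.le
    have h2 : 0 < C * (m : ℝ) + k := by positivity
    linarith
  · have h1 : (C - 2) * (M₀ : ℝ) ≤ (C - 2) * ((m : ℝ) + C * (m : ℝ) / (k : ℝ) + 1) :=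
      mul_le_mul_of_nonneg_left hMup (by linarith)
    have h2 : (C - 2) * (C * (m : ℝ) / (k : ℝ)) ≤ (m : ℝ) := by
      rw [mul_div_assoc', div_le_iff₀ hkpos]
      have h3 : (C - 2) * C ≤ (k : ℝ) := by nlinarith
      nlinarith
    have h4 : (C - 2) * ((m : ℝ) + C * (m : ℝ) / (k : ℝ) + 1) =
        (C - 2) * (m : ℝ) + (C - 2) * (C * (m : ℝ) / (k : ℝ)) + (C - 2) := by ring
    have h5 : C - 2 ≤ (k : ℝ) := by linarith
    nlinarith

/-- Theorem T -/
theorem main_T (A₀ : ℝ) (hA : 1 ≤ A₀) : ∃ (k₀ : ℕ) (α₀ : ℝ), ∀ k m : ℕ, k₀ ≤ k →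
    α₀ * (k : ℝ) ≤ (m : ℝ) → 2 ≤ k ∧ k < m ∧
      A₀ / ((m - 1).choose (k - 1) : ℝ) ≤
        1 - Pool.Agent.Helper1.Turan.turanDensity k m := by
  obtain ⟨k₀, α₀, h⟩ := main_fin A₀ hA
  refine ⟨k₀, α₀, ?_⟩
  intro k m hk hm
  obtain ⟨h1, h2, h3⟩ := h k m (2 * m) hk hm le_rfl
  refine ⟨h1, h2, ?_⟩
  have hpos : (0 : ℝ) < ((2 * m).choose k : ℝ) := by exact_mod_cast Nat.choose_pos (by omega)
  have h4 : Pool.Agent.Helper1.Turan.turanDensity k m ≤
      (Pool.Agent.Helper1.Turan.exNum k m (2 * m) : ℝ) / ((2 * m).choose k : ℝ) :=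
    Pool.Agent.Helper1.Turan.turanDensity_le_ratio h2.le (by omega)
  have h5 : (Pool.Agent.Helper1.Turan.exNum k m (2 * m) : ℝ) / ((2 * m).choose k : ℝ) ≤
      1 - A₀ / ((m - 1).choose (k - 1) : ℝ) := by
    rw [div_le_iff₀ hpos]
    exact h3
  linarith

end Pool.Agent.DCX
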