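import Pool.Agent.DCX.ExDisj

/-!
Second moment bound for a weighted sum `N S = ∑ i ∈ A, y i * ind (Q i S)` of indicators of decreasing events with
known supports: `exp (-N S) ≤ exp (-(μ - a)) + ((N S - m)/a)^2` pointwise, `m = ∑ y i P(Q i) ≥ μ`, and the second
moment is a double sum of covariances, each bounded by `cov_dec`.
-/

namespace Pool.Agent.DCX

open Finset

variable {V : Type} [Fintype V] [DecidableEq V]

private theorem Laplace_EE_add (r : ℝ) (f g : Finset V → ℝ) :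
    EE r (fun S => f S + g S) = EE r f + EE r g := by
  unfold EE; exact Ex_add _ _ _ _

private theorem Laplace_EE_mul (r c : ℝ) (f : Finset V → ℝ) :
    EE r (fun S => c * f S) = c * EE r f := by
  unfold EE; exact Ex_mul_left _ _ _ _

private theorem Laplace_EE_sum {ι : Type} (A : Finset ι) (r : ℝ) (f : ι → Finset V → ℝ) :
    EE r (fun S => ∑ i ∈ A, f i S) = ∑ i ∈ A, EE r (f i) := by
  unfold EE; exact Ex_sum _ _ _ _

private theorem Laplace_cov (r : ℝ) (Q1 Q2 : Finset V → Prop) (p1 p2 : ℝ)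
    (h1 : PP r Q1 = p1) (h2 : PP r Q2 = p2) :
    EE r (fun S => (ind (Q1 S) - p1) * (ind (Q2 S) - p2)) =
      PP r (fun S => Q1 S ∧ Q2 S) - p1 * p2 := by
  have e : (fun S : Finset V => (ind (Q1 S) - p1) * (ind (Q2 S) - p2)) =
      fun S => ind (Q1 S ∧ Q2 S) + ((-p2) * ind (Q1 S) + ((-p1) * ind (Q2 S) + p1 * p2)) := by
    funext S; rw [ind_and]; ring
  rw [e, Laplace_EE_add, Laplace_EE_add, Laplace_EE_add, Laplace_EE_mul, Laplace_EE_mul, EE_const]
  have a1 : EE r (fun S => ind (Q1 S)) = p1 := h1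
  have a2 : EE r (fun S => ind (Q2 S)) = p2 := h2
  rw [a1, a2]
  unfold PP
  ring

private theorem Laplace_point {N m μ a : ℝ} (hN : 0 ≤ N) (ha : 0 < a) (hμ : μ ≤ m) :
    Real.exp (-N) ≤ Real.exp (-(μ - a)) + 1 / a ^ 2 * ((N - m) * (N - m)) := by
  have ha2 : 0 < a ^ 2 := by positivity
  by_cases h : μ - a ≤ N
  · have h1 : Real.exp (-N) ≤ Real.exp (-(μ - a)) := Real.exp_le_exp.2 (by linarith)
    have h2 : 0 ≤ 1 / a ^ 2 * ((N - m) * (N - m)) :=
      mul_nonneg (by positivity) (mul_self_nonneg _)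
    linarith
  · push Not at h
    have h1 : Real.exp (-N) ≤ 1 := Real.exp_le_one_iff.2 (by linarith)
    have h2 : 0 < Real.exp (-(μ - a)) := Real.exp_pos _
    have h3 : a ^ 2 ≤ (N - m) * (N - m) := by nlinarith
    have h4 : 1 ≤ 1 / a ^ 2 * ((N - m) * (N - m)) := by
      rw [one_div, ← div_eq_inv_mul, le_div_iff₀ ha2]; linarith
    linarith

theorem laplace {ι : Type} (A : Finset ι) (y : ι → ℝ) (Q : ι → Finset V → Prop)
    (F : ι → Finset V) {r : ℝ} (hr0 : 0 ≤ r) (hr1 : r < 1) (hy : ∀ i ∈ A, 0 ≤ y i)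
    (hdec : ∀ i ∈ A, ∀ S S', S ⊆ S' → Q i S' → Q i S)
    (hsupp : ∀ i ∈ A, ∀ S, Q i (S ∩ F i) → Q i S) {μ a : ℝ} (ha : 0 < a)
    (hμ : μ ≤ ∑ i ∈ A, y i * PP r (Q i)) :
    EE r (fun S => Real.exp (-(∑ i ∈ A, y i * ind (Q i S)))) ≤
      Real.exp (-(μ - a)) + 1 / a ^ 2 * ∑ i ∈ A, ∑ i' ∈ A,
        (y i * PP r (Q i)) * (y i' * PP r (Q i')) *
          (((1 - r) ^ (2 * (F i ∩ F i').card))⁻¹ - 1) := by
  have hr1' : r ≤ 1 := hr1.le
  set m : ℝ := ∑ i ∈ A, y i * PP r (Q i) with hm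
  have step1 : EE r (fun S => Real.exp (-(∑ i ∈ A, y i * ind (Q i S)))) ≤
      EE r (fun S => Real.exp (-(μ - a)) + 1 / a ^ 2 *
        (∑ i ∈ A, ∑ i' ∈ A, y i * y i' * ((ind (Q i S) - PP r (Q i)) *
          (ind (Q i' S) - PP r (Q i'))))) := by
    apply EE_mono hr0 hr1'
    intro S
    have hN : 0 ≤ ∑ i ∈ A, y i * ind (Q i S) :=
      sum_nonneg (fun i hi => mul_nonneg (hy i hi) (ind_nonneg _))
    have hp := Laplace_point hN ha hμ
    have hd : (∑ i ∈ A, y i * ind (Q i S)) - m = ∑ i ∈ A, y i * (ind (Q i S) - PP r (Q i)) := by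
      rw [hm, ← sum_sub_distrib]
      apply sum_congr rfl; intro i _; ring
    have hsq : ((∑ i ∈ A, y i * ind (Q i S)) - m) * ((∑ i ∈ A, y i * ind (Q i S)) - m) =
        ∑ i ∈ A, ∑ i' ∈ A, y i * y i' * ((ind (Q i S) - PP r (Q i)) *
          (ind (Q i' S) - PP r (Q i'))) := by
      rw [hd, sum_mul_sum]
      apply sum_congr rfl; intro i _
      apply sum_congr rfl; intro i' _; ring
    rw [hsq] at hp
    exact hp
  refine step1.trans ?_
  rw [Laplace_EE_add, EE_const, Laplace_EE_mul, Laplace_EE_sum]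
  have ha2 : 0 < a ^ 2 := by positivity
  refine add_le_add le_rfl (mul_le_mul_of_nonneg_left ?_ (by positivity))
  apply sum_le_sum
  intro i hi
  rw [Laplace_EE_sum]
  apply sum_le_sum
  intro i' hi'
  rw [Laplace_EE_mul, Laplace_cov r (Q i) (Q i') _ _ rfl rfl]
  have hc := cov_dec hr0 hr1' (F i) (F i') (Q i) (Q i') (hdec i hi) (hdec i' hi')
    (hsupp i hi) (hsupp i' hi')
  have hpos : 0 < (1 - r) ^ (2 * (F i ∩ F i').card) := pow_pos (by linarith) _
  have hc2 : PP r (fun S => Q i S ∧ Q i' S) ≤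
      ((1 - r) ^ (2 * (F i ∩ F i').card))⁻¹ * (PP r (Q i) * PP r (Q i')) := by
    rw [← div_eq_inv_mul, le_div_iff₀ hpos]
    linarith
  have hyy : 0 ≤ y i * y i' := mul_nonneg (hy i hi) (hy i' hi')
  calc y i * y i' * (PP r (fun S => Q i S ∧ Q i' S) - PP r (Q i) * PP r (Q i'))
      ≤ y i * y i' * (((1 - r) ^ (2 * (F i ∩ F i').card))⁻¹ * (PP r (Q i) * PP r (Q i')) -
          PP r (Q i) * PP r (Q i')) := mul_le_mul_of_nonneg_left (by linarith) hyy
    _ = (y i * PP r (Q i)) * (y i' * PP r (Q i')) *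
          (((1 - r) ^ (2 * (F i ∩ F i').card))⁻¹ - 1) := by ring

end Pool.Agent.DCX
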