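import Pool.Agent.DCX.Defs

/-!
TUR-Overlap. Section (4.5) of turT31.md: the support of the far part of `T v` has at most `k d` vertices, and a vertex `u`
lies in the support for at most `d t` vertices `v'` of `e` (union of `g ∩ e` over the members `g ∋ u` of `F` with
`|g ∩ e| ≤ t`); double counting gives the bound of the sum of the overlaps.
-/

namespace Pool.Agent.DCX

open Finset

variable {V : Type} [Fintype V] [DecidableEq V]

theorem supp_card_le {F : Finset (Finset V)} {k t : ℕ} {d : ℝ} (hF : Unif k F)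
    (hdeg : ∀ v : V, (deg F v : ℝ) ≤ d) (e : Finset V) (T : V → Finset (Finset V))
    (hT : ∀ v, ∀ g ∈ T v, g ∈ F ∧ v ∈ g) (v : V) :
    ((supp (far (T v) t e) e).card : ℝ) ≤ (k : ℝ) * d := by
  have h1 : (supp (far (T v) t e) e).card ≤ (far (T v) t e).card * k := by
    unfold supp
    refine card_biUnion_le_card_mul _ _ _ fun g hg => ?_
    have hg1 : g ∈ T v := (mem_filter.1 hg).1
    calc (g \ e).card ≤ g.card := card_le_card sdiff_subset
      _ = k := hF g (hT v g hg1).1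
      _ ≤ k := le_rfl
  have h2 : (far (T v) t e).card ≤ deg F v := by
    unfold far deg
    refine card_le_card fun g hg => ?_
    have hg1 : g ∈ T v := (mem_filter.1 hg).1
    exact mem_filter.2 (hT v g hg1)
  have h3 : (supp (far (T v) t e) e).card ≤ deg F v * k :=
    h1.trans (Nat.mul_le_mul_right _ h2)
  have h4 : ((supp (far (T v) t e) e).card : ℝ) ≤ (deg F v : ℝ) * (k : ℝ) := by exact_mod_cast h3
  have h5 : (deg F v : ℝ) * (k : ℝ) ≤ d * k :=
    mul_le_mul_of_nonneg_right (hdeg v) (Nat.cast_nonneg _)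
  linarith [mul_comm d (k : ℝ)]

omit [Fintype V] in
private theorem Overlap_count {F : Finset (Finset V)} {t : ℕ} {d : ℝ}
    (hdeg : ∀ v : V, (deg F v : ℝ) ≤ d) {e : Finset V}
    (T : V → Finset (Finset V)) (hT : ∀ v, ∀ g ∈ T v, g ∈ F ∧ v ∈ g) {A : Finset V}
    (hA : A ⊆ e) (u : V) :
    ((A.filter (fun v' => u ∈ supp (far (T v') t e) e)).card : ℝ) ≤ d * (t : ℝ) := by
  have h1 : A.filter (fun v' => u ∈ supp (far (T v') t e) e) ⊆
      (F.filter (fun g => u ∈ g ∧ (g ∩ e).card ≤ t)).biUnion (fun g => g ∩ e) := by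
    intro v' hv'
    obtain ⟨hv1, hv2⟩ := mem_filter.1 hv'
    obtain ⟨g, hg, hug⟩ := mem_biUnion.1 hv2
    obtain ⟨hg1, hg2⟩ := mem_filter.1 hg
    obtain ⟨hg3, hg4⟩ := hT v' g hg1
    exact mem_biUnion.2 ⟨g, mem_filter.2 ⟨hg3, (mem_sdiff.1 hug).1, hg2⟩,
      mem_inter.2 ⟨hg4, hA hv1⟩⟩
  have h2 : (A.filter (fun v' => u ∈ supp (far (T v') t e) e)).card ≤ deg F u * t := by
    refine (card_le_card h1).trans ?_
    refine (card_biUnion_le_card_mul _ _ t fun g hg => (mem_filter.1 hg).2.2).trans ?_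
    refine Nat.mul_le_mul_right _ ?_
    unfold deg
    exact card_le_card fun g hg => mem_filter.2 ⟨(mem_filter.1 hg).1, (mem_filter.1 hg).2.1⟩
  have h3 : ((A.filter (fun v' => u ∈ supp (far (T v') t e) e)).card : ℝ) ≤
      (deg F u : ℝ) * (t : ℝ) := by exact_mod_cast h2
  exact h3.trans (mul_le_mul_of_nonneg_right (hdeg u) (Nat.cast_nonneg _))

omit [Fintype V] in
private theorem Overlap_swap (A : Finset V) (S : V → Finset V) (v : V) :
    ∑ v' ∈ A, ((S v ∩ S v').card : ℝ) =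
      ∑ u ∈ S v, ((A.filter (fun v' => u ∈ S v')).card : ℝ) := by
  have h1 : ∀ v' ∈ A, ((S v ∩ S v').card : ℝ) = ∑ u ∈ S v, if u ∈ S v' then (1 : ℝ) else 0 := by
    intro v' _
    rw [← sum_filter, sum_const, nsmul_eq_mul, mul_one]
    congr 2
  rw [sum_congr rfl h1, sum_comm]
  refine sum_congr rfl fun u _ => ?_
  rw [← sum_filter, sum_const, nsmul_eq_mul, mul_one]

theorem overlap {F : Finset (Finset V)} {k t : ℕ} {d : ℝ} (hd : 0 ≤ d) (hF : Unif k F)
    (hdeg : ∀ v : V, (deg F v : ℝ) ≤ d) {e : Finset V} (he : e.card = k)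
    (T : V → Finset (Finset V)) (hT : ∀ v, ∀ g ∈ T v, g ∈ F ∧ v ∈ g) {A : Finset V}
    (hA : A ⊆ e) :
    ∑ v ∈ A, ∑ v' ∈ A,
      ((supp (far (T v) t e) e ∩ supp (far (T v') t e) e).card : ℝ) ≤
      (k : ℝ) * ((k : ℝ) * d) * (d * (t : ℝ)) := by
  have hdt : 0 ≤ d * (t : ℝ) := mul_nonneg hd (Nat.cast_nonneg _)
  have hkd : 0 ≤ (k : ℝ) * d := mul_nonneg (Nat.cast_nonneg _) hd
  have h1 : ∀ v ∈ A, ∑ v' ∈ A,
      ((supp (far (T v) t e) e ∩ supp (far (T v') t e) e).card : ℝ) ≤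
        (k : ℝ) * d * (d * (t : ℝ)) := by
    intro v _
    rw [Overlap_swap A (fun v => supp (far (T v) t e) e) v]
    calc ∑ u ∈ supp (far (T v) t e) e,
          ((A.filter (fun v' => u ∈ supp (far (T v') t e) e)).card : ℝ)
        ≤ ∑ _u ∈ supp (far (T v) t e) e, d * (t : ℝ) :=
          sum_le_sum fun u _ => Overlap_count hdeg T hT hA u
      _ = ((supp (far (T v) t e) e).card : ℝ) * (d * (t : ℝ)) := by
          rw [sum_const, nsmul_eq_mul]
      _ ≤ (k : ℝ) * d * (d * (t : ℝ)) :=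
          mul_le_mul_of_nonneg_right (supp_card_le hF hdeg e T hT v) hdt
  have hAk : (A.card : ℝ) ≤ (k : ℝ) := by
    have h2 : A.card ≤ k := he ▸ card_le_card hA
    exact_mod_cast h2
  calc ∑ v ∈ A, ∑ v' ∈ A,
      ((supp (far (T v) t e) e ∩ supp (far (T v') t e) e).card : ℝ)
      ≤ ∑ _v ∈ A, (k : ℝ) * d * (d * (t : ℝ)) := sum_le_sum h1
    _ = (A.card : ℝ) * ((k : ℝ) * d * (d * (t : ℝ))) := by rw [sum_const, nsmul_eq_mul]
    _ ≤ (k : ℝ) * ((k : ℝ) * d * (d * (t : ℝ))) :=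
        mul_le_mul_of_nonneg_right hAk (mul_nonneg hkd hdt)
    _ = (k : ℝ) * ((k : ℝ) * d) * (d * (t : ℝ)) := by ring

end Pool.Agent.DCX
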