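import Pool.Agent.DCX.TTBasic
import Pool.Agent.DCX.Laplace
import Pool.Agent.DCX.Overlap

/-!
The probability that a fine edge is missed by the random set and by the selection.
-/

namespace Pool.Agent.DCX

open Finset

variable {V : Type} [Fintype V] [DecidableEq V]

private theorem Miss_goodSet_sub (F : Finset (Finset V)) (t : ℕ) (c b r : ℝ) (j : ℕ)
    (e : Finset V) : goodSet F t c b r j e ⊆ e := by
  classical
  unfold goodSet
  exact filter_subset _ _

private theorem Miss_good {F : Finset (Finset V)} {t : ℕ} {c b r : ℝ} {j : ℕ} {e : Finset V}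
    {v : V} (h : v ∈ goodSet F t c b r j e) : Good F t c b r j v e := by
  classical
  unfold goodSet at h
  exact (mem_filter.1 h).2

/-- the pointwise bound for the product -/
private theorem Miss_prod {F : Finset (Finset V)} {k t j : ℕ} {M d κ r : ℝ}
    (h : Hyp V F k t j M d κ r) {e : Finset V} (he : e ∈ F) (S : Finset V) :
    ind (Disjoint e S) *
      ∏ v ∈ e, (1 - xx F t (κ * d) (Real.exp (-M) * d / 16) r M j k v *
        ind (Has (TT F t (κ * d) v) v t (j + 1) S)) ≤
    ind (Disjoint e S) *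
      Real.exp (-(∑ v ∈ goodSet F t (κ * d) (Real.exp (-M) * d / 16) r j e,
        xx F t (κ * d) (Real.exp (-M) * d / 16) r M j k v *
          ind (Has (far (TT F t (κ * d) v) t e) v t j (S \ e)))) := by
  by_cases hd : Disjoint e S
  swap
  · rw [ind_false hd, zero_mul, zero_mul]
  refine mul_le_mul_of_nonneg_left ?_ (ind_nonneg _)
  have hS : S \ e = S := sdiff_eq_self_of_disjoint hd.symm
  rw [hS]
  have hf0 : ∀ v, 0 ≤ 1 - xx F t (κ * d) (Real.exp (-M) * d / 16) r M j k v *
      ind (Has (TT F t (κ * d) v) v t (j + 1) S) := by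
    intro v
    have h1 := xx_le_one h v
    have h2 := xx_nonneg h v
    have h3 := ind_le_one (Has (TT F t (κ * d) v) v t (j + 1) S)
    have h4 := ind_nonneg (Has (TT F t (κ * d) v) v t (j + 1) S)
    have h5 := mul_le_one₀ h1 h4 h3
    linarith
  have hf1 : ∀ v, 1 - xx F t (κ * d) (Real.exp (-M) * d / 16) r M j k v *
      ind (Has (TT F t (κ * d) v) v t (j + 1) S) ≤ 1 := by
    intro v
    have h2 := xx_nonneg h v
    have h4 := ind_nonneg (Has (TT F t (κ * d) v) v t (j + 1) S)
    have h5 := mul_nonneg h2 h4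
    linarith
  have hsub := Miss_goodSet_sub F t (κ * d) (Real.exp (-M) * d / 16) r j e
  calc ∏ v ∈ e, (1 - xx F t (κ * d) (Real.exp (-M) * d / 16) r M j k v *
        ind (Has (TT F t (κ * d) v) v t (j + 1) S))
      ≤ ∏ v ∈ goodSet F t (κ * d) (Real.exp (-M) * d / 16) r j e,
        (1 - xx F t (κ * d) (Real.exp (-M) * d / 16) r M j k v *
        ind (Has (TT F t (κ * d) v) v t (j + 1) S)) := by
        rw [← prod_sdiff hsub]
        refine mul_le_of_le_one_left (prod_nonneg fun v _ => hf0 v) ?_
        exact prod_le_one (fun v _ => hf0 v) (fun v _ => hf1 v)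
    _ ≤ ∏ v ∈ goodSet F t (κ * d) (Real.exp (-M) * d / 16) r j e,
        Real.exp (-(xx F t (κ * d) (Real.exp (-M) * d / 16) r M j k v *
          ind (Has (far (TT F t (κ * d) v) t e) v t j S))) := by
        refine prod_le_prod (fun v _ => hf0 v) ?_
        intro v hv
        have hg := Miss_good hv
        have h1 : ind (Has (far (TT F t (κ * d) v) t e) v t j S) ≤
            ind (Has (TT F t (κ * d) v) v t (j + 1) S) := by
          refine ind_mono fun hH => ?_
          refine Has_succ_of_far hg.2.2.1 ?_ hd hH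
          rw [h.unif e he]
          exact h.htk
        have h2 := mul_le_mul_of_nonneg_left h1 (xx_nonneg h v)
        have h3 := Real.add_one_le_exp (-(xx F t (κ * d) (Real.exp (-M) * d / 16) r M j k v *
          ind (Has (far (TT F t (κ * d) v) t e) v t j S)))
        linarith
    _ = _ := by
        rw [← Real.exp_sum, sum_neg_distrib]

/-- the mean of the number of selected good vertices -/
private theorem Miss_mean {F : Finset (Finset V)} {k t j : ℕ} {M d κ r : ℝ}
    (h : Hyp V F k t j M d κ r) {e : Finset V}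
    (hfine : Fine F t (κ * d) (Real.exp (-M) * d / 16) r j k e) :
    3 * M / 2 ≤ ∑ v ∈ goodSet F t (κ * d) (Real.exp (-M) * d / 16) r j e,
      xx F t (κ * d) (Real.exp (-M) * d / 16) r M j k v *
        PP r (fun S => Has (far (TT F t (κ * d) v) t e) v t j (S \ e)) := by
  have hk : (0 : ℝ) < k := by
    have := h.hk
    exact_mod_cast this
  have hM : (0 : ℝ) < M := lt_of_lt_of_le one_pos h.hM
  have h1 : ∀ v ∈ goodSet F t (κ * d) (Real.exp (-M) * d / 16) r j e,
      7 * M / (4 * k) ≤ xx F t (κ * d) (Real.exp (-M) * d / 16) r M j k v *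
        PP r (fun S => Has (far (TT F t (κ * d) v) t e) v t j (S \ e)) := by
    intro v hv
    obtain ⟨_, hu, _, hP⟩ := Miss_good hv
    have ha := aa_pos h v hu
    have hx : xx F t (κ * d) (Real.exp (-M) * d / 16) r M j k v =
        2 * M / ((k : ℝ) * aa F t (κ * d) r j v) := by
      unfold xx
      rw [if_pos hu]
    have hP2 : 7 / 8 * aa F t (κ * d) r j v ≤
        PP r (fun S => Has (far (TT F t (κ * d) v) t e) v t j (S \ e)) := by
      refine hP.trans ?_
      exact PP_mono h.hr0 h.hr1.le fun S hS => Has_anti sdiff_subset hS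
    have hx0 : 0 ≤ xx F t (κ * d) (Real.exp (-M) * d / 16) r M j k v := xx_nonneg h v
    refine le_trans (le_of_eq ?_) (mul_le_mul_of_nonneg_left hP2 hx0)
    rw [hx]
    field_simp
    ring
  have h2 := card_nsmul_le_sum _ _ _ h1
  refine le_trans ?_ h2
  rw [nsmul_eq_mul]
  have h3 : 7 / 8 * (k : ℝ) * (7 * M / (4 * k)) ≤
      ((goodSet F t (κ * d) (Real.exp (-M) * d / 16) r j e).card : ℝ) * (7 * M / (4 * k)) := by
    refine mul_le_mul_of_nonneg_right hfine ?_
    positivity
  refine le_trans ?_ h3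
  have h4 : 7 / 8 * (k : ℝ) * (7 * M / (4 * k)) = 49 * M / 32 := by
    field_simp
    ring
  rw [h4]
  linarith

/-- the powers of `1 - r` -/
private theorem Miss_pow {F : Finset (Finset V)} {k t j : ℕ} {M d κ r : ℝ}
    (h : Hyp V F k t j M d κ r) (i : ℕ) (hi : (i : ℝ) ≤ k * d) :
    ((1 - r) ^ (2 * i))⁻¹ - 1 ≤
      2 * (Real.log d - M) / k * Real.exp (2 * d * (Real.log d - M)) * i := by
  have hk : (0 : ℝ) < k := by
    have := h.hk
    exact_mod_cast this
  have hd : 0 < d := lt_of_lt_of_le (Real.exp_pos M) h.hd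
  have hlam : 0 ≤ Real.log d - M := by
    have := Real.log_le_log (Real.exp_pos M) h.hd
    rw [Real.log_exp] at this
    linarith
  have hr : 0 < 1 - r := by
    have := h.hr1
    linarith
  have hlog : (k : ℝ) * Real.log (1 - r) = M - Real.log d := by
    rw [← Real.log_pow, h.hrk, Real.log_div (Real.exp_pos M).ne' hd.ne', Real.log_exp]
  have h1 : ((1 - r) ^ (2 * i))⁻¹ = Real.exp (2 * (Real.log d - M) / k * i) := by
    rw [← Real.exp_log (inv_pos.2 (pow_pos hr (2 * i))), Real.log_inv, Real.log_pow]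
    congr 1
    push_cast
    have h2 : Real.log (1 - r) = (M - Real.log d) / k := by
      rw [eq_div_iff hk.ne', mul_comm]
      exact hlog
    rw [h2]
    field_simp
    ring
  rw [h1]
  set z := 2 * (Real.log d - M) / k * (i : ℝ) with hz
  have hz0 : 0 ≤ z := by positivity
  have hz1 : z ≤ 2 * d * (Real.log d - M) := by
    have h3 : z ≤ 2 * (Real.log d - M) / k * (k * d) := by
      rw [hz]
      refine mul_le_mul_of_nonneg_left hi ?_
      positivity
    refine h3.trans (le_of_eq ?_)
    field_simp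
  have h4 : Real.exp z - 1 ≤ z * Real.exp z := by
    have h5 := Real.add_one_le_exp (-z)
    have h6 : Real.exp (-z) * Real.exp z = 1 := by
      rw [← Real.exp_add]
      simp
    have h7 := mul_le_mul_of_nonneg_right h5 (Real.exp_pos z).le
    rw [h6] at h7
    linarith
  refine h4.trans ?_
  have h8 : Real.exp z ≤ Real.exp (2 * d * (Real.log d - M)) := Real.exp_le_exp.2 hz1
  have h9 := mul_le_mul_of_nonneg_left h8 hz0
  refine h9.trans (le_of_eq ?_)
  rw [hz]
  ring

/-- the variance -/
private theorem Miss_var {F : Finset (Finset V)} {k t j : ℕ} {M d κ r : ℝ}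
    (h : Hyp V F k t j M d κ r) {e : Finset V} (he : e ∈ F) :
    1 / (M / 2) ^ 2 * ∑ v ∈ goodSet F t (κ * d) (Real.exp (-M) * d / 16) r j e,
      ∑ v' ∈ goodSet F t (κ * d) (Real.exp (-M) * d / 16) r j e,
        (xx F t (κ * d) (Real.exp (-M) * d / 16) r M j k v *
          PP r (fun S => Has (far (TT F t (κ * d) v) t e) v t j (S \ e))) *
        (xx F t (κ * d) (Real.exp (-M) * d / 16) r M j k v' *
          PP r (fun S => Has (far (TT F t (κ * d) v') t e) v' t j (S \ e))) *
        (((1 - r) ^ (2 * (supp (far (TT F t (κ * d) v) t e) e ∩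
          supp (far (TT F t (κ * d) v') t e) e).card))⁻¹ - 1) ≤ Real.exp (-M) := by
  have hk : (0 : ℝ) < k := by
    have := h.hk
    exact_mod_cast this
  have hd : 0 < d := lt_of_lt_of_le (Real.exp_pos M) h.hd
  have hM : (0 : ℝ) < M := lt_of_lt_of_le one_pos h.hM
  have hlam : 0 ≤ Real.log d - M := by
    have := Real.log_le_log (Real.exp_pos M) h.hd
    rw [Real.log_exp] at this
    linarith
  have hr : 0 < 1 - r := by
    have := h.hr1
    linarith
  have hT : ∀ v, ∀ g ∈ TT F t (κ * d) v, g ∈ F ∧ v ∈ g := fun v g hg =>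
    ⟨TT_subset F t (κ * d) v hg, mem_of_mem_TT hg⟩
  set G := goodSet F t (κ * d) (Real.exp (-M) * d / 16) r j e with hG
  have hover := overlap (t := t) hd.le h.unif h.hdeg (h.unif e he) (TT F t (κ * d)) hT
    (Miss_goodSet_sub F t (κ * d) (Real.exp (-M) * d / 16) r j e)
  rw [← hG] at hover
  set E := Real.exp (2 * d * (Real.log d - M)) with hE
  have hE0 : 0 < E := Real.exp_pos _
  have hterm : ∀ v ∈ G, ∀ v' ∈ G,
      (xx F t (κ * d) (Real.exp (-M) * d / 16) r M j k v *
          PP r (fun S => Has (far (TT F t (κ * d) v) t e) v t j (S \ e))) *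
        (xx F t (κ * d) (Real.exp (-M) * d / 16) r M j k v' *
          PP r (fun S => Has (far (TT F t (κ * d) v') t e) v' t j (S \ e))) *
        (((1 - r) ^ (2 * (supp (far (TT F t (κ * d) v) t e) e ∩
          supp (far (TT F t (κ * d) v') t e) e).card))⁻¹ - 1) ≤
      (4 * M / k) * (4 * M / k) * (2 * (Real.log d - M) / k * E) *
        ((supp (far (TT F t (κ * d) v) t e) e ∩
          supp (far (TT F t (κ * d) v') t e) e).card : ℝ) := by
    intro v _ v' _
    have hi : ((supp (far (TT F t (κ * d) v) t e) e ∩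
          supp (far (TT F t (κ * d) v') t e) e).card : ℝ) ≤ k * d := by
      refine le_trans ?_ (supp_card_le (t := t) h.unif h.hdeg e (TT F t (κ * d)) hT v)
      exact_mod_cast card_le_card inter_subset_left
    have h1 := Miss_pow h _ hi
    rw [← hE] at h1
    have h0 : 0 ≤ ((1 - r) ^ (2 * (supp (far (TT F t (κ * d) v) t e) e ∩
          supp (far (TT F t (κ * d) v') t e) e).card))⁻¹ - 1 := by
      have h2 : (1 - r) ^ (2 * (supp (far (TT F t (κ * d) v) t e) e ∩
          supp (far (TT F t (κ * d) v') t e) e).card) ≤ 1 := by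
        refine pow_le_one₀ hr.le ?_
        have := h.hr0
        linarith
      have h3 := (one_le_inv₀ (pow_pos hr _)).2 h2
      linarith
    have hf := far_use h v e
    have hf' := far_use h v' e
    have hf0' : 0 ≤ xx F t (κ * d) (Real.exp (-M) * d / 16) r M j k v' *
          PP r (fun S => Has (far (TT F t (κ * d) v') t e) v' t j (S \ e)) :=
      mul_nonneg (xx_nonneg h v') (PP_nonneg h.hr0 h.hr1.le _)
    have h4k : 0 ≤ 4 * M / (k : ℝ) := by positivity
    have h5 := mul_le_mul hf hf' hf0' h4k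
    have h6 := mul_le_mul h5 h1 h0 (mul_nonneg h4k h4k)
    refine h6.trans (le_of_eq ?_)
    ring
  have hsum := sum_le_sum fun v hv => sum_le_sum fun v' hv' => hterm v hv v' hv'
  have hC : 0 ≤ (4 * M / k) * (4 * M / k) * (2 * (Real.log d - M) / k * E) := by positivity
  have hfac : ∑ v ∈ G, ∑ v' ∈ G, (4 * M / k) * (4 * M / k) * (2 * (Real.log d - M) / k * E) *
        ((supp (far (TT F t (κ * d) v) t e) e ∩
          supp (far (TT F t (κ * d) v') t e) e).card : ℝ) ≤
      (4 * M / k) * (4 * M / k) * (2 * (Real.log d - M) / k * E) *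
        ((k : ℝ) * ((k : ℝ) * d) * (d * (t : ℝ))) := by
    refine le_trans (le_of_eq ?_) (mul_le_mul_of_nonneg_left hover hC)
    rw [mul_sum]
    refine sum_congr rfl fun v _ => ?_
    rw [mul_sum]
  have htot := hsum.trans hfac
  have hM2 : 0 ≤ 1 / (M / 2) ^ 2 := by positivity
  refine (mul_le_mul_of_nonneg_left htot hM2).trans ?_
  have heq : 1 / (M / 2) ^ 2 * ((4 * M / k) * (4 * M / k) * (2 * (Real.log d - M) / k * E) *
        ((k : ℝ) * ((k : ℝ) * d) * (d * (t : ℝ)))) =
      128 * (Real.log d - M) * E * d ^ 2 * t / k := by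
    field_simp
    ring
  rw [heq, div_le_iff₀ hk]
  have hE1 : E ≤ Real.exp (2 * d * Real.log d) := by
    rw [hE]
    refine Real.exp_le_exp.2 ?_
    refine mul_le_mul_of_nonneg_left ?_ (by positivity)
    linarith
  have hlogd : 0 ≤ Real.log d := by linarith
  have ht : (0 : ℝ) ≤ t := Nat.cast_nonneg t
  have h7 : 128 * (Real.log d - M) * E * d ^ 2 * t ≤
      128 * Real.log d * Real.exp (2 * d * Real.log d) * d ^ 2 * t := by
    have h8 : (Real.log d - M) * E ≤ Real.log d * Real.exp (2 * d * Real.log d) :=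
      mul_le_mul (by linarith) hE1 hE0.le hlogd
    have h9 : 0 ≤ 128 * (d ^ 2 * (t : ℝ)) := by positivity
    have h10 := mul_le_mul_of_nonneg_left h8 h9
    calc 128 * (Real.log d - M) * E * d ^ 2 * t
        = 128 * (d ^ 2 * (t : ℝ)) * ((Real.log d - M) * E) := by ring
      _ ≤ 128 * (d ^ 2 * (t : ℝ)) * (Real.log d * Real.exp (2 * d * Real.log d)) := h10
      _ = _ := by ring
  refine h7.trans ?_
  have h11 := mul_le_mul_of_nonneg_left h.hvar (Real.exp_pos (-M)).le
  refine le_trans (le_of_eq ?_) h11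
  have h12 : Real.exp (-M) * Real.exp M = 1 := by
    rw [← Real.exp_add]
    simp
  calc 128 * Real.log d * Real.exp (2 * d * Real.log d) * d ^ 2 * t
      = (Real.exp (-M) * Real.exp M) *
        (128 * Real.log d * Real.exp (2 * d * Real.log d) * d ^ 2 * t) := by
        rw [h12, one_mul]
    _ = _ := by ring

theorem miss {F : Finset (Finset V)} {k t j : ℕ} {M d κ r : ℝ} (h : Hyp V F k t j M d κ r)
    {e : Finset V} (he : e ∈ F)
    (hfine : Fine F t (κ * d) (Real.exp (-M) * d / 16) r j k e) :
    EE r (fun S => ind (Disjoint e S) *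
      ∏ v ∈ e, (1 - xx F t (κ * d) (Real.exp (-M) * d / 16) r M j k v *
        ind (Has (TT F t (κ * d) v) v t (j + 1) S))) ≤
      Real.exp M / d * (2 * Real.exp (-M)) := by
  have hM : (0 : ℝ) < M := lt_of_lt_of_le one_pos h.hM
  have hd : 0 < d := lt_of_lt_of_le (Real.exp_pos M) h.hd
  refine (EE_mono h.hr0 h.hr1.le (Miss_prod h he)).trans ?_
  have h1 := EE_disj r e (fun S =>
      Real.exp (-(∑ v ∈ goodSet F t (κ * d) (Real.exp (-M) * d / 16) r j e,
        xx F t (κ * d) (Real.exp (-M) * d / 16) r M j k v *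
          ind (Has (far (TT F t (κ * d) v) t e) v t j (S \ e)))))
  simp only [Finset.sdiff_idem] at h1
  rw [h1, h.unif e he, h.hrk]
  refine mul_le_mul_of_nonneg_left ?_ (div_nonneg (Real.exp_pos M).le hd.le)
  have h2 := laplace (goodSet F t (κ * d) (Real.exp (-M) * d / 16) r j e)
    (xx F t (κ * d) (Real.exp (-M) * d / 16) r M j k)
    (fun v S => Has (far (TT F t (κ * d) v) t e) v t j (S \ e))
    (fun v => supp (far (TT F t (κ * d) v) t e) e) h.hr0 h.hr1
    (fun v _ => xx_nonneg h v)
    (fun v _ S S' hSS hH => Has_anti (sdiff_subset_sdiff hSS (Subset.refl e)) hH)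
    (fun v _ S hH => Has_supp hH) (half_pos hM) (Miss_mean h hfine)
  refine h2.trans ?_
  have h3 := Miss_var h he
  have h4 : Real.exp (-(3 * M / 2 - M / 2)) = Real.exp (-M) := by
    congr 1
    ring
  rw [h4]
  linarith

end Pool.Agent.DCX
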