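import Pool.Agent.DCX.ExDisj

/-!
Basic facts on `res`, `tau` and `deg`: the covering cost `tau F` (minimum of `|S|` plus the number of missed
members), one random step (`tau_le_Ex_step`), independent selection (`tau_base`) and selection of a second set
whose probabilities depend on the first one (`tau_select`).
-/

namespace Pool.Agent.DCX

open Finset

variable {V : Type} [Fintype V] [DecidableEq V]

theorem tau_le (F : Finset (Finset V)) (S : Finset V) : tau F ≤ S.card + (res F S).card := by
  unfold tau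
  exact Finset.inf'_le (fun S => S.card + (res F S).card) (mem_univ S)

theorem tau_spec (F : Finset (Finset V)) : ∃ S : Finset V, tau F = S.card + (res F S).card := by
  unfold tau
  obtain ⟨S, _, hS⟩ := Finset.exists_mem_eq_inf'
    (⟨∅, mem_univ _⟩ : (univ : Finset (Finset V)).Nonempty) (fun S => S.card + (res F S).card)
  exact ⟨S, hS⟩

private theorem TauBasic_res_res (F : Finset (Finset V)) (S T : Finset V) :
    res (res F S) T = res F (S ∪ T) := by
  unfold res
  ext e
  simp only [mem_filter, disjoint_union_right, and_assoc]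

theorem tau_step (F : Finset (Finset V)) (S : Finset V) : tau F ≤ S.card + tau (res F S) := by
  obtain ⟨T, hT⟩ := tau_spec (res F S)
  have h := tau_le F (S ∪ T)
  have h2 := card_union_le S T
  rw [hT, TauBasic_res_res]
  omega

theorem tau_mono {F G : Finset (Finset V)} (h : F ⊆ G) : tau F ≤ tau G := by
  obtain ⟨S, hS⟩ := tau_spec G
  have h1 := tau_le F S
  have h2 : (res F S).card ≤ (res G S).card := card_le_card (filter_subset_filter _ h)
  omega

/-- a genuine vertex cover of size at most `tau F` -/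
theorem exists_cover {k : ℕ} (hk : 1 ≤ k) {F : Finset (Finset V)} (hF : Unif k F) :
    ∃ S : Finset V, S.card ≤ tau F ∧ ∀ e ∈ F, ¬ Disjoint e S := by
  classical
  obtain ⟨S, hS⟩ := tau_spec F
  have hne : ∀ e ∈ F, e.Nonempty := by
    intro e he
    rw [← card_pos, hF e he]
    exact hk
  let c : Finset V → Finset V := fun e => if h : e.Nonempty then {h.choose} else ∅
  refine ⟨S ∪ (res F S).biUnion c, ?_, ?_⟩
  · have h1 := card_union_le S ((res F S).biUnion c)
    have h2 : ((res F S).biUnion c).card ≤ (res F S).card * 1 := by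
      apply card_biUnion_le_card_mul
      intro e _
      by_cases h : e.Nonempty
      · simp [c, h]
      · simp [c, h]
    omega
  · intro e he hd
    rw [disjoint_union_right] at hd
    have her : e ∈ res F S := by
      unfold res
      rw [mem_filter]
      exact ⟨he, hd.1⟩
    have hn := hne e he
    have hmem : hn.choose ∈ (res F S).biUnion c := by
      rw [mem_biUnion]
      refine ⟨e, her, ?_⟩
      simp [c, hn]
    exact disjoint_left.1 hd.2 hn.choose_spec hmem

theorem tau_le_Ex_step {p : V → ℝ} (h0 : ∀ v, 0 ≤ p v) (h1 : ∀ v, p v ≤ 1)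
    (F : Finset (Finset V)) :
    (tau F : ℝ) ≤ ∑ v, p v + Ex (univ : Finset V) p (fun S => (tau (res F S) : ℝ)) := by
  have h := Ex_mono (U := (univ : Finset V)) (fun v _ => h0 v) (fun v _ => h1 v)
    (f := fun _ => (tau F : ℝ)) (g := fun S => (S.card : ℝ) + (tau (res F S) : ℝ))
    (fun S _ => by exact_mod_cast tau_step F S)
  rwa [Ex_const, Ex_add, Ex_card] at h

private theorem TauBasic_card_res (F : Finset (Finset V)) (S : Finset V) :
    ((res F S).card : ℝ) = ∑ e ∈ F, ind (Disjoint e S) := by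
  unfold res
  rw [card_filter]
  push_cast
  apply sum_congr rfl
  intro e _
  by_cases h : Disjoint e S
  · rw [if_pos h, ind_true h]
  · rw [if_neg h, ind_false h]

private theorem TauBasic_Ex_disj (p : V → ℝ) (e : Finset V) :
    Ex (univ : Finset V) p (fun S => ind (Disjoint e S)) = ∏ v ∈ e, (1 - p v) := by
  have h := Ex_disj (subset_univ e) p (fun _ => (1 : ℝ))
  rw [Ex_const, mul_one] at h
  rw [← h]
  exact Ex_congr fun S _ => (mul_one _).symm

private theorem TauBasic_Ex_card_res (p : V → ℝ) (F : Finset (Finset V)) :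
    Ex (univ : Finset V) p (fun S => ((res F S).card : ℝ)) = ∑ e ∈ F, ∏ v ∈ e, (1 - p v) := by
  have h : Ex (univ : Finset V) p (fun S => ((res F S).card : ℝ)) =
      Ex (univ : Finset V) p (fun S => ∑ e ∈ F, ind (Disjoint e S)) :=
    Ex_congr fun S _ => TauBasic_card_res F S
  rw [h, Ex_sum F (univ : Finset V) p (fun e S => ind (Disjoint e S))]
  exact sum_congr rfl fun e _ => TauBasic_Ex_disj p e

theorem tau_base {p : V → ℝ} (h0 : ∀ v, 0 ≤ p v) (h1 : ∀ v, p v ≤ 1) (F : Finset (Finset V)) :
    (tau F : ℝ) ≤ ∑ v, p v + ∑ e ∈ F, ∏ v ∈ e, (1 - p v) := by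
  have h := Ex_mono (U := (univ : Finset V)) (fun v _ => h0 v) (fun v _ => h1 v)
    (f := fun _ => (tau F : ℝ)) (g := fun S => (S.card : ℝ) + ((res F S).card : ℝ))
    (fun S _ => by exact_mod_cast tau_le F S)
  rwa [Ex_const, Ex_add, Ex_card, TauBasic_Ex_card_res] at h

theorem EE_card_res (r : ℝ) (F : Finset (Finset V)) :
    EE r (fun S => ((res F S).card : ℝ)) = ∑ e ∈ F, (1 - r) ^ e.card := by
  unfold EE
  rw [TauBasic_Ex_card_res]
  exact sum_congr rfl fun e _ => prod_const _

theorem sum_deg {k : ℕ} {F : Finset (Finset V)} (hF : Unif k F) :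
    ∑ v : V, (deg F v : ℝ) = (k : ℝ) * (F.card : ℝ) := by
  have h1 : ∀ v : V, (deg F v : ℝ) = ∑ e ∈ F, if v ∈ e then (1 : ℝ) else 0 := by
    intro v
    unfold deg
    rw [card_filter]
    push_cast
    rfl
  rw [sum_congr rfl fun v _ => h1 v, sum_comm]
  have h2 : ∀ e ∈ F, ∑ v : V, (if v ∈ e then (1 : ℝ) else 0) = (k : ℝ) := by
    intro e he
    rw [sum_ite_mem, univ_inter, sum_const, nsmul_eq_mul, mul_one, hF e he]
  rw [sum_congr rfl h2, sum_const, nsmul_eq_mul, mul_comm]

theorem res_unif {k : ℕ} {F : Finset (Finset V)} (hF : Unif k F) (S : Finset V) :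
    Unif k (res F S) := fun e he => hF e (mem_of_mem_filter e he)

theorem tau_select {r : ℝ} (hr0 : 0 ≤ r) (hr1 : r ≤ 1) {x : V → ℝ} (h0 : ∀ v, 0 ≤ x v)
    (h1 : ∀ v, x v ≤ 1) (H : V → Finset V → Prop) (F : Finset (Finset V)) :
    (tau F : ℝ) ≤ r * (Fintype.card V : ℝ) + ∑ v, x v * PP r (H v) +
      ∑ e ∈ F, EE r (fun S => ind (Disjoint e S) * ∏ v ∈ e, (1 - x v * ind (H v S))) := by
  have hS : ∀ S : Finset V, (tau F : ℝ) ≤ (S.card : ℝ) + ∑ v, x v * ind (H v S) +
      ∑ e ∈ F, ind (Disjoint e S) * ∏ v ∈ e, (1 - x v * ind (H v S)) := by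
    intro S
    have a1 : (tau F : ℝ) ≤ (S.card : ℝ) + (tau (res F S) : ℝ) := by
      exact_mod_cast tau_step F S
    have a2 := tau_base (p := fun v => x v * ind (H v S))
      (fun v => mul_nonneg (h0 v) (ind_nonneg _))
      (fun v => mul_le_one₀ (h1 v) (ind_nonneg _) (ind_le_one _)) (res F S)
    have a3 : ∑ e ∈ res F S, ∏ v ∈ e, (1 - x v * ind (H v S)) =
        ∑ e ∈ F, ind (Disjoint e S) * ∏ v ∈ e, (1 - x v * ind (H v S)) := by
      unfold res
      rw [sum_filter]
      apply sum_congr rfl
      intro e _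
      by_cases h : Disjoint e S
      · rw [if_pos h, ind_true h, one_mul]
      · rw [if_neg h, ind_false h, zero_mul]
    rw [a3] at a2
    linarith
  have h := EE_mono hr0 hr1 (f := fun _ => (tau F : ℝ)) hS
  rw [EE_const] at h
  refine le_trans h (le_of_eq ?_)
  unfold EE
  rw [Ex_add (univ : Finset V) (fun _ => r) (fun S => (S.card : ℝ) + ∑ v, x v * ind (H v S)),
    Ex_add (univ : Finset V) (fun _ => r) (fun S => (S.card : ℝ)), Ex_card,
    Ex_sum (univ : Finset V) (univ : Finset V) (fun _ => r) (fun v S => x v * ind (H v S)),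
    Ex_sum F (univ : Finset V) (fun _ => r)
      (fun e S => ind (Disjoint e S) * ∏ v ∈ e, (1 - x v * ind (H v S)))]
  congr 1
  congr 1
  · rw [sum_const, nsmul_eq_mul, card_univ, mul_comm]
  · apply sum_congr rfl
    intro v _
    rw [Ex_mul_left]
    rfl

end Pool.Agent.DCX
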