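import Pool.Agent.DCX.NonFine
import Pool.Agent.DCX.Miss
import Pool.Agent.DCX.TauBasic

/-!
The cover lemma, assembly. Under `Hyp` the two stage selection costs at most `(log d - M) n` for the
random set and `n / k` per vertex for the extra points; a fine edge is missed with probability at most
`2 / d`, any other edge with probability at most `exp M / d`, and `nonfine` bounds the number of the
latter.
-/

namespace Pool.Agent.DCX

open Finset

variable {V : Type} [Fintype V] [DecidableEq V]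

private theorem CoverCore_any {F : Finset (Finset V)} {k t j : ℕ} {M d κ r : ℝ}
    (h : Hyp V F k t j M d κ r) {e : Finset V} (he : e ∈ F) :
    EE r (fun S => ind (Disjoint e S) *
      ∏ v ∈ e, (1 - xx F t (κ * d) (Real.exp (-M) * d / 16) r M j k v *
        ind (Has (TT F t (κ * d) v) v t (j + 1) S))) ≤ Real.exp M / d := by
  have h1 : EE r (fun S => ind (Disjoint e S) *
      ∏ v ∈ e, (1 - xx F t (κ * d) (Real.exp (-M) * d / 16) r M j k v *
        ind (Has (TT F t (κ * d) v) v t (j + 1) S))) ≤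
      PP r (fun S => Disjoint e S) := by
    refine EE_mono h.hr0 h.hr1.le fun S => ?_
    refine mul_le_of_le_one_right (ind_nonneg _) ?_
    refine Finset.prod_le_one (fun v _ => ?_) (fun v _ => ?_)
    · have h2 : xx F t (κ * d) (Real.exp (-M) * d / 16) r M j k v *
          ind (Has (TT F t (κ * d) v) v t (j + 1) S) ≤ 1 * 1 :=
        mul_le_mul (xx_le_one h v) (ind_le_one _) (ind_nonneg _) zero_le_one
      linarith
    · have h2 : 0 ≤ xx F t (κ * d) (Real.exp (-M) * d / 16) r M j k v *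
          ind (Has (TT F t (κ * d) v) v t (j + 1) S) :=
        mul_nonneg (xx_nonneg h v) (ind_nonneg _)
      linarith
  rw [PP_disj, h.unif e he, h.hrk] at h1
  exact h1

private theorem CoverCore_edge {F : Finset (Finset V)} {k t j : ℕ} {M d κ r : ℝ}
    (h : Hyp V F k t j M d κ r) {e : Finset V} (he : e ∈ F) :
    EE r (fun S => ind (Disjoint e S) *
      ∏ v ∈ e, (1 - xx F t (κ * d) (Real.exp (-M) * d / 16) r M j k v *
        ind (Has (TT F t (κ * d) v) v t (j + 1) S))) ≤
      2 / d + Real.exp M / d *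
        ind (¬ Fine F t (κ * d) (Real.exp (-M) * d / 16) r j k e) := by
  have hd : 0 < d := lt_of_lt_of_le (Real.exp_pos M) h.hd
  by_cases hf : Fine F t (κ * d) (Real.exp (-M) * d / 16) r j k e
  · rw [ind_false (not_not.2 hf), mul_zero, add_zero]
    refine (miss h he hf).trans (le_of_eq ?_)
    have h1 : Real.exp M * Real.exp (-M) = 1 := by
      rw [← Real.exp_add, add_neg_cancel, Real.exp_zero]
    calc Real.exp M / d * (2 * Real.exp (-M)) = (Real.exp M * Real.exp (-M)) * 2 / d := by ring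
      _ = 2 / d := by rw [h1, one_mul]
  · rw [ind_true hf, mul_one]
    have h1 : 0 ≤ 2 / d := by positivity
    have h2 := CoverCore_any h he
    linarith

theorem cover_core {F : Finset (Finset V)} {k t j : ℕ} {M d κ r : ℝ} (h : Hyp V F k t j M d κ r) :
    (k : ℝ) * (tau F : ℝ) ≤
      (Real.log d - M + 2) * (Fintype.card V : ℝ) + 8 * Real.exp M * Nb F t (κ * d) / d
        + 2 * ((k : ℝ) * (F.card : ℝ)) / d := by
  have hd : 0 < d := lt_of_lt_of_le (Real.exp_pos M) h.hd
  have hk : (0 : ℝ) < k := by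
    have h1 := h.hk
    exact_mod_cast h1
  have hn : (0 : ℝ) ≤ (Fintype.card V : ℝ) := Nat.cast_nonneg _
  have hE := Real.exp_pos M
  have hEE : Real.exp M * Real.exp (-M) = 1 := by
    rw [← Real.exp_add, add_neg_cancel, Real.exp_zero]
  have h1 := tau_select h.hr0 h.hr1.le (xx_nonneg h) (xx_le_one h)
    (fun v S => Has (TT F t (κ * d) v) v t (j + 1) S) F
  obtain ⟨N, hN⟩ : ∃ N : ℝ, N = ∑ e ∈ F,
      ind (¬ Fine F t (κ * d) (Real.exp (-M) * d / 16) r j k e) := ⟨_, rfl⟩
  have h2 : ∑ v : V, xx F t (κ * d) (Real.exp (-M) * d / 16) r M j k v *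
      PP r (Has (TT F t (κ * d) v) v t (j + 1)) ≤ (Fintype.card V : ℝ) * (1 / (k : ℝ)) := by
    refine (Finset.sum_le_sum fun v _ => tail_use h v).trans (le_of_eq ?_)
    rw [Finset.sum_const, nsmul_eq_mul, Finset.card_univ]
  have h3 : ∑ e ∈ F, EE r (fun S => ind (Disjoint e S) *
      ∏ v ∈ e, (1 - xx F t (κ * d) (Real.exp (-M) * d / 16) r M j k v *
        ind (Has (TT F t (κ * d) v) v t (j + 1) S))) ≤
      (F.card : ℝ) * (2 / d) + Real.exp M / d * N := by
    refine (Finset.sum_le_sum fun e he => CoverCore_edge h he).trans (le_of_eq ?_)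
    rw [Finset.sum_add_distrib, Finset.sum_const, nsmul_eq_mul, ← Finset.mul_sum, hN]
  have h4 := nonfine h
  rw [← hN] at h4
  have h5 : (tau F : ℝ) ≤ r * (Fintype.card V : ℝ) + (Fintype.card V : ℝ) * (1 / (k : ℝ)) +
      ((F.card : ℝ) * (2 / d) + Real.exp M / d * N) := by
    refine h1.trans ?_
    exact add_le_add (add_le_add le_rfl h2) h3
  have h6 : (k : ℝ) * (tau F : ℝ) ≤ (k : ℝ) * r * (Fintype.card V : ℝ) + (Fintype.card V : ℝ) +
      2 * ((k : ℝ) * (F.card : ℝ)) / d + Real.exp M / d * ((k : ℝ) * N) := by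
    refine (mul_le_mul_of_nonneg_left h5 hk.le).trans (le_of_eq ?_)
    field_simp
    ring
  have h7 : (k : ℝ) * r * (Fintype.card V : ℝ) ≤ (Real.log d - M) * (Fintype.card V : ℝ) :=
    mul_le_mul_of_nonneg_right h.hkr hn
  have h8 : Real.exp M / d * ((k : ℝ) * N) ≤ Real.exp M / d *
      (8 * (Nb F t (κ * d) + Real.exp (-M) * d / 16 * (Fintype.card V : ℝ)
        + 8 * (j : ℝ) * (κ * d) * (Fintype.card V : ℝ))) :=
    mul_le_mul_of_nonneg_left h4 (div_nonneg hE.le hd.le)
  have h9 : Real.exp M / d *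
      (8 * (Nb F t (κ * d) + Real.exp (-M) * d / 16 * (Fintype.card V : ℝ)
        + 8 * (j : ℝ) * (κ * d) * (Fintype.card V : ℝ))) =
      8 * Real.exp M * Nb F t (κ * d) / d +
        (Real.exp M * Real.exp (-M)) / 2 * (Fintype.card V : ℝ) +
        64 * (Real.exp M * (κ * (j : ℝ))) * (Fintype.card V : ℝ) := by
    field_simp
    ring
  have h10 : 64 * (Real.exp M * (κ * (j : ℝ))) ≤ 1 / 2 := by
    have h11 : κ * (j : ℝ) * 128 ≤ Real.exp (-M) := by
      have h12 := h.hκ
      have h13 := h.hκ0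
      nlinarith
    have h14 : Real.exp M * (κ * (j : ℝ) * 128) ≤ Real.exp M * Real.exp (-M) :=
      mul_le_mul_of_nonneg_left h11 hE.le
    rw [hEE] at h14
    linarith
  have h15 : 64 * (Real.exp M * (κ * (j : ℝ))) * (Fintype.card V : ℝ) ≤
      1 / 2 * (Fintype.card V : ℝ) := mul_le_mul_of_nonneg_right h10 hn
  rw [hEE] at h9
  linarith

end Pool.Agent.DCX
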