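import Pool.Agent.DCX.TauBasic

/-!
TUR-DegRed. Greedy degree reduction (`deg_red`): adding vertices of large degree to `S` one by one; and the
monotonicity of `Nb` in the family.
-/

namespace Pool.Agent.DCX

open Finset

variable {V : Type} [Fintype V] [DecidableEq V]

private theorem DegRed_res_empty (F : Finset (Finset V)) : res F ∅ = F := by
  unfold res
  exact filter_true_of_mem fun e _ => disjoint_empty_right e

private theorem DegRed_res_insert (F : Finset (Finset V)) (v : V) (S : Finset V) :
    res F (insert v S) = res (res F {v}) S := by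
  unfold res
  rw [filter_filter]
  apply filter_congr
  intro e _
  rw [disjoint_insert_right, disjoint_singleton_right]

private theorem DegRed_card (F : Finset (Finset V)) (v : V) :
    (res F {v}).card + deg F v = F.card := by
  unfold res deg
  have h : F.filter (fun e => Disjoint e {v}) = F.filter (fun e => ¬ v ∈ e) := by
    apply filter_congr
    intro e _
    rw [disjoint_singleton_right]
  rw [h, add_comm]
  exact card_filter_add_card_filter_not (s := F) (fun e => v ∈ e)

private theorem DegRed_aux {B : ℝ} (hB : 0 < B) :
    ∀ n : ℕ, ∀ F : Finset (Finset V), F.card = n →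
      ∃ S : Finset V, (S.card : ℝ) * B ≤ (F.card : ℝ) ∧ ∀ v : V, (deg (res F S) v : ℝ) < B := by
  intro n
  induction n using Nat.strong_induction_on with
  | _ n ih =>
    intro F hF
    by_cases h : ∀ v : V, (deg F v : ℝ) < B
    · refine ⟨∅, ?_, ?_⟩
      · rw [card_empty, Nat.cast_zero, zero_mul]
        exact Nat.cast_nonneg _
      · rw [DegRed_res_empty]
        exact h
    · push Not at h
      obtain ⟨v, hv⟩ := h
      have h1 := DegRed_card F v
      have h2 : 0 < deg F v := by
        have : (0 : ℝ) < (deg F v : ℝ) := lt_of_lt_of_le hB hv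
        exact_mod_cast this
      obtain ⟨S, hS, hS'⟩ := ih (res F {v}).card (by omega) (res F {v}) rfl
      refine ⟨insert v S, ?_, ?_⟩
      · have h3 : ((insert v S).card : ℝ) ≤ (S.card : ℝ) + 1 := by
          exact_mod_cast card_insert_le v S
        have h4 : ((res F {v}).card : ℝ) + (deg F v : ℝ) = (F.card : ℝ) := by exact_mod_cast h1
        nlinarith [mul_le_mul_of_nonneg_right h3 hB.le]
      · rw [DegRed_res_insert]
        exact hS'

theorem deg_red (F : Finset (Finset V)) {B : ℝ} (hB : 0 < B) :
    ∃ S : Finset V, (S.card : ℝ) * B ≤ (F.card : ℝ) ∧ ∀ v : V, (deg (res F S) v : ℝ) < B :=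
  DegRed_aux hB F.card F rfl

theorem Nb_mono {F G : Finset (Finset V)} (h : F ⊆ G) (t : ℕ) (c : ℝ) : Nb F t c ≤ Nb G t c := by
  unfold Nb
  refine sum_le_sum fun v _ => ?_
  have h1 : F.filter (fun e => v ∈ e) ⊆ G.filter (fun e => v ∈ e) := filter_subset_filter _ h
  refine le_trans (sum_le_sum fun e _ => ind_mono fun hc => ?_)
    (sum_le_sum_of_subset_of_nonneg h1 fun e _ _ => ind_nonneg _)
  refine lt_of_lt_of_le hc ?_
  have h2 : near F t v e ⊆ near G t v e := by
    unfold near
    exact filter_subset_filter _ h
  exact_mod_cast card_le_card h2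

end Pool.Agent.DCX
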