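import Pool.Agent.DCX.TauBasic

/-!
The sampling rate `r` with `(1 - r) ^ k = y`, the base case of the induction (random sample and
patching) and the tangent line form of the bound `log x + C`.
-/

namespace Pool.Agent.DCX

open Finset

variable {V : Type} [Fintype V] [DecidableEq V]

theorem exists_rate {k : ℕ} (hk : 1 ≤ k) {y : ℝ} (hy0 : 0 < y) (hy1 : y ≤ 1) :
    ∃ r : ℝ, 0 ≤ r ∧ r < 1 ∧ (1 - r) ^ k = y ∧ (k : ℝ) * r ≤ - Real.log y := by
  have hk0 : (0 : ℝ) < k := by exact_mod_cast hk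
  have hlog : Real.log y ≤ 0 := Real.log_nonpos hy0.le hy1
  refine ⟨1 - Real.exp (Real.log y / k), ?_, ?_, ?_, ?_⟩
  · have h1 : Real.exp (Real.log y / k) ≤ 1 := by
      rw [Real.exp_le_one_iff]
      exact div_nonpos_of_nonpos_of_nonneg hlog hk0.le
    linarith
  · have h1 := Real.exp_pos (Real.log y / k)
    linarith
  · rw [sub_sub_cancel, ← Real.exp_nat_mul, mul_div_cancel₀ _ hk0.ne', Real.exp_log hy0]
  · have h1 := Real.add_one_le_exp (Real.log y / k)
    have h2 : (k : ℝ) * (1 - Real.exp (Real.log y / k)) ≤ k * (-(Real.log y / k)) :=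
      mul_le_mul_of_nonneg_left (by linarith) hk0.le
    have h3 : (k : ℝ) * (-(Real.log y / k)) = - Real.log y := by
      field_simp
    linarith

/-- base of the induction: random sample and patching -/
theorem Sb_base {k : ℕ} (hk : 1 ≤ k) : Sb V k 1 1 := by
  intro x hx F hF hFx
  have hx0 : 0 < x := lt_of_lt_of_le one_pos hx
  have hk0 : (0 : ℝ) < k := by exact_mod_cast hk
  obtain ⟨r, hr0, hr1, hrk, hkr⟩ := exists_rate hk (inv_pos.2 hx0) (inv_le_one_of_one_le₀ hx)
  rw [Real.log_inv, neg_neg] at hkr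
  have h1 := tau_base (p := fun _ : V => r) (fun _ => hr0) (fun _ => hr1.le) F
  have h2 : ∑ e ∈ F, ∏ v ∈ e, (1 - (fun _ : V => r) v) = (F.card : ℝ) * x⁻¹ := by
    rw [← hrk, sum_congr rfl (fun e he => ?_)]
    · rw [sum_const, nsmul_eq_mul]
    · rw [prod_const, hF e he]
  rw [h2, sum_const, card_univ, nsmul_eq_mul] at h1
  have h3 : (k : ℝ) * (tau F : ℝ) ≤ k * ((Fintype.card V : ℝ) * r + (F.card : ℝ) * x⁻¹) :=
    mul_le_mul_of_nonneg_left h1 hk0.le
  have h4 : (k : ℝ) * (F.card : ℝ) * x⁻¹ ≤ x * (Fintype.card V : ℝ) * x⁻¹ :=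
    mul_le_mul_of_nonneg_right hFx (inv_pos.2 hx0).le
  have h5 : x * (Fintype.card V : ℝ) * x⁻¹ = (Fintype.card V : ℝ) := by
    field_simp
  have h6 : (k : ℝ) * r * (Fintype.card V : ℝ) ≤ Real.log x * (Fintype.card V : ℝ) :=
    mul_le_mul_of_nonneg_right hkr (Nat.cast_nonneg _)
  calc (k : ℝ) * (tau F : ℝ) ≤ k * ((Fintype.card V : ℝ) * r + (F.card : ℝ) * x⁻¹) := h3
    _ = (k : ℝ) * r * (Fintype.card V : ℝ) + (k : ℝ) * (F.card : ℝ) * x⁻¹ := by ring
    _ ≤ Real.log x * (Fintype.card V : ℝ) + (Fintype.card V : ℝ) := by linarith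
    _ = (Real.log x + 1) * (Fintype.card V : ℝ) := by ring

omit [DecidableEq V] in
private theorem Rate_empty {k : ℕ} {F : Finset (Finset V)} (hF : Unif k F)
    (hV : Fintype.card V = 0) : (k : ℝ) * (F.card : ℝ) = 0 := by
  rcases F.eq_empty_or_nonempty with h | ⟨e, he⟩
  · rw [h, card_empty, Nat.cast_zero, mul_zero]
  · have h1 : k = 0 := by
      have h2 := hF e he
      have h3 : e.card ≤ Fintype.card V := card_le_univ e
      omega
    rw [h1, Nat.cast_zero, zero_mul]

/-- tangent line -/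
theorem Lin_of_Sb {k : ℕ} {C D d : ℝ} (hD : 1 ≤ D) (h : Sb V k C D) (hd : Real.exp 1 * D ≤ d) :
    Lin V k C d := by
  intro F hF
  have hD0 : 0 < D := lt_of_lt_of_le one_pos hD
  have hd0 : 0 < d := lt_of_lt_of_le (mul_pos (Real.exp_pos 1) hD0) hd
  have hkF : 0 ≤ (k : ℝ) * (F.card : ℝ) := mul_nonneg (Nat.cast_nonneg _) (Nat.cast_nonneg _)
  have hkFd : 0 ≤ (k : ℝ) * (F.card : ℝ) / d := div_nonneg hkF hd0.le
  by_cases hV : Fintype.card V = 0
  · have h1 := h D le_rfl F hF (by rw [Rate_empty hF hV, hV, Nat.cast_zero, mul_zero])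
    rw [hV, Nat.cast_zero, mul_zero] at h1
    rw [hV, Nat.cast_zero, mul_zero]
    linarith
  have hn : (0 : ℝ) < Fintype.card V := Nat.cast_pos.2 (Nat.pos_of_ne_zero hV)
  by_cases hy : D ≤ (k : ℝ) * (F.card : ℝ) / (Fintype.card V : ℝ)
  · set y := (k : ℝ) * (F.card : ℝ) / (Fintype.card V : ℝ) with hyd
    have hy0 : 0 < y := lt_of_lt_of_le hD0 hy
    have hyn : y * (Fintype.card V : ℝ) = (k : ℝ) * (F.card : ℝ) := by
      rw [hyd]
      field_simp
    have h1 := h y hy F hF hyn.symm.le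
    have h2 : Real.log y ≤ Real.log d + y / d - 1 := by
      have h3 := Real.log_le_sub_one_of_pos (div_pos hy0 hd0)
      rw [Real.log_div hy0.ne' hd0.ne'] at h3
      linarith
    have h3 : (Real.log y + C) * (Fintype.card V : ℝ) ≤
        (Real.log d + y / d - 1 + C) * (Fintype.card V : ℝ) :=
      mul_le_mul_of_nonneg_right (by linarith) hn.le
    have h4 : (Real.log d + y / d - 1 + C) * (Fintype.card V : ℝ) =
        (Real.log d + C - 1) * (Fintype.card V : ℝ) + (k : ℝ) * (F.card : ℝ) / d := by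
      rw [← hyn]
      ring
    linarith
  · rw [not_le, div_lt_iff₀ hn] at hy
    have h1 := h D le_rfl F hF hy.le
    have h2 : Real.log D + 1 ≤ Real.log d := by
      have h3 := Real.log_le_log (mul_pos (Real.exp_pos 1) hD0) hd
      rw [Real.log_mul (Real.exp_pos 1).ne' hD0.ne', Real.log_exp] at h3
      linarith
    have h3 : (Real.log D + C) * (Fintype.card V : ℝ) ≤
        (Real.log d + C - 1) * (Fintype.card V : ℝ) :=
      mul_le_mul_of_nonneg_right (by linarith) hn.le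
    linarith

theorem Sb_mono {k : ℕ} {C C' D D' : ℝ} (hC : C ≤ C') (hD : D ≤ D') (h : Sb V k C D) :
    Sb V k C' D' := by
  intro x hx F hF hFx
  have h1 := h x (hD.trans hx) F hF hFx
  have h2 : (Real.log x + C) * (Fintype.card V : ℝ) ≤ (Real.log x + C') * (Fintype.card V : ℝ) :=
    mul_le_mul_of_nonneg_right (by linarith) (Nat.cast_nonneg _)
  exact h1.trans h2

end Pool.Agent.DCX
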