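import Pool.Agent.DCX.CoverCore
import Pool.Agent.DCX.DegRed
import Pool.Agent.DCX.Rate

/-!
The cover lemma for an arbitrary uniform family: the vertices of degree at least `d` are removed
greedily (cost `|F| / d`), then `cover_core` is applied to the rest, for suitable `θ` and `k₀`.
-/

namespace Pool.Agent.DCX

open Finset

variable {V : Type} [Fintype V] [DecidableEq V]

private theorem CoverFull_half {k n : ℕ} (hk : 1 ≤ k) {r y L : ℝ} (hr : r < 1)
    (hrk : (1 - r) ^ k = Real.exp (-y)) (hyL : y * (n : ℝ) ≤ L) (hL : L ≤ (k : ℝ) / 2) :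
    1 / 2 ≤ (1 - r) ^ n := by
  have h0 : (0 : ℝ) ≤ (1 - r) ^ n := pow_nonneg (by linarith) n
  have hk0 : k ≠ 0 := by omega
  rw [← pow_le_pow_iff_left₀ (by norm_num) h0 hk0, ← pow_mul, mul_comm n k, pow_mul, hrk,
    ← Real.exp_nat_mul]
  have h1 : ((1 : ℝ) / 2) ^ k = Real.exp (-((k : ℝ) * Real.log 2)) := by
    rw [Real.exp_neg, Real.exp_nat_mul, Real.exp_log (by norm_num), one_div, inv_pow]
  rw [h1]
  apply Real.exp_le_exp.2
  have h2 := Real.log_two_gt_d9
  have hk1 : (0 : ℝ) ≤ (k : ℝ) := Nat.cast_nonneg k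
  nlinarith [mul_nonneg hk1 (by linarith : (0 : ℝ) ≤ Real.log 2 - 1 / 2)]

private theorem CoverFull_step {V : Type} [Fintype V] [DecidableEq V] {F : Finset (Finset V)}
    {k t j : ℕ} {M d κ r : ℝ} (hd0 : 0 < d) {S : Finset V}
    (hS : (S.card : ℝ) * d ≤ (F.card : ℝ)) (h : Hyp V (res F S) k t j M d κ r) :
    (k : ℝ) * (tau F : ℝ) ≤
      (Real.log d - M + 2) * (Fintype.card V : ℝ) + 8 * Real.exp M * Nb F t (κ * d) / d
        + 3 * ((k : ℝ) * (F.card : ℝ)) / d := by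
  have hk0 : (0 : ℝ) ≤ (k : ℝ) := Nat.cast_nonneg k
  have hsub : res F S ⊆ F := Finset.filter_subset _ _
  have h1 : (tau F : ℝ) ≤ (S.card : ℝ) + (tau (res F S) : ℝ) := by exact_mod_cast tau_step F S
  have h2 := cover_core h
  have h3 : (S.card : ℝ) ≤ (F.card : ℝ) / d := (le_div_iff₀ hd0).2 hS
  have h4 : ((res F S).card : ℝ) ≤ (F.card : ℝ) := by
    exact_mod_cast Finset.card_le_card hsub
  have h5 := Nb_mono hsub t (κ * d)
  have h6 : 8 * Real.exp M * Nb (res F S) t (κ * d) / d ≤ 8 * Real.exp M * Nb F t (κ * d) / d := by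
    apply div_le_div_of_nonneg_right _ hd0.le
    exact mul_le_mul_of_nonneg_left h5 (by positivity)
  have h7 : 2 * ((k : ℝ) * ((res F S).card : ℝ)) / d ≤ 2 * ((k : ℝ) * (F.card : ℝ)) / d := by
    apply div_le_div_of_nonneg_right _ hd0.le
    exact mul_le_mul_of_nonneg_left (mul_le_mul_of_nonneg_left h4 hk0) (by norm_num)
  have h8 : (k : ℝ) * (tau F : ℝ) ≤ (k : ℝ) * ((F.card : ℝ) / d) + (k : ℝ) * (tau (res F S) : ℝ) := by
    rw [← mul_add]
    exact mul_le_mul_of_nonneg_left (h1.trans (by linarith)) hk0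
  have h9 : (k : ℝ) * ((F.card : ℝ) / d) + 2 * ((k : ℝ) * (F.card : ℝ)) / d =
      3 * ((k : ℝ) * (F.card : ℝ)) / d := by ring
  linarith

theorem cover_full {M d κ : ℝ} {j : ℕ} (hM : 1 ≤ M) (hd : Real.exp M ≤ d)
    (hj : 4 * M * Real.exp M ≤ (j : ℝ) + 1) (hκ0 : 0 < κ)
    (hκ : κ * (128 * ((j : ℝ) + 1)) ≤ Real.exp (-M)) :
    ∃ θ : ℝ, 0 < θ ∧ ∃ k₀ : ℕ, ∀ k : ℕ, k₀ ≤ k → ∀ t : ℕ, (t : ℝ) ≤ θ * (k : ℝ) →
      ∀ (V : Type) [Fintype V] [DecidableEq V] (F : Finset (Finset V)), Unif k F →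
      (k : ℝ) * (tau F : ℝ) ≤
        (Real.log d - M + 2) * (Fintype.card V : ℝ) + 8 * Real.exp M * Nb F t (κ * d) / d
          + 3 * ((k : ℝ) * (F.card : ℝ)) / d := by
  have hd0 : 0 < d := (Real.exp_pos M).trans_le hd
  have hlog : M ≤ Real.log d := (Real.le_log_iff_exp_le hd0).2 hd
  have hl1 : 1 ≤ Real.log d := hM.trans hlog
  set A : ℝ := 128 * Real.log d * Real.exp (2 * d * Real.log d) * d ^ 2 * Real.exp M with hA
  have hA0 : 0 < A := by positivity
  set W : ℝ := A + 4 * ((j : ℝ) + 1) * Real.log d + 2 with hW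
  have hj0 : (0 : ℝ) ≤ (j : ℝ) := Nat.cast_nonneg j
  have hjl : 0 ≤ ((j : ℝ) + 1) * Real.log d := by positivity
  have hW0 : 0 < W := by nlinarith
  set q : ℝ := (Real.exp M / d) ^ j with hq
  have hq0 : 0 < q := by positivity
  refine ⟨1 / W, by positivity, ⌈4 * Real.log d + 2 * M / q + 1⌉₊, ?_⟩
  intro k hk t ht V _ _ F hF
  have hk' : 4 * Real.log d + 2 * M / q + 1 ≤ (k : ℝ) := (Nat.ceil_le.1 hk)
  have hMq : 0 ≤ 2 * M / q := by positivity
  have hk1' : (1 : ℝ) ≤ (k : ℝ) := by linarith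
  have hk1 : 1 ≤ k := by exact_mod_cast hk1'
  have hk0 : (0 : ℝ) < (k : ℝ) := by linarith
  have ht' : (t : ℝ) * W ≤ (k : ℝ) := by
    have : (t : ℝ) ≤ (k : ℝ) / W := by rw [div_eq_inv_mul, ← one_div]; exact ht
    exact (le_div_iff₀ hW0).1 this
  have ht0 : (0 : ℝ) ≤ (t : ℝ) := Nat.cast_nonneg t
  have htA : (t : ℝ) * A ≤ (k : ℝ) := by
    refine le_trans (mul_le_mul_of_nonneg_left ?_ ht0) ht'
    nlinarith
  have htj : (t : ℝ) * (4 * ((j : ℝ) + 1) * Real.log d) ≤ (k : ℝ) := by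
    refine le_trans (mul_le_mul_of_nonneg_left ?_ ht0) ht'
    linarith
  have ht2 : (t : ℝ) * 2 ≤ (k : ℝ) := by
    refine le_trans (mul_le_mul_of_nonneg_left ?_ ht0) ht'
    nlinarith
  obtain ⟨S, hS1, hS2⟩ := deg_red F hd0
  have hy0 : 0 < Real.exp M / d := by positivity
  have hy1 : Real.exp M / d ≤ 1 := (div_le_one hd0).2 hd
  obtain ⟨r, hr0, hr1, hrk, hkr⟩ := exists_rate hk1 hy0 hy1
  have hlogy : Real.log (Real.exp M / d) = M - Real.log d := by
    rw [Real.log_div (Real.exp_pos M).ne' hd0.ne', Real.log_exp]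
  refine CoverFull_step hd0 hS1
    { hk := hk1
      unif := res_unif hF S
      hdeg := fun v => (hS2 v).le
      hM := hM
      hd := hd
      hr0 := hr0
      hr1 := hr1
      hrk := hrk
      hkr := by rw [hlogy] at hkr; linarith
      hj := hj
      hκ0 := hκ0
      hκ := hκ
      htk := by
        have : (t : ℝ) < (k : ℝ) := by
          rcases ht0.eq_or_lt with h | h
          · rw [← h]; exact hk0
          · linarith
        exact_mod_cast this
      hhalf := ?_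
      hx := ?_
      hvar := by
        calc 128 * Real.log d * Real.exp (2 * d * Real.log d) * d ^ 2 * Real.exp M * (t : ℝ)
            = (t : ℝ) * A := by rw [hA]; ring
          _ ≤ (k : ℝ) := htA }
  · refine CoverFull_half (y := Real.log d - M) (L := (k : ℝ) / 2) hk1 hr1 ?_ ?_ le_rfl
    · rw [hrk, ← Real.exp_log hy0, hlogy]
      congr 1
      ring
    · push_cast
      have h1 : 0 ≤ Real.log d - M := by linarith
      have h2 : (0 : ℝ) ≤ (j : ℝ) * (t : ℝ) + 1 := by positivity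
      have h3 : (Real.log d - M) * ((j : ℝ) * (t : ℝ) + 1) ≤
          Real.log d * ((j : ℝ) * (t : ℝ) + 1) := mul_le_mul_of_nonneg_right (by linarith) h2
      have h4 : Real.log d * ((j : ℝ) * (t : ℝ)) ≤ (k : ℝ) / 4 := by
        have h5 : 0 ≤ (t : ℝ) * Real.log d := by positivity
        nlinarith
      nlinarith
  · have h1 : 2 * M / q ≤ (k : ℝ) := by linarith
    exact (div_le_iff₀ hq0).1 h1

end Pool.Agent.DCX
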