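import Mathlib

/-!
Project DCX (helper31), problem MP_a4d830_co.

THEOREM T. For every `A0` there are `k0`, `alpha0` such that for all `k ≥ k0`, `m ≥ alpha0 k`:
`1 - π(K_m^k) ≥ A0 / C(m-1,k-1)` (de Caen 1983 has `A0 = 1`).

CORE (Theorem H). For every `K` there are `D`, `k0` such that for `k ≥ k0`, `x ≥ D` every `k`-uniform
family `F` on `n` points with `k |F| ≤ x n` has a vertex cover of size `≤ (n/k)(log x - K)`.

This file: all definitions.
-/

namespace Pool.Agent.DCX

open Finset

/-- indicator of a proposition, as a real number -/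
noncomputable def ind (P : Prop) : ℝ := open Classical in if P then 1 else 0

theorem ind_true {P : Prop} (h : P) : ind P = 1 := by unfold ind; simp [h]

theorem ind_false {P : Prop} (h : ¬ P) : ind P = 0 := by unfold ind; simp [h]

theorem ind_nonneg (P : Prop) : 0 ≤ ind P := by
  by_cases h : P
  · rw [ind_true h]; norm_num
  · rw [ind_false h]

theorem ind_le_one (P : Prop) : ind P ≤ 1 := by
  by_cases h : P
  · rw [ind_true h]
  · rw [ind_false h]; norm_num

theorem ind_mono {P Q : Prop} (h : P → Q) : ind P ≤ ind Q := by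
  by_cases hP : P
  · rw [ind_true hP, ind_true (h hP)]
  · rw [ind_false hP]; exact ind_nonneg Q

theorem ind_congr {P Q : Prop} (h : P ↔ Q) : ind P = ind Q :=
  le_antisymm (ind_mono h.1) (ind_mono h.2)

theorem ind_and (P Q : Prop) : ind (P ∧ Q) = ind P * ind Q := by
  by_cases hP : P
  · by_cases hQ : Q
    · rw [ind_true hP, ind_true hQ, ind_true ⟨hP, hQ⟩]; norm_num
    · rw [ind_false hQ, ind_false (fun h => hQ h.2)]; norm_num
  · rw [ind_false hP, ind_false (fun h => hP h.1)]; norm_num

variable {V : Type} [Fintype V] [DecidableEq V]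

/-- Expectation of `f S` where `S ⊆ U` contains each `v ∈ U` independently with probability `p v`. -/
noncomputable def Ex (U : Finset V) (p : V → ℝ) (f : Finset V → ℝ) : ℝ :=
  ∑ S ∈ U.powerset, ((∏ v ∈ S, p v) * ∏ v ∈ U \ S, (1 - p v)) * f S

/-- Expectation over a random subset of the whole vertex set, constant probability `r`. -/
noncomputable def EE (r : ℝ) (f : Finset V → ℝ) : ℝ := Ex (univ : Finset V) (fun _ => r) f

/-- Probability of the event `Q S` under the same law. -/
noncomputable def PP (r : ℝ) (Q : Finset V → Prop) : ℝ := EE r (fun S => ind (Q S))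

/-- the members of `F` which avoid `S` -/
def res (F : Finset (Finset V)) (S : Finset V) : Finset (Finset V) :=
  F.filter (fun e => Disjoint e S)

/-- covering cost: the minimum over `S` of `|S|` plus the number of members of `F` missed by `S` -/
def tau (F : Finset (Finset V)) : ℕ :=
  (univ : Finset (Finset V)).inf' ⟨∅, mem_univ _⟩ (fun S => S.card + (res F S).card)

/-- degree -/
def deg (F : Finset (Finset V)) (v : V) : ℕ := (F.filter (fun e => v ∈ e)).card

/-- upper mass of the degrees: sum of the degrees which are at least `y` -/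
noncomputable def um (F : Finset (Finset V)) (y : ℝ) : ℝ :=
  ∑ v : V, (deg F v : ℝ) * ind (y ≤ (deg F v : ℝ))

/-- members of `F` through `v` which meet `e` in more than `t` points -/
def near (F : Finset (Finset V)) (t : ℕ) (v : V) (e : Finset V) : Finset (Finset V) :=
  F.filter (fun g => v ∈ g ∧ t < (g ∩ e).card)

/-- number of incidences `v ∈ e ∈ F` with more than `c` near edges -/
noncomputable def Nb (F : Finset (Finset V)) (t : ℕ) (c : ℝ) : ℝ :=
  ∑ v : V, ∑ e ∈ F.filter (fun e => v ∈ e), ind (c < ((near F t v e).card : ℝ))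

/-- members of `T` which meet `e` in at most `t` points -/
def far (T : Finset (Finset V)) (t : ℕ) (e : Finset V) : Finset (Finset V) :=
  T.filter (fun g => (g ∩ e).card ≤ t)

/-- among the members `g` of `T` with `g \ {v}` disjoint from `S` there are `j` which pairwise meet
in at most `t` points -/
def Has (T : Finset (Finset V)) (v : V) (t j : ℕ) (S : Finset V) : Prop :=
  ∃ A ⊆ T, A.card = j ∧ (∀ g ∈ A, ∀ g' ∈ A, g ≠ g' → (g ∩ g').card ≤ t) ∧
    ∀ g ∈ A, Disjoint (g.erase v) S

/-- union of the sets `g \ e`, `g ∈ G` -/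
def supp (G : Finset (Finset V)) (e : Finset V) : Finset V := G.biUnion (fun g => g \ e)

/-- `F` is `k`-uniform -/
def Unif (k : ℕ) (F : Finset (Finset V)) : Prop := ∀ e ∈ F, e.card = k

/-- the linear (tangent line) bound at `d` -/
def Lin (V : Type) [Fintype V] [DecidableEq V] (k : ℕ) (C d : ℝ) : Prop :=
  ∀ F : Finset (Finset V), Unif k F →
    (k : ℝ) * (tau F : ℝ) ≤
      (Real.log d + C - 1) * (Fintype.card V : ℝ) + (k : ℝ) * (F.card : ℝ) / d

/-- the bound `log x + C` for all `x ≥ D` -/
def Sb (V : Type) [Fintype V] [DecidableEq V] (k : ℕ) (C D : ℝ) : Prop :=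
  ∀ x : ℝ, D ≤ x → ∀ F : Finset (Finset V), Unif k F →
    (k : ℝ) * (F.card : ℝ) ≤ x * (Fintype.card V : ℝ) →
    (k : ℝ) * (tau F : ℝ) ≤ (Real.log x + C) * (Fintype.card V : ℝ)

/-- edges through `v` in `F` with at most `c` near edges -/
noncomputable def TT (F : Finset (Finset V)) (t : ℕ) (c : ℝ) (v : V) : Finset (Finset V) :=
  open Classical in F.filter (fun e => v ∈ e ∧ ((near F t v e).card : ℝ) ≤ c)

/-- `a_v = P(Has (T v) v t j)` -/
noncomputable def aa (F : Finset (Finset V)) (t : ℕ) (c : ℝ) (r : ℝ) (j : ℕ) (v : V) : ℝ :=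
  PP r (Has (TT F t c v) v t j)

/-- usable vertices: `|T v| ≥ b` -/
def Usable (F : Finset (Finset V)) (t : ℕ) (c b : ℝ) (v : V) : Prop :=
  b ≤ ((TT F t c v).card : ℝ)

/-- good incidence: `v ∈ e`, `v` usable, `e ∈ T v`, and the far part of `T v` still has a `j`-family
with probability at least `7/8` of `a_v` -/
def Good (F : Finset (Finset V)) (t : ℕ) (c b r : ℝ) (j : ℕ) (v : V) (e : Finset V) : Prop :=
  v ∈ e ∧ Usable F t c b v ∧ e ∈ TT F t c v ∧
    7 / 8 * aa F t c r j v ≤ PP r (Has (far (TT F t c v) t e) v t j)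

/-- the good vertices of `e` -/
noncomputable def goodSet (F : Finset (Finset V)) (t : ℕ) (c b r : ℝ) (j : ℕ) (e : Finset V) :
    Finset V :=
  open Classical in e.filter (fun v => Good F t c b r j v e)

/-- fine edges: at least `7/8` of the vertices of `e` are good -/
def Fine (F : Finset (Finset V)) (t : ℕ) (c b r : ℝ) (j k : ℕ) (e : Finset V) : Prop :=
  7 / 8 * (k : ℝ) ≤ ((goodSet F t c b r j e).card : ℝ)

/-- selection probability of `v` in the cover lemma -/
noncomputable def xx (F : Finset (Finset V)) (t : ℕ) (c b r M : ℝ) (j k : ℕ) (v : V) : ℝ :=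
  open Classical in if Usable F t c b v then 2 * M / ((k : ℝ) * aa F t c r j v) else 0

/-- hypotheses of the cover lemma (`h = j + 1`, `c = κ d`, `b = exp (-M) d / 16`) -/
structure Hyp (V : Type) [Fintype V] [DecidableEq V] (F : Finset (Finset V)) (k t j : ℕ)
    (M d κ r : ℝ) : Prop where
  hk : 1 ≤ k
  unif : Unif k F
  hdeg : ∀ v : V, (deg F v : ℝ) ≤ d
  hM : 1 ≤ M
  hd : Real.exp M ≤ d
  hr0 : 0 ≤ r
  hr1 : r < 1
  hrk : (1 - r) ^ k = Real.exp M / d
  hkr : (k : ℝ) * r ≤ Real.log d - M
  hj : 4 * M * Real.exp M ≤ (j : ℝ) + 1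
  hκ0 : 0 < κ
  hκ : κ * (128 * ((j : ℝ) + 1)) ≤ Real.exp (-M)
  htk : t < k
  hhalf : 1 / 2 ≤ (1 - r) ^ (j * t + 1)
  hx : 2 * M ≤ (k : ℝ) * (Real.exp M / d) ^ j
  hvar : 128 * Real.log d * Real.exp (2 * d * Real.log d) * d ^ 2 * Real.exp M * (t : ℝ) ≤ (k : ℝ)

end Pool.Agent.DCX
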