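import Pool.Agent.DCX.Defs

namespace Pool.Agent.DCX

open Finset

variable {V : Type} [Fintype V] [DecidableEq V]

theorem Ex_empty (p : V → ℝ) (f : Finset V → ℝ) : Ex (∅ : Finset V) p f = f ∅ := by
  simp [Ex]

theorem Ex_insert {U : Finset V} {a : V} (ha : a ∉ U) (p : V → ℝ) (f : Finset V → ℝ) :
    Ex (insert a U) p f = p a * Ex U p (fun S => f (insert a S)) + (1 - p a) * Ex U p f := by
  unfold Ex
  rw [sum_powerset_insert ha, mul_sum, mul_sum, add_comm]
  congr 1
  · apply sum_congr rfl
    intro S hS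
    rw [mem_powerset] at hS
    have haS : a ∉ S := fun h => ha (hS h)
    rw [prod_insert haS]
    have : insert a U \ insert a S = U \ S := by
      ext x; simp only [mem_sdiff, mem_insert]
      constructor
      · rintro ⟨h1 | h1, h2⟩
        · exact absurd (Or.inl h1) h2
        · exact ⟨h1, fun h => h2 (Or.inr h)⟩
      · rintro ⟨h1, h2⟩
        refine ⟨Or.inr h1, ?_⟩
        rintro (h | h)
        · exact ha (h ▸ h1)
        · exact h2 h
    rw [this]; ring
  · apply sum_congr rfl
    intro S hS
    rw [mem_powerset] at hS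
    have haS : a ∉ S := fun h => ha (hS h)
    have : insert a U \ S = insert a (U \ S) := by
      rw [insert_sdiff_of_notMem _ haS]
    rw [this, prod_insert (by simp [ha])]; ring

theorem Ex_const (U : Finset V) (p : V → ℝ) (c : ℝ) : Ex U p (fun _ => c) = c := by
  induction U using Finset.induction_on with
  | empty => rw [Ex_empty]
  | insert a U ha ih => rw [Ex_insert ha, ih]; ring

theorem Ex_add (U : Finset V) (p : V → ℝ) (f g : Finset V → ℝ) :
    Ex U p (fun S => f S + g S) = Ex U p f + Ex U p g := by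
  unfold Ex; rw [← sum_add_distrib]; apply sum_congr rfl; intro S _; ring

theorem Ex_sub (U : Finset V) (p : V → ℝ) (f g : Finset V → ℝ) :
    Ex U p (fun S => f S - g S) = Ex U p f - Ex U p g := by
  unfold Ex; rw [← sum_sub_distrib]; apply sum_congr rfl; intro S _; ring

theorem Ex_mul_left (U : Finset V) (p : V → ℝ) (c : ℝ) (f : Finset V → ℝ) :
    Ex U p (fun S => c * f S) = c * Ex U p f := by
  unfold Ex; rw [mul_sum]; apply sum_congr rfl; intro S _; ring

theorem Ex_sum {ι : Type*} (s : Finset ι) (U : Finset V) (p : V → ℝ) (f : ι → Finset V → ℝ) :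
    Ex U p (fun S => ∑ i ∈ s, f i S) = ∑ i ∈ s, Ex U p (f i) := by
  unfold Ex
  rw [sum_comm]
  apply sum_congr rfl; intro S _; rw [mul_sum]

theorem Ex_congr {U : Finset V} {p : V → ℝ} {f g : Finset V → ℝ} (h : ∀ S ⊆ U, f S = g S) :
    Ex U p f = Ex U p g := by
  unfold Ex; apply sum_congr rfl; intro S hS; rw [h S (mem_powerset.1 hS)]

theorem Ex_mono {U : Finset V} {p : V → ℝ} (h0 : ∀ v ∈ U, 0 ≤ p v) (h1 : ∀ v ∈ U, p v ≤ 1)
    {f g : Finset V → ℝ} (h : ∀ S ⊆ U, f S ≤ g S) : Ex U p f ≤ Ex U p g := by
  unfold Ex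
  apply sum_le_sum
  intro S hS
  rw [mem_powerset] at hS
  apply mul_le_mul_of_nonneg_left (h S hS)
  apply mul_nonneg
  · exact prod_nonneg (fun v hv => h0 v (hS hv))
  · exact prod_nonneg (fun v hv => by
      have := h1 v (mem_sdiff.1 hv).1; linarith)

theorem Ex_nonneg {U : Finset V} {p : V → ℝ} (h0 : ∀ v ∈ U, 0 ≤ p v) (h1 : ∀ v ∈ U, p v ≤ 1)
    {f : Finset V → ℝ} (h : ∀ S ⊆ U, 0 ≤ f S) : 0 ≤ Ex U p f := by
  have := Ex_mono h0 h1 (f := fun _ => 0) (g := f) h
  rwa [Ex_const] at this

/-- some outcome is at most the expectation -/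
theorem exists_le_Ex {U : Finset V} {p : V → ℝ} (h0 : ∀ v ∈ U, 0 ≤ p v) (h1 : ∀ v ∈ U, p v ≤ 1)
    (f : Finset V → ℝ) : ∃ S ⊆ U, f S ≤ Ex U p f := by
  by_contra hcon
  push Not at hcon
  obtain ⟨S0, hS0, hmin⟩ := exists_min_image U.powerset f ⟨∅, by simp⟩
  rw [mem_powerset] at hS0
  have h2 : f S0 ≤ Ex U p f := by
    have := Ex_mono h0 h1 (f := fun _ => f S0) (g := f)
      (fun S hS => hmin S (mem_powerset.2 hS))
    rwa [Ex_const] at this
  exact absurd h2 (not_le.2 (hcon S0 hS0))

/-- independence: split the ground set -/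
theorem Ex_union {A B : Finset V} (hAB : Disjoint A B) (p : V → ℝ) (f : Finset V → ℝ) :
    Ex (A ∪ B) p f = Ex A p (fun S => Ex B p (fun R => f (S ∪ R))) := by
  induction A using Finset.induction_on generalizing f with
  | empty => rw [Ex_empty, empty_union]; simp
  | insert a A ha ih =>
    have hd : Disjoint A B := disjoint_of_subset_left (subset_insert a A) hAB
    have haB : a ∉ B := by
      have := disjoint_left.1 hAB (mem_insert_self a A); exact this
    have haAB : a ∉ A ∪ B := by simp [ha, haB]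
    rw [insert_union, Ex_insert haAB, Ex_insert ha, ih hd, ih hd]
    simp only [insert_union]

/-- expected size -/
theorem Ex_card (U : Finset V) (p : V → ℝ) :
    Ex U p (fun S => (S.card : ℝ)) = ∑ v ∈ U, p v := by
  induction U using Finset.induction_on with
  | empty => rw [Ex_empty]; simp
  | insert a U ha ih =>
    rw [Ex_insert ha, ih, sum_insert ha]
    have : Ex U p (fun S => ((insert a S).card : ℝ)) = Ex U p (fun S => (S.card : ℝ) + 1) := by
      apply Ex_congr
      intro S hS
      rw [card_insert_of_notMem (fun h => ha (hS h))]; push_cast; ring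
    rw [this, Ex_add, Ex_const, ih]; ring

theorem Ex_ind_empty (A : Finset V) (p : V → ℝ) (g : Finset V → ℝ) :
    Ex A p (fun R => ind (Disjoint A R) * g R) = (∏ v ∈ A, (1 - p v)) * g ∅ := by
  unfold Ex
  rw [sum_eq_single (∅ : Finset V)]
  · simp only []; rw [ind_true (disjoint_empty_right A)]; simp
  · intro R hR hne
    rw [mem_powerset] at hR
    have : ¬ Disjoint A R := by
      intro hd
      apply hne
      have h2 : Disjoint R R := disjoint_of_subset_left hR hd
      exact (disjoint_self_iff_empty R).1 h2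
    simp only []; rw [ind_false this]; ring
  · intro h; exact absurd (empty_mem_powerset A) h

/-- the event that the random set avoids `A` -/
theorem Ex_disj {U A : Finset V} (hA : A ⊆ U) (p : V → ℝ) (f : Finset V → ℝ) :
    Ex U p (fun S => ind (Disjoint A S) * f S) =
      (∏ v ∈ A, (1 - p v)) * Ex U p (fun S => f (S \ A)) := by
  have hU : (U \ A) ∪ A = U := sdiff_union_of_subset hA
  have hd : Disjoint (U \ A) A := sdiff_disjoint
  have h1 : Ex U p (fun S => ind (Disjoint A S) * f S) =
      Ex (U \ A) p (fun S => (∏ v ∈ A, (1 - p v)) * f S) := by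
    conv_lhs => rw [← hU, Ex_union hd]
    apply Ex_congr
    intro S hS
    have hAS : Disjoint A S := disjoint_of_subset_right hS hd.symm
    have : Ex A p (fun R => ind (Disjoint A (S ∪ R)) * f (S ∪ R)) =
        Ex A p (fun R => ind (Disjoint A R) * (fun R => f (S ∪ R)) R) := by
      apply Ex_congr
      intro R hR
      rw [ind_congr (P := Disjoint A (S ∪ R)) (Q := Disjoint A R)
        (by rw [disjoint_union_right]; exact ⟨fun h => h.2, fun h => ⟨hAS, h⟩⟩)]
    rw [this, Ex_ind_empty, union_empty]
  have h2 : Ex U p (fun S => f (S \ A)) = Ex (U \ A) p f := by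
    conv_lhs => rw [← hU, Ex_union hd]
    apply Ex_congr
    intro S hS
    have hAS : Disjoint S A := disjoint_of_subset_left hS hd
    have : Ex A p (fun R => f ((S ∪ R) \ A)) = Ex A p (fun _ => f S) := by
      apply Ex_congr
      intro R hR
      rw [union_sdiff_distrib, sdiff_eq_self_of_disjoint hAS, sdiff_eq_empty_iff_subset.2 hR,
        union_empty]
    rw [this, Ex_const]
  rw [h1, h2, Ex_mul_left]

end Pool.Agent.DCX
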