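import Pool.Agent.DCX.ExBasic

/-!
TUR-ExDisj. Consequences of `Ex_disj` and `Ex_union` for the constant probability `r`: monotonicity, the
coupling lemma `couple` and the covariance bound `cov_dec` for decreasing events.
-/

namespace Pool.Agent.DCX

open Finset

variable {V : Type} [Fintype V] [DecidableEq V]

theorem EE_mono {r : ℝ} (h0 : 0 ≤ r) (h1 : r ≤ 1) {f g : Finset V → ℝ} (h : ∀ S, f S ≤ g S) :
    EE r f ≤ EE r g :=
  Ex_mono (fun _ _ => h0) (fun _ _ => h1) fun S _ => h S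

theorem EE_const (r c : ℝ) : EE r (fun _ : Finset V => c) = c := Ex_const _ _ _

theorem PP_nonneg {r : ℝ} (h0 : 0 ≤ r) (h1 : r ≤ 1) (Q : Finset V → Prop) : 0 ≤ PP r Q :=
  Ex_nonneg (fun _ _ => h0) (fun _ _ => h1) fun S _ => ind_nonneg (Q S)

theorem PP_le_one {r : ℝ} (h0 : 0 ≤ r) (h1 : r ≤ 1) (Q : Finset V → Prop) : PP r Q ≤ 1 := by
  have h := EE_mono h0 h1 (f := fun S => ind (Q S)) (g := fun _ => 1) fun S => ind_le_one (Q S)
  rwa [EE_const] at h

theorem PP_mono {r : ℝ} (h0 : 0 ≤ r) (h1 : r ≤ 1) {Q Q' : Finset V → Prop} (h : ∀ S, Q S → Q' S) :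
    PP r Q ≤ PP r Q' :=
  EE_mono h0 h1 fun S => ind_mono (h S)

theorem EE_disj (r : ℝ) (A : Finset V) (f : Finset V → ℝ) :
    EE r (fun S => ind (Disjoint A S) * f S) = (1 - r) ^ A.card * EE r (fun S => f (S \ A)) := by
  unfold EE
  rw [Ex_disj (subset_univ A), prod_const]

theorem PP_disj (r : ℝ) (A : Finset V) : PP r (fun S => Disjoint A S) = (1 - r) ^ A.card := by
  have h := EE_disj r A (fun _ => (1 : ℝ))
  rw [EE_const, mul_one] at h
  rw [← h]
  unfold PP
  congr 1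
  funext S
  rw [mul_one]

/-- the expectation over the samples of the complement of `A` -/
private theorem ExDisj_split (r : ℝ) (A : Finset V) (f : Finset V → ℝ) :
    EE r f = Ex (univ \ A) (fun _ => r) (fun S => Ex A (fun _ => r) (fun R => f (S ∪ R))) := by
  unfold EE
  rw [← Ex_union sdiff_disjoint, sdiff_union_of_subset (subset_univ A)]

private theorem ExDisj_sdiff (r : ℝ) (A : Finset V) (f : Finset V → ℝ) :
    EE r (fun S => f (S \ A)) = Ex (univ \ A) (fun _ => r) f := by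
  rw [ExDisj_split r A]
  apply Ex_congr
  intro S hS
  have hAS : Disjoint S A := disjoint_of_subset_left hS sdiff_disjoint
  have : Ex A (fun _ => r) (fun R => f ((S ∪ R) \ A)) = Ex A (fun _ => r) (fun _ => f S) := by
    apply Ex_congr
    intro R hR
    rw [union_sdiff_distrib, sdiff_eq_self_of_disjoint hAS, sdiff_eq_empty_iff_subset.2 hR,
      union_empty]
  rw [this, Ex_const]

/-- coupling lemma -/
theorem couple {r : ℝ} (h0 : 0 ≤ r) (h1 : r ≤ 1) (A : Finset V) (m : ℕ) (Q Q' : Finset V → Prop)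
    (h : ∀ S, Disjoint S A → Q S →
      ∃ B ⊆ A, B.card ≤ m ∧ ∀ R ⊆ A, Disjoint B R → Q' (S ∪ R)) :
    (1 - r) ^ m * PP r (fun S => Q (S \ A)) ≤ PP r Q' := by
  have e1 : PP r (fun S => Q (S \ A)) = Ex (univ \ A) (fun _ => r) (fun S => ind (Q S)) :=
    ExDisj_sdiff r A (fun S => ind (Q S))
  have e2 : PP r Q' = Ex (univ \ A) (fun _ => r)
      (fun S => Ex A (fun _ => r) (fun R => ind (Q' (S ∪ R)))) :=
    ExDisj_split r A (fun S => ind (Q' S))
  rw [e1, e2, ← Ex_mul_left]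
  have hr : 0 ≤ 1 - r := sub_nonneg.2 h1
  have hr1 : 1 - r ≤ 1 := by linarith
  refine Ex_mono (fun _ _ => h0) (fun _ _ => h1) fun S hS => ?_
  have hAS : Disjoint S A := disjoint_of_subset_left hS sdiff_disjoint
  by_cases hQ : Q S
  · obtain ⟨B, hBA, hBm, hB⟩ := h S hAS hQ
    have h3 : Ex A (fun _ => r) (fun R => ind (Disjoint B R)) ≤
        Ex A (fun _ => r) (fun R => ind (Q' (S ∪ R))) :=
      Ex_mono (fun _ _ => h0) (fun _ _ => h1) fun R hR => ind_mono (hB R hR)
    have h4 : Ex A (fun _ => r) (fun R => ind (Disjoint B R)) = (1 - r) ^ B.card := by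
      have h5 := Ex_disj hBA (fun _ : V => r) (fun _ => (1 : ℝ))
      rw [Ex_const, mul_one, prod_const] at h5
      rw [← h5]
      exact Ex_congr fun R _ => (mul_one _).symm
    rw [ind_true hQ, mul_one]
    calc (1 - r) ^ m ≤ (1 - r) ^ B.card := pow_le_pow_of_le_one hr hr1 hBm
      _ = _ := h4.symm
      _ ≤ _ := h3
  · rw [ind_false hQ, mul_zero]
    exact Ex_nonneg (fun _ _ => h0) (fun _ _ => h1) fun R _ => ind_nonneg _

/-- functions of the samples of two disjoint sets are independent -/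
private theorem ExDisj_indep (r : ℝ) {A C : Finset V} (hAC : Disjoint A C) (f g : Finset V → ℝ) :
    EE r (fun S => f (S ∩ A) * g (S ∩ C)) =
      EE r (fun S => f (S ∩ A)) * EE r (fun S => g (S ∩ C)) := by
  have hsub : ∀ {S R : Finset V}, S ⊆ univ \ A → R ⊆ A → (S ∪ R) ∩ A = R ∧ (S ∪ R) ∩ C = S ∩ C := by
    intro S R hS hR
    have hSA : Disjoint S A := disjoint_of_subset_left hS sdiff_disjoint
    constructor
    · rw [union_inter_distrib_right, disjoint_iff_inter_eq_empty.1 hSA, empty_union,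
        inter_eq_left.2 hR]
    · rw [union_inter_distrib_right,
        disjoint_iff_inter_eq_empty.1 (disjoint_of_subset_left hR hAC), union_empty]
  have e1 : EE r (fun S => f (S ∩ A)) = Ex A (fun _ => r) f := by
    rw [ExDisj_split r A]
    have : Ex (univ \ A) (fun _ => r) (fun S => Ex A (fun _ => r) (fun R => f ((S ∪ R) ∩ A))) =
        Ex (univ \ A) (fun _ => r) (fun _ => Ex A (fun _ => r) f) := by
      apply Ex_congr
      intro S hS
      exact Ex_congr fun R hR => by rw [(hsub hS hR).1]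
    rw [this, Ex_const]
  have e2 : EE r (fun S => g (S ∩ C)) = Ex (univ \ A) (fun _ => r) (fun S => g (S ∩ C)) := by
    rw [ExDisj_split r A]
    apply Ex_congr
    intro S hS
    have : Ex A (fun _ => r) (fun R => g ((S ∪ R) ∩ C)) = Ex A (fun _ => r) (fun _ => g (S ∩ C)) :=
      Ex_congr fun R hR => by rw [(hsub hS hR).2]
    rw [this, Ex_const]
  rw [e1, e2, ExDisj_split r A, ← Ex_mul_left]
  apply Ex_congr
  intro S hS
  have : Ex A (fun _ => r) (fun R => f ((S ∪ R) ∩ A) * g ((S ∪ R) ∩ C)) =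
      Ex A (fun _ => r) (fun R => g (S ∩ C) * f R) :=
    Ex_congr fun R hR => by rw [(hsub hS hR).1, (hsub hS hR).2, mul_comm]
  rw [this, Ex_mul_left, mul_comm]

private theorem ExDisj_le {r : ℝ} (h0 : 0 ≤ r) (h1 : r ≤ 1) (I : Finset V) (Q : Finset V → Prop) :
    (1 - r) ^ I.card * PP r (fun S => Q (S \ I)) ≤ PP r Q := by
  have h := EE_disj r I (fun S => ind (Q S))
  have h2 : (1 - r) ^ I.card * PP r (fun S => Q (S \ I)) =
      EE r (fun S => ind (Disjoint I S) * ind (Q S)) := h.symm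
  rw [h2]
  refine EE_mono h0 h1 fun S => ?_
  calc ind (Disjoint I S) * ind (Q S) ≤ 1 * ind (Q S) :=
        mul_le_mul_of_nonneg_right (ind_le_one _) (ind_nonneg _)
    _ = ind (Q S) := one_mul _

/-- covariance bound for decreasing events with given supports -/
theorem cov_dec {r : ℝ} (h0 : 0 ≤ r) (h1 : r ≤ 1) (F1 F2 : Finset V) (Q1 Q2 : Finset V → Prop)
    (hd1 : ∀ S S', S ⊆ S' → Q1 S' → Q1 S) (hd2 : ∀ S S', S ⊆ S' → Q2 S' → Q2 S)
    (hs1 : ∀ S, Q1 (S ∩ F1) → Q1 S) (hs2 : ∀ S, Q2 (S ∩ F2) → Q2 S) :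
    (1 - r) ^ (2 * (F1 ∩ F2).card) * PP r (fun S => Q1 S ∧ Q2 S) ≤ PP r Q1 * PP r Q2 := by
  set I := F1 ∩ F2 with hI
  have hr : 0 ≤ 1 - r := sub_nonneg.2 h1
  have k1 : ∀ S, Q1 (S \ I) ↔ Q1 (S ∩ (F1 \ F2)) := by
    intro S
    have e : (S \ I) ∩ F1 = S ∩ (F1 \ F2) := by
      ext x
      simp only [hI, mem_inter, mem_sdiff]
      tauto
    constructor
    · intro h
      rw [← e]
      exact hd1 _ _ inter_subset_left h
    · intro h
      rw [← e] at h
      exact hs1 _ h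
  have k2 : ∀ S, Q2 (S \ I) ↔ Q2 (S ∩ (F2 \ F1)) := by
    intro S
    have e : (S \ I) ∩ F2 = S ∩ (F2 \ F1) := by
      ext x
      simp only [hI, mem_inter, mem_sdiff]
      tauto
    constructor
    · intro h
      rw [← e]
      exact hd2 _ _ inter_subset_left h
    · intro h
      rw [← e] at h
      exact hs2 _ h
  have hdis : Disjoint (F1 \ F2) (F2 \ F1) := by
    rw [disjoint_left]
    intro x hx hx'
    exact (mem_sdiff.1 hx).2 (mem_sdiff.1 hx').1
  have e1 : PP r (fun S => Q1 (S \ I)) = EE r (fun S => ind (Q1 (S ∩ (F1 \ F2)))) := by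
    unfold PP
    congr 1
    funext S
    exact ind_congr (k1 S)
  have e2 : PP r (fun S => Q2 (S \ I)) = EE r (fun S => ind (Q2 (S ∩ (F2 \ F1)))) := by
    unfold PP
    congr 1
    funext S
    exact ind_congr (k2 S)
  have h3 : PP r (fun S => Q1 S ∧ Q2 S) ≤ PP r (fun S => Q1 (S \ I)) * PP r (fun S => Q2 (S \ I)) := by
    rw [e1, e2, ← ExDisj_indep r hdis (fun S => ind (Q1 S)) (fun S => ind (Q2 S))]
    refine EE_mono h0 h1 fun S => ?_
    rw [ind_and]
    exact mul_le_mul (ind_mono fun h => hd1 _ _ inter_subset_left h)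
      (ind_mono fun h => hd2 _ _ inter_subset_left h) (ind_nonneg _) (ind_nonneg _)
  have p1 := ExDisj_le h0 h1 I Q1
  have p2 := ExDisj_le h0 h1 I Q2
  have n1 : 0 ≤ (1 - r) ^ I.card * PP r (fun S => Q1 (S \ I)) :=
    mul_nonneg (pow_nonneg hr _) (PP_nonneg h0 h1 _)
  have n2 : 0 ≤ (1 - r) ^ I.card * PP r (fun S => Q2 (S \ I)) :=
    mul_nonneg (pow_nonneg hr _) (PP_nonneg h0 h1 _)
  calc (1 - r) ^ (2 * I.card) * PP r (fun S => Q1 S ∧ Q2 S)
      ≤ (1 - r) ^ (2 * I.card) * (PP r (fun S => Q1 (S \ I)) * PP r (fun S => Q2 (S \ I))) :=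
        mul_le_mul_of_nonneg_left h3 (pow_nonneg hr _)
    _ = ((1 - r) ^ I.card * PP r (fun S => Q1 (S \ I))) *
          ((1 - r) ^ I.card * PP r (fun S => Q2 (S \ I))) := by ring
    _ ≤ PP r Q1 * PP r Q2 := mul_le_mul p1 p2 n2 (le_trans n1 p1)

end Pool.Agent.DCX
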