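import Pool.Agent.DCX.ExDisj

/-!
TUR-Fam. Families `Has T v t j`: monotonicity, existence (each chosen member excludes at most `c` members) and
a lower bound for the probability.
-/

namespace Pool.Agent.DCX

open Finset

variable {V : Type} [Fintype V] [DecidableEq V]

theorem Has_anti {T : Finset (Finset V)} {v : V} {t j : ℕ} {S S' : Finset V} (h : S ⊆ S')
    (hS : Has T v t j S') : Has T v t j S := by
  obtain ⟨A, hA, hc, hp, hd⟩ := hS
  exact ⟨A, hA, hc, hp, fun g hg => Finset.disjoint_of_subset_right h (hd g hg)⟩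

theorem Has_mono_T {T T' : Finset (Finset V)} {v : V} {t j : ℕ} {S : Finset V} (h : T ⊆ T')
    (hS : Has T v t j S) : Has T' v t j S := by
  obtain ⟨A, hA, hc, hp, hd⟩ := hS
  exact ⟨A, hA.trans h, hc, hp, hd⟩

theorem Has_supp {G : Finset (Finset V)} {v : V} {t j : ℕ} {e S : Finset V}
    (h : Has G v t j ((S ∩ supp G e) \ e)) : Has G v t j (S \ e) := by
  obtain ⟨A, hA, hc, hp, hd⟩ := h
  refine ⟨A, hA, hc, hp, fun g hg => ?_⟩
  rw [Finset.disjoint_left]
  intro x hx hxS
  rw [Finset.mem_sdiff] at hxS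
  have h1 : x ∈ supp G e := by
    unfold supp
    exact Finset.mem_biUnion.2 ⟨g, hA hg, Finset.mem_sdiff.2 ⟨Finset.mem_of_mem_erase hx, hxS.2⟩⟩
  exact Finset.disjoint_left.1 (hd g hg) hx
    (Finset.mem_sdiff.2 ⟨Finset.mem_inter.2 ⟨hxS.1, h1⟩, hxS.2⟩)

/-- add `e` to a family in the far part -/
theorem Has_succ_of_far {T : Finset (Finset V)} {v : V} {t j : ℕ} {e S : Finset V} (he : e ∈ T)
    (hte : t < e.card) (hS : Disjoint e S) (h : Has (far T t e) v t j S) :
    Has T v t (j + 1) S := by
  obtain ⟨A, hA, hc, hp, hd⟩ := h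
  have hfar : ∀ g ∈ A, g ∈ T ∧ (g ∩ e).card ≤ t := fun g hg => Finset.mem_filter.1 (hA hg)
  have heA : e ∉ A := by
    intro h1
    have h2 := (hfar e h1).2
    rw [Finset.inter_self] at h2
    omega
  refine ⟨insert e A, ?_, ?_, ?_, ?_⟩
  · intro g hg
    rcases Finset.mem_insert.1 hg with rfl | hg
    · exact he
    · exact (hfar g hg).1
  · rw [Finset.card_insert_of_notMem heA, hc]
  · intro g hg g' hg' hne
    rcases Finset.mem_insert.1 hg with h1 | h1
    · rcases Finset.mem_insert.1 hg' with h2 | h2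
      · exact absurd (h1.trans h2.symm) hne
      · rw [Finset.inter_comm, h1]
        exact (hfar g' h2).2
    · rcases Finset.mem_insert.1 hg' with h2 | h2
      · rw [h2]
        exact (hfar g h1).2
      · exact hp g h1 g' h2 hne
  · intro g hg
    rcases Finset.mem_insert.1 hg with rfl | hg
    · exact Finset.disjoint_of_subset_left (Finset.erase_subset _ _) hS
    · exact hd g hg

theorem exists_family {T : Finset (Finset V)} {t j : ℕ} {c : ℝ} (hc : 0 < c)
    (hself : ∀ e ∈ T, t < e.card)
    (hnear : ∀ e ∈ T, ((T.filter (fun g => t < (g ∩ e).card)).card : ℝ) ≤ c)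
    (hj : (j : ℝ) * c ≤ (T.card : ℝ)) :
    ∃ A ⊆ T, A.card = j ∧ ∀ g ∈ A, ∀ g' ∈ A, g ≠ g' → (g ∩ g').card ≤ t := by
  induction j with
  | zero => exact ⟨∅, Finset.empty_subset _, Finset.card_empty, fun g hg => absurd hg (Finset.notMem_empty g)⟩
  | succ j ih =>
    push_cast at hj
    obtain ⟨A, hA, hAc, hp⟩ := ih (by linarith)
    have h1 : ∃ g ∈ T, ∀ a ∈ A, (g ∩ a).card ≤ t := by
      by_contra hcon
      push Not at hcon
      have h2 : T ⊆ A.biUnion (fun a => T.filter (fun g => t < (g ∩ a).card)) := by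
        intro g hg
        obtain ⟨a, ha, hga⟩ := hcon g hg
        exact Finset.mem_biUnion.2 ⟨a, ha, Finset.mem_filter.2 ⟨hg, hga⟩⟩
      have h3 : (T.card : ℝ) ≤ ∑ a ∈ A, ((T.filter (fun g => t < (g ∩ a).card)).card : ℝ) := by
        exact_mod_cast (Finset.card_le_card h2).trans Finset.card_biUnion_le
      have h4 : ∑ a ∈ A, ((T.filter (fun g => t < (g ∩ a).card)).card : ℝ) ≤ A.card • c :=
        Finset.sum_le_card_nsmul _ _ _ fun a ha => hnear a (hA ha)
      rw [hAc, nsmul_eq_mul] at h4
      linarith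
    obtain ⟨g, hg, hga⟩ := h1
    have hgA : g ∉ A := by
      intro h2
      have h3 := hga g h2
      rw [Finset.inter_self] at h3
      have h4 := hself g hg
      omega
    refine ⟨insert g A, ?_, ?_, ?_⟩
    · intro x hx
      rcases Finset.mem_insert.1 hx with rfl | hx
      · exact hg
      · exact hA hx
    · rw [Finset.card_insert_of_notMem hgA, hAc]
    · intro x hx y hy hne
      rcases Finset.mem_insert.1 hx with h1 | h1
      · rcases Finset.mem_insert.1 hy with h2 | h2
        · exact absurd (h1.trans h2.symm) hne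
        · rw [h1]
          exact hga y h2
      · rcases Finset.mem_insert.1 hy with h2 | h2
        · rw [Finset.inter_comm, h2]
          exact hga x h1
        · exact hp x h1 y h2 hne

theorem Has_lower {T : Finset (Finset V)} {v : V} {k t j : ℕ} {c r : ℝ} (hr0 : 0 ≤ r)
    (hr1 : r ≤ 1) (hT : Unif k T) (hc : 0 < c) (htk : t < k)
    (hnear : ∀ e ∈ T, ((T.filter (fun g => t < (g ∩ e).card)).card : ℝ) ≤ c)
    (hj : (j : ℝ) * c ≤ (T.card : ℝ)) :
    ((1 - r) ^ k) ^ j ≤ PP r (Has T v t j) := by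
  obtain ⟨A, hA, hAc, hp⟩ := exists_family hc (fun e he => by rw [hT e he]; exact htk) hnear hj
  set U : Finset V := A.biUnion (fun g => g.erase v) with hU
  have h1 : U.card ≤ k * j := by
    refine Finset.card_biUnion_le.trans ?_
    refine (Finset.sum_le_card_nsmul A _ k fun g hg => ?_).trans ?_
    · exact (Finset.card_le_card (Finset.erase_subset v g)).trans (hT g (hA hg)).le
    · rw [hAc, smul_eq_mul, mul_comm]
  have h2 : PP r (fun S => Disjoint U S) ≤ PP r (Has T v t j) := by
    refine PP_mono hr0 hr1 fun S hS => ⟨A, hA, hAc, hp, fun g hg => ?_⟩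
    exact Finset.disjoint_of_subset_left
      (Finset.subset_biUnion_of_mem (fun g : Finset V => g.erase v) hg) hS
  rw [PP_disj] at h2
  refine le_trans ?_ h2
  rw [← pow_mul]
  exact pow_le_pow_of_le_one (by linarith) (by linarith) h1

end Pool.Agent.DCX
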