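import Pool.Agent.DCX.ToTuran

/-!
Theorem T in the form of the hand-in: de Caen's bound is off by an unbounded factor.
-/

namespace Pool.Agent.DCX

open Pool.Agent.Helper1.Turan

theorem final_T :
    ∀ A₀ : ℝ, ∃ (k₀ : ℕ) (α₀ : ℝ), ∀ k m : ℕ, k₀ ≤ k → α₀ * (k : ℝ) ≤ (m : ℝ) →
      2 ≤ k ∧ k < m ∧
      Filter.Tendsto (fun n : ℕ => (exNum k m n : ℝ) / (n.choose k : ℝ)) Filter.atTop
        (nhds (turanDensity k m)) ∧
      A₀ / ((m - 1).choose (k - 1) : ℝ) ≤ 1 - turanDensity k m ∧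
      ∀ n : ℕ, 2 * m ≤ n →
        (exNum k m n : ℝ) ≤ (1 - A₀ / ((m - 1).choose (k - 1) : ℝ)) * (n.choose k : ℝ) := by
  intro A₀
  obtain ⟨k₀, α₀, h⟩ := main_fin (max A₀ 1) (le_max_right _ _)
  refine ⟨k₀, α₀, fun k m hk hm => ?_⟩
  obtain ⟨h2, hkm, -⟩ := h k m (2 * m) hk hm le_rfl
  have hpos : (0:ℝ) < ((m - 1).choose (k - 1) : ℝ) := by
    exact_mod_cast Nat.choose_pos (by omega)
  have hfin : ∀ n : ℕ, 2 * m ≤ n →
      (exNum k m n : ℝ) ≤ (1 - A₀ / ((m - 1).choose (k - 1) : ℝ)) * (n.choose k : ℝ) := by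
    intro n hn
    obtain ⟨-, -, h3⟩ := h k m n hk hm hn
    refine h3.trans ?_
    apply mul_le_mul_of_nonneg_right _ (by positivity)
    have : A₀ / ((m - 1).choose (k - 1) : ℝ) ≤ max A₀ 1 / ((m - 1).choose (k - 1) : ℝ) :=
      div_le_div_of_nonneg_right (le_max_left _ _) hpos.le
    linarith
  refine ⟨h2, hkm, tendsto_turanDensity hkm.le, ?_, hfin⟩
  have h4 := turanDensity_le_ratio (n := 2 * m) hkm.le (by omega)
  have h5 := hfin (2 * m) le_rfl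
  have hc : (0:ℝ) < ((2 * m).choose k : ℝ) := by exact_mod_cast Nat.choose_pos (by omega)
  have h6 : (exNum k m (2 * m) : ℝ) / ((2 * m).choose k : ℝ) ≤
      1 - A₀ / ((m - 1).choose (k - 1) : ℝ) := by
    rw [div_le_iff₀ hc]; exact h5
  linarith

end Pool.Agent.DCX
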