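import Pool.Agent.DCX.XStar
import Pool.Agent.Helper2.AUniformDeCaenStatement

/-!
The lower bound for `A(k,m) = C(m-1,k-1) (1 - π(K_m^k))` in the form of the hand-in:
`A(k,m) ≥ max (1 + c_k) (c (log* min(k, m/k))^(1/10))` for all `m > k ≥ 3`.
-/

namespace Pool.Agent.DCX

open Pool.Agent.Helper1.Turan

theorem final_max :
    ∃ c : ℝ, 0 < c ∧ ∃ c' : ℕ → ℝ, (∀ k : ℕ, 3 ≤ k → 0 < c' k) ∧
      ∀ L k m : ℕ, 3 ≤ k → k < m → tower L ≤ k → tower L * k ≤ m →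
        Filter.Tendsto (fun n : ℕ => (exNum k m n : ℝ) / (n.choose k : ℝ)) Filter.atTop
          (nhds (turanDensity k m)) ∧
        max (1 + c' k) (c * (L : ℝ) ^ ((1 : ℝ) / 10)) / ((m - 1).choose (k - 1) : ℝ) ≤
          1 - turanDensity k m ∧
        ∀ n : ℕ, 2 * m ≤ n →
          (exNum k m n : ℝ) ≤
            (1 - c * (L : ℝ) ^ ((1 : ℝ) / 10) / ((m - 1).choose (k - 1) : ℝ)) *
              (n.choose k : ℝ) := by
  obtain ⟨c, hc, h⟩ := final_star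
  have hA : ∀ k : ℕ, ∃ c₁ : ℝ, 3 ≤ k → 0 < c₁ ∧ ∀ m : ℕ, k < m →
      turanDensity k m ≤ 1 - (1 + c₁) / ((m - 1).choose (k - 1) : ℝ) := by
    intro k
    by_cases hk : 3 ≤ k
    · obtain ⟨c₁, hc₁, h₁⟩ := Pool.Agent.Helper2.AUniformDeCaen.statement k hk
      exact ⟨c₁, fun _ => ⟨hc₁, fun m hm => (h₁ m hm).2⟩⟩
    · exact ⟨0, fun h3 => absurd h3 hk⟩
  choose c' hc' using hA
  refine ⟨c, hc, c', fun k hk => (hc' k hk).1, fun L k m hk hkm hL hLm => ?_⟩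
  have hpos : (0:ℝ) < ((m - 1).choose (k - 1) : ℝ) := by
    exact_mod_cast Nat.choose_pos (by omega)
  obtain ⟨h1, h2⟩ := h L k m (by omega) hkm hL hLm
  have h3 := (hc' k hk).2 m hkm
  refine ⟨tendsto_turanDensity hkm.le, ?_, h2⟩
  rw [div_le_iff₀ hpos]
  rw [div_le_iff₀ hpos] at h1
  have h4 : (1 + c' k) / ((m - 1).choose (k - 1) : ℝ) ≤ 1 - turanDensity k m := by linarith
  rw [div_le_iff₀ hpos] at h4
  exact max_le h4 h1

end Pool.Agent.DCX
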