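import Pool.Agent.DCX.Rate

/-!
Gain from vertices of high degree in the linear bound for the covering cost: a first sample on the
set of these vertices with a small rate. The second theorem combines it with a random step.
-/

namespace Pool.Agent.DCX

open Finset

variable {V : Type} [Fintype V] [DecidableEq V]

private theorem Gain_pow {a η : ℝ} (ha0 : 0 ≤ a) (ha1 : a ≤ 1) (m : ℕ) (hm : a * (m : ℝ) ≤ η) :
    (1 - a) ^ m ≤ 1 - a * (1 - η) * (m : ℝ) := by
  have hm0 : 0 ≤ a * (m : ℝ) := mul_nonneg ha0 (Nat.cast_nonneg _)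
  have h1 : 1 + (m : ℝ) * a ≤ (1 + a) ^ m := one_add_mul_le_pow (by linarith) m
  have h2 : (1 - a) ^ m * (1 + a) ^ m ≤ 1 := by
    rw [← mul_pow]
    apply pow_le_one₀
    · exact mul_nonneg (by linarith) (by linarith)
    · have := mul_self_nonneg a
      linarith
  have h0 : 0 ≤ (1 - a) ^ m := pow_nonneg (by linarith) m
  have h3 : (1 - a) ^ m * (1 + a * (m : ℝ)) ≤ 1 := by
    refine le_trans (mul_le_mul_of_nonneg_left ?_ h0) h2
    linarith
  have h4 : (1 - a) ^ m ≤ 1 - a * (m : ℝ) + (a * (m : ℝ)) ^ 2 := by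
    by_contra hcon
    rw [not_le] at hcon
    have h5 : (1 - a * (m : ℝ) + (a * (m : ℝ)) ^ 2) * (1 + a * (m : ℝ)) <
        (1 - a) ^ m * (1 + a * (m : ℝ)) :=
      mul_lt_mul_of_pos_right hcon (by linarith)
    have h6 : (1 - a * (m : ℝ) + (a * (m : ℝ)) ^ 2) * (1 + a * (m : ℝ)) =
        1 + (a * (m : ℝ)) ^ 3 := by ring
    have h7 : 0 ≤ (a * (m : ℝ)) ^ 3 := pow_nonneg hm0 3
    linarith
  have h5 : (a * (m : ℝ)) ^ 2 ≤ a * (m : ℝ) * η := by
    rw [sq]
    exact mul_le_mul_of_nonneg_left hm hm0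
  calc (1 - a) ^ m ≤ 1 - a * (m : ℝ) + (a * (m : ℝ)) ^ 2 := h4
    _ ≤ 1 - a * (m : ℝ) + a * (m : ℝ) * η := by linarith
    _ = 1 - a * (1 - η) * (m : ℝ) := by ring

/-- the set of vertices of degree at least `y` -/
private noncomputable def Gain_B (F : Finset (Finset V)) (y : ℝ) : Finset V :=
  open Classical in univ.filter (fun v => y ≤ (deg F v : ℝ))

private theorem Gain_mem (F : Finset (Finset V)) (y : ℝ) (v : V) :
    v ∈ Gain_B F y ↔ y ≤ (deg F v : ℝ) := by
  unfold Gain_B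
  simp

private theorem Gain_um (F : Finset (Finset V)) (y : ℝ) :
    um F y = ∑ v ∈ Gain_B F y, (deg F v : ℝ) := by
  unfold um Gain_B
  rw [sum_filter]
  apply sum_congr rfl
  intro v _
  by_cases h : y ≤ (deg F v : ℝ)
  · rw [ind_true h, if_pos h, mul_one]
  · rw [ind_false h, if_neg h, mul_zero]

omit [Fintype V] in
private theorem Gain_double (F : Finset (Finset V)) (B : Finset V) :
    ∑ e ∈ F, ((e ∩ B).card : ℝ) = ∑ v ∈ B, (deg F v : ℝ) := by
  have h1 : ∀ e ∈ F, ((e ∩ B).card : ℝ) = ∑ v ∈ B, (if v ∈ e then (1 : ℝ) else 0) := by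
    intro e _
    rw [sum_ite_mem, sum_const, nsmul_eq_mul, mul_one, inter_comm]
  have h2 : ∀ v ∈ B, (deg F v : ℝ) = ∑ e ∈ F, (if v ∈ e then (1 : ℝ) else 0) := by
    intro v _
    unfold deg
    rw [← sum_filter, sum_const, nsmul_eq_mul, mul_one]
  rw [sum_congr rfl h1, sum_congr rfl h2, sum_comm]

private theorem Gain_Ex_res (p : V → ℝ) (F : Finset (Finset V)) :
    Ex (univ : Finset V) p (fun S => ((res F S).card : ℝ)) = ∑ e ∈ F, ∏ v ∈ e, (1 - p v) := by
  have h1 : (fun S : Finset V => ((res F S).card : ℝ)) =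
      fun S => ∑ e ∈ F, ind (Disjoint e S) * (fun _ : Finset V => (1 : ℝ)) S := by
    funext S
    unfold res
    rw [card_filter]
    push_cast
    apply sum_congr rfl
    intro e _
    by_cases h : Disjoint e S
    · rw [ind_true h, if_pos h, mul_one]
    · rw [ind_false h, if_neg h, zero_mul]
  rw [h1, Ex_sum F univ p (fun e S => ind (Disjoint e S) * (fun _ : Finset V => (1 : ℝ)) S)]
  apply sum_congr rfl
  intro e _
  rw [Ex_disj (subset_univ e) p (fun _ : Finset V => (1 : ℝ)), Ex_const, mul_one]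

theorem gain {k : ℕ} (hk : 1 ≤ k) {C d ε : ℝ} (hd : 0 < d) (hL : Lin V k C d) (h0 : 0 < ε)
    (h1 : ε ≤ 1) (F : Finset (Finset V)) (hF : Unif k F) :
    (k : ℝ) * (tau F : ℝ) ≤
      (Real.log d + C - 1) * (Fintype.card V : ℝ) + (k : ℝ) * (F.card : ℝ) / d
        - ε ^ 2 / 16 * um F ((1 + ε) * d) / d := by
  have hk0 : (0 : ℝ) < k := by exact_mod_cast hk
  have hk1 : (1 : ℝ) ≤ k := by exact_mod_cast hk
  set η : ℝ := ε / 4 with hη
  set B : Finset V := Gain_B F ((1 + ε) * d) with hB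
  set a : ℝ := η / k with ha
  have hη0 : 0 < η := by rw [hη]; linarith
  have hη1 : η ≤ 1 / 4 := by rw [hη]; linarith
  have ha0 : 0 ≤ a := (div_pos hη0 hk0).le
  have ha1 : a ≤ 1 := by
    rw [ha, div_le_one hk0]
    linarith
  have hak : a * (k : ℝ) = η := by
    rw [ha]
    field_simp
  set p : V → ℝ := fun v => if v ∈ B then a else 0 with hp
  have hp0 : ∀ v, 0 ≤ p v := by
    intro v
    simp only [hp]
    split_ifs
    · exact ha0
    · exact le_rfl
  have hp1 : ∀ v, p v ≤ 1 := by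
    intro v
    simp only [hp]
    split_ifs
    · exact ha1
    · exact zero_le_one
  -- the sampled set
  have hsum : ∑ v, p v = a * (B.card : ℝ) := by
    simp only [hp]
    rw [sum_ite_mem, univ_inter, sum_const, nsmul_eq_mul, mul_comm]
  -- the missed edges
  have hprod : ∀ e ∈ F, ∏ v ∈ e, (1 - p v) ≤ 1 - a * (1 - η) * ((e ∩ B).card : ℝ) := by
    intro e he
    have h2 : ∏ v ∈ e, (1 - p v) = (1 - a) ^ (e ∩ B).card := by
      have h3 : ∀ v ∈ e, (1 - p v) = if v ∈ B then (1 - a) else 1 := by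
        intro v _
        simp only [hp]
        split_ifs
        · rfl
        · rw [sub_zero]
      rw [prod_congr rfl h3, prod_ite_mem, prod_const]
    rw [h2]
    apply Gain_pow ha0 ha1
    have h3 : ((e ∩ B).card : ℝ) ≤ k := by
      rw [← hF e he]
      exact_mod_cast card_le_card inter_subset_left
    rw [← hak]
    exact mul_le_mul_of_nonneg_left h3 ha0
  have hres : Ex (univ : Finset V) p (fun S => ((res F S).card : ℝ)) ≤
      (F.card : ℝ) - a * (1 - η) * um F ((1 + ε) * d) := by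
    rw [Gain_Ex_res]
    refine le_trans (sum_le_sum hprod) ?_
    rw [sum_sub_distrib, sum_const, nsmul_eq_mul, mul_one, ← mul_sum, Gain_double, Gain_um]
  -- combine
  have h2 := tau_le_Ex_step hp0 hp1 F
  have h3 : Ex (univ : Finset V) p (fun S => (k : ℝ) * (tau (res F S) : ℝ)) ≤
      Ex (univ : Finset V) p (fun S => (Real.log d + C - 1) * (Fintype.card V : ℝ)
        + (k : ℝ) / d * ((res F S).card : ℝ)) := by
    apply Ex_mono (fun v _ => hp0 v) (fun v _ => hp1 v)
    intro S _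
    have h4 := hL (res F S) (res_unif hF S)
    refine le_trans h4 (le_of_eq ?_)
    ring
  rw [Ex_mul_left, Ex_add, Ex_const, Ex_mul_left] at h3
  have h4 : (k : ℝ) * (tau F : ℝ) ≤
      k * (a * (B.card : ℝ)) + ((Real.log d + C - 1) * (Fintype.card V : ℝ) +
        (k : ℝ) / d * ((F.card : ℝ) - a * (1 - η) * um F ((1 + ε) * d))) := by
    have h5 : (k : ℝ) * (tau F : ℝ) ≤ k * (∑ v, p v +
        Ex (univ : Finset V) p (fun S => (tau (res F S) : ℝ))) :=
      mul_le_mul_of_nonneg_left h2 hk0.le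
    have h6 : (k : ℝ) / d * Ex (univ : Finset V) p (fun S => ((res F S).card : ℝ)) ≤
        (k : ℝ) / d * ((F.card : ℝ) - a * (1 - η) * um F ((1 + ε) * d)) :=
      mul_le_mul_of_nonneg_left hres (div_pos hk0 hd).le
    rw [hsum, mul_add] at h5
    linarith
  -- the size of the set of vertices of high degree
  have hBum : (B.card : ℝ) * ((1 + ε) * d) ≤ um F ((1 + ε) * d) := by
    rw [Gain_um, ← hB, ← nsmul_eq_mul]
    apply card_nsmul_le_sum
    intro v hv
    exact (Gain_mem F _ v).1 hv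
  set U : ℝ := um F ((1 + ε) * d) with hU
  have hU0 : 0 ≤ U := le_trans (mul_nonneg (Nat.cast_nonneg _) (by positivity)) hBum
  have hB2 : (B.card : ℝ) ≤ (1 - ε / 2) * (U / d) := by
    have h5 : (B.card : ℝ) * (1 + ε) ≤ U / d := by
      rw [le_div_iff₀ hd]
      linarith
    have h6 : 1 ≤ (1 - ε / 2) * (1 + ε) := by
      have : 0 ≤ ε * (1 - ε) := mul_nonneg h0.le (by linarith)
      linarith
    have h7 : (B.card : ℝ) * 1 ≤ (B.card : ℝ) * ((1 - ε / 2) * (1 + ε)) :=
      mul_le_mul_of_nonneg_left h6 (Nat.cast_nonneg _)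
    have h8 : (1 - ε / 2) * ((B.card : ℝ) * (1 + ε)) ≤ (1 - ε / 2) * (U / d) :=
      mul_le_mul_of_nonneg_left h5 (by linarith)
    linarith
  have h5 : k * (a * (B.card : ℝ)) ≤ η * ((1 - ε / 2) * (U / d)) := by
    have h6 : k * (a * (B.card : ℝ)) = η * (B.card : ℝ) := by
      rw [← hak]
      ring
    rw [h6]
    exact mul_le_mul_of_nonneg_left hB2 hη0.le
  have h6 : (k : ℝ) / d * ((F.card : ℝ) - a * (1 - η) * U) =
      (k : ℝ) * (F.card : ℝ) / d - η * (1 - η) * (U / d) := by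
    rw [← hak]
    ring
  have h7 : η * ((1 - ε / 2) * (U / d)) - η * (1 - η) * (U / d) = - (ε ^ 2 / 16 * U / d) := by
    rw [hη]
    ring
  rw [h6] at h4
  linarith

theorem rand_gain {k : ℕ} (hk : 1 ≤ k) {C d x ε r : ℝ} (hd : 0 < d) (hdx : d ≤ x)
    (hL : Lin V k C d) (h0 : 0 < ε) (h1 : ε ≤ 1) (hr0 : 0 ≤ r) (hr1 : r < 1)
    (hrk : (1 - r) ^ k = d / x) (hkr : (k : ℝ) * r ≤ Real.log x - Real.log d)
    (F : Finset (Finset V)) (hF : Unif k F) :
    (k : ℝ) * (tau F : ℝ) ≤
      (Real.log x + C - 1) * (Fintype.card V : ℝ) + (k : ℝ) * (F.card : ℝ) / x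
        - ε ^ 2 / 16 * EE r (fun S => um (res F S) ((1 + ε) * d)) / d := by
  have hk0 : (0 : ℝ) < k := by exact_mod_cast hk
  have hx : 0 < x := lt_of_lt_of_le hd hdx
  have h2 := tau_le_Ex_step (p := fun _ : V => r) (fun _ => hr0) (fun _ => hr1.le) F
  rw [sum_const, card_univ, nsmul_eq_mul] at h2
  have h3 : Ex (univ : Finset V) (fun _ => r) (fun S => (k : ℝ) * (tau (res F S) : ℝ)) ≤
      Ex (univ : Finset V) (fun _ => r) (fun S => ((Real.log d + C - 1) * (Fintype.card V : ℝ)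
        + (k : ℝ) / d * ((res F S).card : ℝ))
          - ε ^ 2 / 16 / d * um (res F S) ((1 + ε) * d)) := by
    apply Ex_mono (fun v _ => hr0) (fun v _ => hr1.le)
    intro S _
    have h4 := gain hk hd hL h0 h1 (res F S) (res_unif hF S)
    refine le_trans h4 (le_of_eq ?_)
    ring
  rw [Ex_mul_left, Ex_sub, Ex_add, Ex_const, Ex_mul_left, Ex_mul_left] at h3
  have h4 : Ex (univ : Finset V) (fun _ => r) (fun S => ((res F S).card : ℝ)) =
      (F.card : ℝ) * (d / x) := by
    rw [Gain_Ex_res, sum_congr rfl (fun e he => ?_)]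
    · rw [sum_const, nsmul_eq_mul]
    · rw [prod_const, hF e he, hrk]
  rw [h4] at h3
  have h5 : (k : ℝ) * (tau F : ℝ) ≤ k * ((Fintype.card V : ℝ) * r +
      Ex (univ : Finset V) (fun _ => r) (fun S => (tau (res F S) : ℝ))) :=
    mul_le_mul_of_nonneg_left h2 hk0.le
  have h6 : (k : ℝ) * r * (Fintype.card V : ℝ) ≤
      (Real.log x - Real.log d) * (Fintype.card V : ℝ) :=
    mul_le_mul_of_nonneg_right hkr (Nat.cast_nonneg _)
  have h7 : (k : ℝ) / d * ((F.card : ℝ) * (d / x)) = (k : ℝ) * (F.card : ℝ) / x := by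
    field_simp
  have h8 : ε ^ 2 / 16 / d * Ex (univ : Finset V) (fun _ => r)
      (fun S => um (res F S) ((1 + ε) * d)) =
      ε ^ 2 / 16 * EE r (fun S => um (res F S) ((1 + ε) * d)) / d := by
    unfold EE
    ring
  rw [h7, h8] at h3
  rw [mul_add] at h5
  linarith

end Pool.Agent.DCX
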