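import Pool.Agent.DCX.Fam

/-!
TUR-Harmless. Section (4.3) of turT31.md. Pointwise: if `Has T v t j S` with family `A` then `Has (far T t e) v t j S` for every
`e ∈ T` which is not in `⋃_{g ∈ A} {e ∈ T : t < |e ∩ g|}` (at most `j c` members); then the expectation `EE r`.
-/

namespace Pool.Agent.DCX

open Finset

variable {V : Type} [Fintype V] [DecidableEq V]

private theorem Harmless_far_sub (T : Finset (Finset V)) (t : ℕ) (e : Finset V) : far T t e ⊆ T :=
  filter_subset _ _

private theorem Harmless_pt {T : Finset (Finset V)} {v : V} {t j : ℕ} {c : ℝ}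
    (hnear : ∀ e ∈ T, ((T.filter (fun g => t < (g ∩ e).card)).card : ℝ) ≤ c) (S : Finset V) :
    ∑ e ∈ T, (ind (Has T v t j S) - ind (Has (far T t e) v t j S)) ≤
      (j : ℝ) * c * ind (Has T v t j S) := by
  by_cases h : Has T v t j S
  · rw [ind_true h, mul_one]
    obtain ⟨A, hAT, hAc, hA1, hA2⟩ := h
    set B : Finset (Finset V) := A.biUnion (fun g => T.filter (fun e => t < (e ∩ g).card)) with hB
    have h1 : ∑ e ∈ T, ((1 : ℝ) - ind (Has (far T t e) v t j S)) ≤ ∑ e ∈ T, (if e ∈ B then (1 : ℝ) else 0) := by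
      refine sum_le_sum fun e he => ?_
      by_cases heB : e ∈ B
      · rw [if_pos heB]
        linarith [ind_nonneg (Has (far T t e) v t j S)]
      · rw [if_neg heB]
        have h2 : Has (far T t e) v t j S := by
          refine ⟨A, fun g hg => ?_, hAc, hA1, hA2⟩
          rw [far, mem_filter]
          refine ⟨hAT hg, ?_⟩
          by_contra hlt
          push Not at hlt
          refine heB (mem_biUnion.2 ⟨g, hg, mem_filter.2 ⟨he, ?_⟩⟩)
          rw [inter_comm]
          exact hlt
        rw [ind_true h2, sub_self]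
    have h3 : ∑ e ∈ T, (if e ∈ B then (1 : ℝ) else 0) ≤ (B.card : ℝ) := by
      rw [sum_ite_mem, sum_const, nsmul_eq_mul, mul_one]
      exact_mod_cast card_le_card inter_subset_right
    have h4 : (B.card : ℝ) ≤ ∑ g ∈ A, c := by
      refine le_trans ?_ (sum_le_sum fun g hg => hnear g (hAT hg))
      exact_mod_cast card_biUnion_le
    rw [sum_const, hAc, nsmul_eq_mul] at h4
    exact h1.trans (h3.trans h4)
  · rw [ind_false h, mul_zero]
    refine (sum_eq_zero fun e _ => ?_).le
    rw [ind_false (fun h' => h (Has_mono_T (Harmless_far_sub T t e) h')), sub_self]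

theorem harmless {T : Finset (Finset V)} {v : V} {t j : ℕ} {c r : ℝ} (hr0 : 0 ≤ r) (hr1 : r ≤ 1)
    (hnear : ∀ e ∈ T, ((T.filter (fun g => t < (g ∩ e).card)).card : ℝ) ≤ c) :
    ∑ e ∈ T, (PP r (Has T v t j) - PP r (Has (far T t e) v t j)) ≤
      (j : ℝ) * c * PP r (Has T v t j) := by
  have h1 : ∑ e ∈ T, (PP r (Has T v t j) - PP r (Has (far T t e) v t j)) =
      EE r (fun S => ∑ e ∈ T, (ind (Has T v t j S) - ind (Has (far T t e) v t j S))) := by
    unfold PP EE
    rw [Ex_sum]
    exact sum_congr rfl fun e _ => (Ex_sub _ _ _ _).symm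
  have h2 : (j : ℝ) * c * PP r (Has T v t j) = EE r (fun S => (j : ℝ) * c * ind (Has T v t j S)) := by
    unfold PP EE
    rw [Ex_mul_left]
  rw [h1, h2]
  exact EE_mono hr0 hr1 fun S => Harmless_pt hnear S

theorem unlucky {T : Finset (Finset V)} {v : V} {t j : ℕ} {c r : ℝ} (hr0 : 0 ≤ r) (hr1 : r ≤ 1)
    (hnear : ∀ e ∈ T, ((T.filter (fun g => t < (g ∩ e).card)).card : ℝ) ≤ c)
    (ha : 0 < PP r (Has T v t j)) :
    ∑ e ∈ T, ind (PP r (Has (far T t e) v t j) < 7 / 8 * PP r (Has T v t j)) ≤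
      8 * (j : ℝ) * c := by
  have h1 := harmless (v := v) (j := j) hr0 hr1 hnear
  have h2 : PP r (Has T v t j) / 8 *
      ∑ e ∈ T, ind (PP r (Has (far T t e) v t j) < 7 / 8 * PP r (Has T v t j)) ≤
      ∑ e ∈ T, (PP r (Has T v t j) - PP r (Has (far T t e) v t j)) := by
    rw [mul_sum]
    refine sum_le_sum fun e _ => ?_
    have h3 : PP r (Has (far T t e) v t j) ≤ PP r (Has T v t j) :=
      PP_mono hr0 hr1 fun S h => Has_mono_T (Harmless_far_sub T t e) h
    by_cases h : PP r (Has (far T t e) v t j) < 7 / 8 * PP r (Has T v t j)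
    · rw [ind_true h]
      linarith
    · rw [ind_false h]
      linarith
  have h4 := h2.trans h1
  have h5 : PP r (Has T v t j) *
      ∑ e ∈ T, ind (PP r (Has (far T t e) v t j) < 7 / 8 * PP r (Has T v t j)) ≤
      PP r (Has T v t j) * (8 * (j : ℝ) * c) := by linarith
  exact le_of_mul_le_mul_left h5 ha

end Pool.Agent.DCX
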