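import Pool.Agent.DCX.NearOne

/-!
TUR-NearCount. Section 3 of turT31.md: the expected number of incidences with many near edges, by summation of
`near_one` over all incidences; the lower tail of the degrees; `um` is antitone.
-/

namespace Pool.Agent.DCX

open Finset

variable {V : Type} [Fintype V] [DecidableEq V]

private theorem NearCount_sum (s : Finset (Finset V)) (r : ℝ) (f : Finset V → Finset V → ℝ) :
    EE r (fun S => ∑ i ∈ s, f i S) = ∑ i ∈ s, EE r (f i) := Ex_sum s _ _ f

private theorem NearCount_sumV (r : ℝ) (f : V → Finset V → ℝ) :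
    EE r (fun S => ∑ v : V, f v S) = ∑ v : V, EE r (f v) := Ex_sum univ _ _ f

/-- the sum of the degrees -/
private theorem NearCount_deg {k : ℕ} (G : Finset (Finset V)) (hG : Unif k G) :
    ∑ v : V, (deg G v : ℝ) = (k : ℝ) * (G.card : ℝ) := by
  have h1 : ∑ v : V, deg G v = k * G.card := by
    have h2 : ∀ v : V, deg G v = ∑ e ∈ G, if v ∈ e then 1 else 0 := fun v => by
      rw [deg, card_filter]
    rw [sum_congr rfl fun v _ => h2 v, sum_comm]
    have h3 : ∀ e ∈ G, (∑ v : V, if v ∈ e then 1 else 0) = k := fun e he => by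
      rw [← card_filter, filter_mem_eq_inter, univ_inter, hG e he]
    rw [sum_congr rfl h3, sum_const, smul_eq_mul, mul_comm]
  exact_mod_cast h1

private theorem NearCount_sumdeg (G : Finset (Finset V)) (v : V) (c : ℝ) :
    ∑ _f ∈ G.filter (fun e => v ∈ e), c = (deg G v : ℝ) * c := by
  rw [sum_const, nsmul_eq_mul]; rfl

private theorem NearCount_res (F : Finset (Finset V)) (S : Finset V) (v : V)
    (g : Finset V → ℝ) :
    ∑ e ∈ (res F S).filter (fun e => v ∈ e), g e =
      ∑ e ∈ F.filter (fun e => v ∈ e), ind (Disjoint e S) * g e := by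
  have h1 : (res F S).filter (fun e => v ∈ e) =
      (F.filter (fun e => v ∈ e)).filter (fun e => Disjoint e S) := by
    rw [res, filter_filter, filter_filter]
    exact filter_congr fun e _ => and_comm
  rw [h1, sum_filter]
  refine sum_congr rfl fun e _ => ?_
  by_cases h : Disjoint e S
  · rw [if_pos h, ind_true h, one_mul]
  · rw [if_neg h, ind_false h, zero_mul]

theorem near_count {k t : ℕ} {r η d x κ : ℝ} (hr0 : 0 ≤ r) (hr1 : r < 1)
    (hη : (1 - r) ^ (t + 1) ≤ η) (hd : 0 < d) (hdx : d ≤ x) (hrk : (1 - r) ^ k = d / x)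
    (hκ : 0 < κ) (hκ1 : κ ≤ 1) (F : Finset (Finset V)) (hF : Unif k F) :
    EE r (fun S => Nb (res F S) t (κ * d)) ≤
      2 * η * ((k : ℝ) * (F.card : ℝ)) * (d / x)
        + EE r (fun S => um (res F S) ((1 + κ / 4) * d))
        + d / x * um F (2 * x)
        + 2 * d * ∑ v : V, PP r (fun S => (deg (res F S) v : ℝ) < (1 - κ / 4) * d) := by
  have hx : 0 < x := lt_of_lt_of_le hd hdx
  have hdx0 : 0 ≤ d / x := div_nonneg hd.le hx.le
  set P : V → ℝ := fun v => PP r (fun S => (deg (res F S) v : ℝ) < (1 - κ / 4) * d) with hP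
  have hP0 : ∀ v, 0 ≤ P v := fun v => PP_nonneg hr0 hr1.le _
  have hP1 : ∀ v, P v ≤ 1 := fun v => PP_le_one hr0 hr1.le _
  have h1 : EE r (fun S => Nb (res F S) t (κ * d)) =
      ∑ v : V, ∑ f ∈ F.filter (fun e => v ∈ e),
        PP r (fun S => Disjoint f S ∧ κ * d < ((near (res F S) t v f).card : ℝ)) := by
    have h2 : (fun S => Nb (res F S) t (κ * d)) = fun S => ∑ v : V,
        ∑ f ∈ F.filter (fun e => v ∈ e),
          ind (Disjoint f S ∧ κ * d < ((near (res F S) t v f).card : ℝ)) := by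
      funext S
      rw [Nb]
      refine sum_congr rfl fun v _ => ?_
      rw [NearCount_res]
      exact sum_congr rfl fun e _ => (ind_and _ _).symm
    rw [h2, NearCount_sumV]
    refine sum_congr rfl fun v _ => ?_
    rw [NearCount_sum]
    rfl
  have h2 : ∀ v : V, ∀ f ∈ F.filter (fun e => v ∈ e),
      PP r (fun S => Disjoint f S ∧ κ * d < ((near (res F S) t v f).card : ℝ)) ≤
        d / x * (2 * η) +
          EE r (fun S => ind (Disjoint f S) * ind ((1 + κ / 4) * d ≤ (deg (res F S) v : ℝ))) +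
          d / x * P v := by
    intro v f hf
    rw [mem_filter] at hf
    have h3 := near_one hr0 hr1 hη hd hκ F hF v f hf.1 hf.2
    have h4 := EE_disj r f (fun S => ind ((1 + κ / 4) * d ≤ (deg (res F S) v : ℝ)))
    rw [hF f hf.1] at h4
    rw [h4]
    refine h3.trans (le_of_eq ?_)
    rw [hrk, hP]
    show d / x * (2 * η + EE r (fun S => ind ((1 + κ / 4) * d ≤ (deg (res F (S \ f)) v : ℝ))) +
      _) = _
    ring
  rw [h1]
  have h3 : ∑ v : V, ∑ f ∈ F.filter (fun e => v ∈ e),
      PP r (fun S => Disjoint f S ∧ κ * d < ((near (res F S) t v f).card : ℝ)) ≤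
      ∑ v : V, ((deg F v : ℝ) * (d / x * (2 * η)) +
        EE r (fun S => (deg (res F S) v : ℝ) * ind ((1 + κ / 4) * d ≤ (deg (res F S) v : ℝ))) +
        (deg F v : ℝ) * (d / x * P v)) := by
    refine sum_le_sum fun v _ => ?_
    refine (sum_le_sum (h2 v)).trans (le_of_eq ?_)
    rw [sum_add_distrib, sum_add_distrib, NearCount_sumdeg, NearCount_sumdeg, ← NearCount_sum]
    congr 2
    have h5 : (fun S => ∑ i ∈ F.filter (fun e => v ∈ e),
        ind (Disjoint i S) * ind ((1 + κ / 4) * d ≤ (deg (res F S) v : ℝ))) =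
        fun S => (deg (res F S) v : ℝ) * ind ((1 + κ / 4) * d ≤ (deg (res F S) v : ℝ)) := by
      funext S
      rw [← NearCount_res, NearCount_sumdeg]
    rw [h5]
  refine h3.trans ?_
  rw [sum_add_distrib, sum_add_distrib]
  have h6 : ∑ v : V, (deg F v : ℝ) * (d / x * (2 * η)) =
      2 * η * ((k : ℝ) * (F.card : ℝ)) * (d / x) := by
    rw [← sum_mul, NearCount_deg F hF]
    ring
  have h7 : ∑ v : V, EE r (fun S => (deg (res F S) v : ℝ) *
      ind ((1 + κ / 4) * d ≤ (deg (res F S) v : ℝ))) =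
      EE r (fun S => um (res F S) ((1 + κ / 4) * d)) := by
    rw [← NearCount_sumV]
    rfl
  have h8 : ∑ v : V, (deg F v : ℝ) * (d / x * P v) ≤ d / x * um F (2 * x) + 2 * d * ∑ v : V, P v := by
    rw [um, mul_sum, mul_sum, ← sum_add_distrib]
    refine sum_le_sum fun v _ => ?_
    have hZ : (0 : ℝ) ≤ (deg F v : ℝ) := Nat.cast_nonneg _
    by_cases h : 2 * x ≤ (deg F v : ℝ)
    · rw [ind_true h, mul_one]
      have e1 : (deg F v : ℝ) * (d / x * P v) ≤ d / x * (deg F v : ℝ) := by
        have := mul_le_mul_of_nonneg_left (hP1 v) (mul_nonneg hdx0 hZ)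
        linarith
      have e2 : 0 ≤ 2 * d * P v := mul_nonneg (by linarith) (hP0 v)
      linarith
    · rw [ind_false h, mul_zero, mul_zero, zero_add]
      push Not at h
      have e1 : (deg F v : ℝ) * (d / x * P v) ≤ (2 * x) * (d / x * P v) :=
        mul_le_mul_of_nonneg_right h.le (mul_nonneg hdx0 (hP0 v))
      have e2 : (2 * x) * (d / x * P v) = 2 * d * P v := by
        field_simp
      linarith
  rw [h6, h7]
  linarith

theorem low_tail {k : ℕ} {a ε₀ d : ℝ} (ha0 : 0 < a) (ha1 : a ≤ 1) (hε : 0 ≤ ε₀) (hd : 0 < d)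
    (G : Finset (Finset V)) (hG : Unif k G) :
    a * ∑ v : V, ind ((deg G v : ℝ) < (1 - a) * d) ≤
      ε₀ * (Fintype.card V : ℝ) + um G ((1 + ε₀) * d) / d + (Fintype.card V : ℝ)
        - (k : ℝ) * (G.card : ℝ) / d := by
  have key : ∀ v : V, a * ind ((deg G v : ℝ) < (1 - a) * d) ≤
      ε₀ + (deg G v : ℝ) * ind ((1 + ε₀) * d ≤ (deg G v : ℝ)) / d + 1 - (deg G v : ℝ) / d := by
    intro v
    have hZ : (0 : ℝ) ≤ (deg G v : ℝ) := Nat.cast_nonneg _
    have hu : 0 ≤ (deg G v : ℝ) * ind ((1 + ε₀) * d ≤ (deg G v : ℝ)) / d :=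
      div_nonneg (mul_nonneg hZ (ind_nonneg _)) hd.le
    by_cases h : (deg G v : ℝ) < (1 - a) * d
    · rw [ind_true h, mul_one]
      have h1 : (deg G v : ℝ) / d < 1 - a := by rwa [div_lt_iff₀ hd]
      linarith
    · rw [ind_false h, mul_zero]
      by_cases h' : (1 + ε₀) * d ≤ (deg G v : ℝ)
      · rw [ind_true h', mul_one]
        linarith
      · push Not at h'
        have h1 : (deg G v : ℝ) / d < 1 + ε₀ := by rwa [div_lt_iff₀ hd]
        linarith
  have h1 := sum_le_sum (fun v (_ : v ∈ (univ : Finset V)) => key v)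
  rw [← mul_sum, sum_sub_distrib, sum_add_distrib, sum_add_distrib, sum_const, sum_const,
    ← sum_div, ← sum_div, NearCount_deg G hG, card_univ, nsmul_eq_mul, nsmul_eq_mul, mul_one] at h1
  rw [um]
  linarith

theorem um_anti {F : Finset (Finset V)} {y y' : ℝ} (h : y ≤ y') : um F y' ≤ um F y := by
  unfold um
  exact sum_le_sum fun v _ => mul_le_mul_of_nonneg_left (ind_mono fun h' => h.trans h')
    (Nat.cast_nonneg _)

end Pool.Agent.DCX
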