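import Pool.Agent.DCX.TauBasic

/-!
TUR-NearOne. One incidence. `markov_near`: for fixed `S \ f` the members of `near F t v f` which avoid `S \ f` survive in `S`
with probability at most `η` each (they meet `f` in more than `t` points), so by the Markov inequality half of them survive
with probability at most `2 η`. `near_one`: the left side is `(1-r)^k` times the probability that many near members avoid
`S \ f` (`EE_disj`); if less than half of them avoid `S` then the degree of `v` in `res F (S \ f)` is at least `κ d / 2` larger
than in `res F S`.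
-/

namespace Pool.Agent.DCX

open Finset

variable {V : Type} [Fintype V] [DecidableEq V]

private theorem NearOne_pow {t m : ℕ} {r η : ℝ} (hr0 : 0 ≤ r) (hr1 : r < 1)
    (hη : (1 - r) ^ (t + 1) ≤ η) (hm : t < m) : (1 - r) ^ m ≤ η :=
  (pow_le_pow_of_le_one (by linarith) (by linarith) hm).trans hη

/-- the expected number of surviving members, for a fixed family -/
private theorem NearOne_exp {t : ℕ} {r η : ℝ} (hr0 : 0 ≤ r) (hr1 : r < 1)
    (hη : (1 - r) ^ (t + 1) ≤ η) (M : Finset (Finset V)) (f : Finset V)
    (hM : ∀ g ∈ M, t < (g ∩ f).card) :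
    Ex f (fun _ => r) (fun R => ((M.filter (fun g => Disjoint g R)).card : ℝ)) ≤
      η * (M.card : ℝ) := by
  have h1 : Ex f (fun _ => r) (fun R => ((M.filter (fun g => Disjoint g R)).card : ℝ)) =
      ∑ g ∈ M, Ex f (fun _ => r) (fun R => ind (Disjoint (g ∩ f) R) * (1 : ℝ)) := by
    rw [← Ex_sum]
    apply Ex_congr
    intro R hR
    rw [card_filter]
    push_cast
    apply sum_congr rfl
    intro g _
    have h2 : Disjoint g R ↔ Disjoint (g ∩ f) R := by
      constructor
      · intro h
        exact disjoint_of_subset_left inter_subset_left h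
      · intro h
        rw [disjoint_left] at h ⊢
        intro x hx hxR
        exact h (mem_inter.2 ⟨hx, hR hxR⟩) hxR
    by_cases hd : Disjoint g R
    · rw [if_pos hd, ind_true (h2.1 hd), mul_one]
    · rw [if_neg hd, ind_false (fun h => hd (h2.2 h)), zero_mul]
  rw [h1]
  have h3 : ∀ g ∈ M, Ex f (fun _ => r) (fun R => ind (Disjoint (g ∩ f) R) * (1 : ℝ)) ≤ η := by
    intro g hg
    rw [Ex_disj inter_subset_right (fun _ => r) (fun _ => (1 : ℝ)), Ex_const, prod_const, mul_one]
    exact NearOne_pow hr0 hr1 hη (hM g hg)
  refine (sum_le_sum h3).trans ?_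
  rw [sum_const, nsmul_eq_mul, mul_comm]

theorem markov_near {t : ℕ} {r η c : ℝ} (hr0 : 0 ≤ r) (hr1 : r < 1) (hη : (1 - r) ^ (t + 1) ≤ η)
    (hc : 0 ≤ c) (F : Finset (Finset V)) (v : V) (f : Finset V) :
    PP r (fun S => c < (((near F t v f).filter (fun g => Disjoint g (S \ f))).card : ℝ) ∧
      ((near F t v f).filter (fun g => Disjoint g (S \ f))).card ≤
        2 * ((near F t v f).filter (fun g => Disjoint g S)).card) ≤ 2 * η := by
  have hη0 : 0 ≤ η := (pow_nonneg (by linarith) _).trans hη
  unfold PP EE
  have hU : (univ \ f) ∪ f = (univ : Finset V) := sdiff_union_of_subset (subset_univ f)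
  have hd : Disjoint (univ \ f) f := sdiff_disjoint
  rw [← hU, Ex_union hd]
  refine (Ex_mono (g := fun _ => 2 * η) (fun _ _ => hr0) (fun _ _ => hr1.le) ?_).trans
    (Ex_const _ _ _).le
  intro S hS
  have hSf : Disjoint S f := disjoint_of_subset_left hS hd
  set M := (near F t v f).filter (fun g => Disjoint g S) with hMdef
  have hMt : ∀ g ∈ M, t < (g ∩ f).card := by
    intro g hg
    rw [hMdef, mem_filter] at hg
    exact (mem_filter.1 hg.1).2.2
  have key : ∀ R ⊆ f, ((near F t v f).filter (fun g => Disjoint g ((S ∪ R) \ f))) = M ∧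
      ((near F t v f).filter (fun g => Disjoint g (S ∪ R))) = M.filter (fun g => Disjoint g R) := by
    intro R hR
    constructor
    · rw [union_sdiff_distrib, sdiff_eq_self_of_disjoint hSf, sdiff_eq_empty_iff_subset.2 hR,
        union_empty]
    · rw [hMdef, filter_filter]
      apply filter_congr
      intro g _
      rw [disjoint_union_right]
  by_cases hcM : c < (M.card : ℝ)
  · have hMpos : (0 : ℝ) < (M.card : ℝ) := lt_of_le_of_lt hc hcM
    have h1 : Ex f (fun _ => r) (fun R =>
        ind (c < (((near F t v f).filter (fun g => Disjoint g ((S ∪ R) \ f))).card : ℝ) ∧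
          ((near F t v f).filter (fun g => Disjoint g ((S ∪ R) \ f))).card ≤
            2 * ((near F t v f).filter (fun g => Disjoint g (S ∪ R))).card)) ≤
        Ex f (fun _ => r) (fun R => (2 / (M.card : ℝ)) *
          ((M.filter (fun g => Disjoint g R)).card : ℝ)) := by
      refine Ex_mono (fun _ _ => hr0) (fun _ _ => hr1.le) ?_
      intro R hR
      obtain ⟨e1, e2⟩ := key R hR
      simp only [e1, e2]
      by_cases hle : M.card ≤ 2 * (M.filter (fun g => Disjoint g R)).card
      · refine (ind_le_one _).trans ?_
        rw [div_mul_eq_mul_div, le_div_iff₀ hMpos, one_mul]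
        exact_mod_cast hle
      · rw [ind_false (fun h => hle h.2)]
        positivity
    refine h1.trans ?_
    rw [Ex_mul_left]
    have h2 := NearOne_exp hr0 hr1 hη M f hMt
    calc 2 / (M.card : ℝ) * Ex f (fun _ => r)
          (fun R => ((M.filter (fun g => Disjoint g R)).card : ℝ))
        ≤ 2 / (M.card : ℝ) * (η * (M.card : ℝ)) :=
          mul_le_mul_of_nonneg_left h2 (by positivity)
      _ = 2 * η := by field_simp
  · have h1 : Ex f (fun _ => r) (fun R =>
        ind (c < (((near F t v f).filter (fun g => Disjoint g ((S ∪ R) \ f))).card : ℝ) ∧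
          ((near F t v f).filter (fun g => Disjoint g ((S ∪ R) \ f))).card ≤
            2 * ((near F t v f).filter (fun g => Disjoint g (S ∪ R))).card)) =
        Ex f (fun _ => r) (fun _ => 0) := by
      apply Ex_congr
      intro R hR
      obtain ⟨e1, e2⟩ := key R hR
      simp only [e1, e2]
      rw [ind_false (fun h => hcM h.1)]
    rw [h1, Ex_const]
    linarith

private theorem NearOne_near (F : Finset (Finset V)) (t : ℕ) (v : V) (f S : Finset V) :
    near (res F S) t v f = (near F t v f).filter (fun g => Disjoint g S) := by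
  unfold near res
  rw [filter_filter, filter_filter]
  apply filter_congr
  intro g _
  exact ⟨fun h => ⟨h.2, h.1⟩, fun h => ⟨h.2, h.1⟩⟩

private theorem NearOne_card (F : Finset (Finset V)) (t : ℕ) (v : V) (f S : Finset V) :
    deg (res F S) v + ((near F t v f).filter (fun g => Disjoint g (S \ f))).card ≤
      deg (res F (S \ f)) v + ((near F t v f).filter (fun g => Disjoint g S)).card := by
  unfold deg
  rw [← card_union_add_card_inter]
  apply Nat.add_le_add
  · apply card_le_card
    intro g hg
    rw [mem_union] at hg
    rw [mem_filter]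
    rcases hg with hg | hg
    · rw [mem_filter] at hg
      unfold res at hg ⊢
      rw [mem_filter] at hg ⊢
      exact ⟨⟨hg.1.1, disjoint_of_subset_right sdiff_subset hg.1.2⟩, hg.2⟩
    · rw [mem_filter] at hg
      have h1 := mem_filter.1 hg.1
      exact ⟨mem_filter.2 ⟨h1.1, hg.2⟩, h1.2.1⟩
  · apply card_le_card
    intro g hg
    rw [mem_inter, mem_filter, mem_filter] at hg
    rw [mem_filter]
    exact ⟨hg.2.1, (mem_filter.1 hg.1.1).2⟩

theorem near_one {k t : ℕ} {r η d κ : ℝ} (hr0 : 0 ≤ r) (hr1 : r < 1)
    (hη : (1 - r) ^ (t + 1) ≤ η) (hd : 0 < d) (hκ : 0 < κ) (F : Finset (Finset V))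
    (hF : Unif k F) (v : V) (f : Finset V) (hf : f ∈ F) (hv : v ∈ f) :
    PP r (fun S => Disjoint f S ∧ κ * d < ((near (res F S) t v f).card : ℝ)) ≤
      (1 - r) ^ k * (2 * η + PP r (fun S => (1 + κ / 4) * d ≤ (deg (res F (S \ f)) v : ℝ))
        + PP r (fun S => (deg (res F S) v : ℝ) < (1 - κ / 4) * d)) := by
  have h1 : PP r (fun S => Disjoint f S ∧ κ * d < ((near (res F S) t v f).card : ℝ)) =
      EE r (fun S => ind (Disjoint f S) *
        (fun S => ind (κ * d < ((near (res F S) t v f).card : ℝ))) S) := by
    unfold PP
    congr 1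
    funext S
    exact ind_and _ _
  rw [h1, EE_disj, hF f hf]
  apply mul_le_mul_of_nonneg_left _ (pow_nonneg (by linarith) _)
  have h2 := markov_near hr0 hr1 hη (mul_pos hκ hd).le F v f
  have h3 : EE r (fun S => ind (κ * d < ((near (res F (S \ f)) t v f).card : ℝ))) ≤
      EE r (fun S => ind (κ * d < (((near F t v f).filter (fun g => Disjoint g (S \ f))).card : ℝ) ∧
        ((near F t v f).filter (fun g => Disjoint g (S \ f))).card ≤
          2 * ((near F t v f).filter (fun g => Disjoint g S)).card) +
        (ind ((1 + κ / 4) * d ≤ (deg (res F (S \ f)) v : ℝ)) +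
          ind ((deg (res F S) v : ℝ) < (1 - κ / 4) * d))) := by
    apply EE_mono hr0 hr1.le
    intro S
    rw [NearOne_near]
    by_cases hA : κ * d < (((near F t v f).filter (fun g => Disjoint g (S \ f))).card : ℝ)
    · by_cases hB : ((near F t v f).filter (fun g => Disjoint g (S \ f))).card ≤
          2 * ((near F t v f).filter (fun g => Disjoint g S)).card
      · rw [ind_true hA, ind_true (And.intro hA hB)]
        have := ind_nonneg ((1 + κ / 4) * d ≤ (deg (res F (S \ f)) v : ℝ))
        have := ind_nonneg ((deg (res F S) v : ℝ) < (1 - κ / 4) * d)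
        linarith
      · by_cases hC : (deg (res F S) v : ℝ) < (1 - κ / 4) * d
        · rw [ind_true hA, ind_true hC]
          have := ind_nonneg ((1 + κ / 4) * d ≤ (deg (res F (S \ f)) v : ℝ))
          have := ind_nonneg
            (κ * d < (((near F t v f).filter (fun g => Disjoint g (S \ f))).card : ℝ) ∧
            ((near F t v f).filter (fun g => Disjoint g (S \ f))).card ≤
              2 * ((near F t v f).filter (fun g => Disjoint g S)).card)
          linarith
        · have hD : (1 + κ / 4) * d ≤ (deg (res F (S \ f)) v : ℝ) := by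
            push Not at hB hC
            have h4 := NearOne_card F t v f S
            have h5 : (deg (res F S) v : ℝ) +
                (((near F t v f).filter (fun g => Disjoint g (S \ f))).card : ℝ) ≤
                (deg (res F (S \ f)) v : ℝ) +
                  (((near F t v f).filter (fun g => Disjoint g S)).card : ℝ) := by
              exact_mod_cast h4
            have h6 : 2 * (((near F t v f).filter (fun g => Disjoint g S)).card : ℝ) <
                (((near F t v f).filter (fun g => Disjoint g (S \ f))).card : ℝ) := by
              exact_mod_cast hB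
            nlinarith [mul_pos hκ hd]
          rw [ind_true hA, ind_true hD]
          have := ind_nonneg ((deg (res F S) v : ℝ) < (1 - κ / 4) * d)
          have := ind_nonneg
            (κ * d < (((near F t v f).filter (fun g => Disjoint g (S \ f))).card : ℝ) ∧
            ((near F t v f).filter (fun g => Disjoint g (S \ f))).card ≤
              2 * ((near F t v f).filter (fun g => Disjoint g S)).card)
          linarith
    · rw [ind_false hA]
      have := ind_nonneg ((1 + κ / 4) * d ≤ (deg (res F (S \ f)) v : ℝ))
      have := ind_nonneg ((deg (res F S) v : ℝ) < (1 - κ / 4) * d)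
      have := ind_nonneg
        (κ * d < (((near F t v f).filter (fun g => Disjoint g (S \ f))).card : ℝ) ∧
        ((near F t v f).filter (fun g => Disjoint g (S \ f))).card ≤
          2 * ((near F t v f).filter (fun g => Disjoint g S)).card)
      linarith
  refine h3.trans ?_
  unfold EE
  rw [Ex_add, Ex_add]
  unfold PP EE at h2 ⊢
  linarith

end Pool.Agent.DCX
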