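import Pool.Agent.DCX.TTBasic

/-!
The number of edges which are not fine, Section (4.3) of turT31.md. If `e ∈ F` is not fine, more than
`k / 8` vertices `v ∈ e` are not `Good`. Such an incidence `(v, e)` has more than `κ d` near edges
(counted by `Nb`), or `e ∈ TT F t (κ d) v`; in the latter case `v` is not usable (at most
`exp (-M) d / 16` edges for each `v`) or `e` is unlucky for `v` (at most `8 j κ d` edges).
-/

namespace Pool.Agent.DCX

open Finset

variable {V : Type} [Fintype V] [DecidableEq V]

private theorem NonFine_edge {F : Finset (Finset V)} {t j k : ℕ} {c b r : ℝ} {e : Finset V}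
    (he : e.card = k) :
    (k : ℝ) * ind (¬ Fine F t c b r j k e) ≤ 8 * ∑ v ∈ e, ind (¬ Good F t c b r j v e) := by
  classical
  by_cases hf : Fine F t c b r j k e
  · rw [ind_false (not_not.2 hf), mul_zero]
    exact mul_nonneg (by norm_num) (Finset.sum_nonneg fun v _ => ind_nonneg _)
  · rw [ind_true hf, mul_one]
    have h1 : ∑ v ∈ e, ind (¬ Good F t c b r j v e) =
        ((e.filter fun v => ¬ Good F t c b r j v e).card : ℝ) := by
      rw [Finset.card_filter, Nat.cast_sum]
      refine Finset.sum_congr rfl fun v _ => ?_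
      by_cases h : Good F t c b r j v e
      · rw [ind_false (not_not.2 h), if_neg (not_not.2 h), Nat.cast_zero]
      · rw [ind_true h, if_pos h, Nat.cast_one]
    have h2 : (goodSet F t c b r j e).card + (e.filter fun v => ¬ Good F t c b r j v e).card =
        k := by
      rw [← he, ← Finset.card_filter_add_card_filter_not (s := e)
        (fun v => Good F t c b r j v e)]
      unfold goodSet
      congr!
    have h3 : ((goodSet F t c b r j e).card : ℝ) < 7 / 8 * (k : ℝ) := not_le.1 hf
    have h4 : ((goodSet F t c b r j e).card : ℝ) +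
        ((e.filter fun v => ¬ Good F t c b r j v e).card : ℝ) = k := by
      exact_mod_cast h2
    rw [h1]
    linarith

private theorem NonFine_swap (F : Finset (Finset V)) (f : V → Finset V → ℝ) :
    ∑ e ∈ F, ∑ v ∈ e, f v e = ∑ v : V, ∑ e ∈ F.filter (fun e => v ∈ e), f v e := by
  classical
  have h1 : ∀ e ∈ F, ∑ v ∈ e, f v e = ∑ v : V, if v ∈ e then f v e else 0 := by
    intro e _
    rw [← Finset.sum_filter]
    congr 1
    ext v
    simp
  rw [Finset.sum_congr rfl h1, Finset.sum_comm]
  refine Finset.sum_congr rfl fun v _ => ?_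
  rw [Finset.sum_filter]

private theorem NonFine_vertex {F : Finset (Finset V)} {k t j : ℕ} {M d κ r : ℝ}
    (h : Hyp V F k t j M d κ r) (v : V) :
    ∑ e ∈ F.filter (fun e => v ∈ e),
        ind (¬ Good F t (κ * d) (Real.exp (-M) * d / 16) r j v e) ≤
      ∑ e ∈ F.filter (fun e => v ∈ e), ind (κ * d < ((near F t v e).card : ℝ)) +
        (Real.exp (-M) * d / 16 + 8 * (j : ℝ) * (κ * d)) := by
  classical
  have hd0 : 0 < d := lt_of_lt_of_le (Real.exp_pos M) h.hd
  have hb0 : 0 ≤ Real.exp (-M) * d / 16 := by
    have := Real.exp_pos (-M)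
    positivity
  have hc0 : 0 ≤ κ * d := mul_nonneg h.hκ0.le hd0.le
  have hj0 : 0 ≤ 8 * (j : ℝ) * (κ * d) := by positivity
  set c := κ * d with hc
  set b := Real.exp (-M) * d / 16 with hb
  -- a bound for the part with `e ∈ TT`
  have key : ∀ g : Finset V → ℝ, (∀ e, 0 ≤ g e) →
      (∀ e ∈ F, v ∈ e → ind (¬ Good F t c b r j v e) ≤
        ind (c < ((near F t v e).card : ℝ)) + if e ∈ TT F t c v then g e else 0) →
      ∑ e ∈ F.filter (fun e => v ∈ e), ind (¬ Good F t c b r j v e) ≤
        ∑ e ∈ F.filter (fun e => v ∈ e), ind (c < ((near F t v e).card : ℝ)) +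
          ∑ e ∈ TT F t c v, g e := by
    intro g hg h1
    have h2 : ∑ e ∈ F.filter (fun e => v ∈ e), ind (¬ Good F t c b r j v e) ≤
        ∑ e ∈ F.filter (fun e => v ∈ e), (ind (c < ((near F t v e).card : ℝ)) +
          if e ∈ TT F t c v then g e else 0) :=
      Finset.sum_le_sum fun e he => h1 e (Finset.mem_filter.1 he).1 (Finset.mem_filter.1 he).2
    rw [Finset.sum_add_distrib, ← Finset.sum_filter] at h2
    refine h2.trans (add_le_add_right (Finset.sum_le_sum_of_subset_of_nonneg ?_ fun e _ _ => hg e) _)
    intro e he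
    exact (Finset.mem_filter.1 he).2
  have hTT : ∀ e ∈ F, v ∈ e → e ∉ TT F t c v → c < ((near F t v e).card : ℝ) := by
    intro e he hve hne
    by_contra hcn
    apply hne
    unfold TT
    exact Finset.mem_filter.2 ⟨he, hve, not_lt.1 hcn⟩
  by_cases hu : Usable F t c b v
  · have h1 := key (fun e => ind (PP r (Has (far (TT F t c v) t e) v t j) <
        7 / 8 * PP r (Has (TT F t c v) v t j))) (fun e => ind_nonneg _) ?_
    · have h2 := unlucky (T := TT F t c v) (v := v) (t := t) (j := j) (c := c) h.hr0 h.hr1.le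
        TT_near (aa_pos h v hu)
      linarith
    · intro e he hve
      by_cases hg : Good F t c b r j v e
      · rw [ind_false (not_not.2 hg)]
        refine add_nonneg (ind_nonneg _) ?_
        split_ifs
        · exact ind_nonneg _
        · exact le_rfl
      · rw [ind_true hg]
        by_cases het : e ∈ TT F t c v
        · rw [if_pos het]
          have h3 : PP r (Has (far (TT F t c v) t e) v t j) <
              7 / 8 * PP r (Has (TT F t c v) v t j) := by
            by_contra hcn
            exact hg ⟨hve, hu, het, not_lt.1 hcn⟩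
          rw [ind_true h3]
          have := ind_nonneg (c < ((near F t v e).card : ℝ))
          linarith
        · rw [if_neg het, ind_true (hTT e he hve het), add_zero]
  · have h1 := key (fun _ => 1) (fun _ => zero_le_one) ?_
    · have h2 : ((TT F t c v).card : ℝ) < b := not_le.1 hu
      rw [Finset.sum_const, nsmul_eq_mul, mul_one] at h1
      linarith
    · intro e he hve
      by_cases het : e ∈ TT F t c v
      · rw [if_pos het]
        have := ind_nonneg (c < ((near F t v e).card : ℝ))
        have := ind_le_one (¬ Good F t c b r j v e)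
        linarith
      · rw [if_neg het, ind_true (hTT e he hve het), add_zero]
        exact ind_le_one _

theorem nonfine {F : Finset (Finset V)} {k t j : ℕ} {M d κ r : ℝ} (h : Hyp V F k t j M d κ r) :
    (k : ℝ) * ∑ e ∈ F, ind (¬ Fine F t (κ * d) (Real.exp (-M) * d / 16) r j k e) ≤
      8 * (Nb F t (κ * d) + Real.exp (-M) * d / 16 * (Fintype.card V : ℝ)
        + 8 * (j : ℝ) * (κ * d) * (Fintype.card V : ℝ)) := by
  have h1 : (k : ℝ) * ∑ e ∈ F, ind (¬ Fine F t (κ * d) (Real.exp (-M) * d / 16) r j k e) ≤
      8 * ∑ e ∈ F, ∑ v ∈ e, ind (¬ Good F t (κ * d) (Real.exp (-M) * d / 16) r j v e) := by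
    rw [Finset.mul_sum, Finset.mul_sum]
    exact Finset.sum_le_sum fun e he => NonFine_edge (h.unif e he)
  have h2 : ∑ v : V, ∑ e ∈ F.filter (fun e => v ∈ e),
        ind (¬ Good F t (κ * d) (Real.exp (-M) * d / 16) r j v e) ≤
      ∑ v : V, (∑ e ∈ F.filter (fun e => v ∈ e), ind (κ * d < ((near F t v e).card : ℝ)) +
        (Real.exp (-M) * d / 16 + 8 * (j : ℝ) * (κ * d))) :=
    Finset.sum_le_sum fun v _ => NonFine_vertex h v
  rw [Finset.sum_add_distrib, Finset.sum_const, nsmul_eq_mul, Finset.card_univ] at h2
  rw [NonFine_swap F fun v e =>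
    ind (¬ Good F t (κ * d) (Real.exp (-M) * d / 16) r j v e)] at h1
  unfold Nb
  linarith

end Pool.Agent.DCX
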