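import Pool.Agent.DCX.RoundOne

/-!
TUR-Round. The round with the choice of constants (Section 5 of turT31.md) and its iteration (Theorem H).
-/

namespace Pool.Agent.DCX

open Finset

variable {V : Type} [Fintype V] [DecidableEq V]

private theorem Round_pow {r y θ η : ℝ} {k t : ℕ} (hk : 1 ≤ k) (hr1 : r < 1)
    (hrk : (1 - r) ^ k = y) (hy0 : 0 < y) (hy1 : y ≤ 1) (hθ : 0 < θ)
    (ht : θ * (k : ℝ) ≤ (t : ℝ) + 1) (hη0 : 0 < η) (hyη : y ≤ η ^ (1 / θ)) :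
    (1 - r) ^ (t + 1) ≤ η := by
  have hk0 : (0 : ℝ) < (k : ℝ) := by exact_mod_cast (by omega : 0 < k)
  have h1r : 0 < 1 - r := by linarith
  have e1 : (1 - r) ^ (t + 1) = y ^ (((t : ℝ) + 1) / (k : ℝ)) := by
    rw [← hrk, ← Real.rpow_natCast (1 - r) k, ← Real.rpow_mul h1r.le,
      ← Real.rpow_natCast (1 - r) (t + 1)]
    congr 1
    push_cast
    field_simp
  rw [e1]
  have h2 : θ ≤ ((t : ℝ) + 1) / (k : ℝ) := by
    rw [le_div_iff₀ hk0]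
    exact ht
  have h3 : y ^ (((t : ℝ) + 1) / (k : ℝ)) ≤ y ^ θ :=
    Real.rpow_le_rpow_of_exponent_ge hy0 hy1 h2
  have h4 : y ^ θ ≤ (η ^ (1 / θ)) ^ θ := Real.rpow_le_rpow hy0.le hyη hθ.le
  have h5 : (η ^ (1 / θ)) ^ θ = η := by
    rw [← Real.rpow_mul hη0.le]
    have : 1 / θ * θ = 1 := by field_simp
    rw [this, Real.rpow_one]
  linarith

private theorem Round_small {κ β : ℝ} (hκ0 : 0 < κ) (hκ1 : κ ≤ 1) (hβ0 : 0 < β) (hβ1 : β ≤ 1) :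
    2 * (β / 16) + 2 * (16 * ((κ * β / 64) ^ 2 * κ * β / 1024) / (κ * β / 64) ^ 2)
      + 8 / κ * (κ * β / 64 + 16 * ((κ * β / 64) ^ 2 * κ * β / 1024) / (κ * β / 64) ^ 2
        + (κ * β / 64) ^ 2 * κ * β / 1024) ≤ β := by
  have e1 : 16 * ((κ * β / 64) ^ 2 * κ * β / 1024) / (κ * β / 64) ^ 2 = κ * β / 64 := by
    field_simp
    ring
  rw [e1]
  have e2 : 8 / κ * (κ * β / 64 + κ * β / 64 + (κ * β / 64) ^ 2 * κ * β / 1024)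
      = β / 4 + (κ * β / 64) ^ 2 * β / 128 := by
    field_simp
    ring
  rw [e2]
  have h1 : κ * β ≤ 1 := by nlinarith
  have h2 : 0 < κ * β := by positivity
  have h3 : (κ * β / 64) ^ 2 ≤ 1 := by nlinarith
  have h4 : (κ * β / 64) ^ 2 * β ≤ 1 * β := mul_le_mul_of_nonneg_right h3 hβ0.le
  have h5 : κ * β ≤ 1 * β := mul_le_mul_of_nonneg_right hκ1 hβ0.le
  linarith

theorem round_step (K : ℝ) (hK : 0 ≤ K) : ∃ δ : ℝ, 0 < δ ∧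
    ∀ (C D₁ : ℝ) (k₁ : ℕ), 1 ≤ D₁ →
      (∀ k : ℕ, k₁ ≤ k → ∀ n : ℕ, Sb (Fin n) k C D₁) →
      ∃ (D₂ : ℝ) (k₂ : ℕ), 1 ≤ D₂ ∧
        ∀ k : ℕ, k₂ ≤ k → ∀ n : ℕ, Sb (Fin n) k (max (C - δ) (-K)) D₂ := by
  obtain ⟨M, hM⟩ : ∃ M : ℝ, M = K + 8 := ⟨_, rfl⟩
  have hM1 : 1 ≤ M := by linarith
  obtain ⟨j, hj⟩ : ∃ j : ℕ, 4 * M * Real.exp M ≤ (j : ℝ) + 1 := by
    refine ⟨⌈4 * M * Real.exp M⌉₊, ?_⟩
    have := Nat.le_ceil (4 * M * Real.exp M)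
    linarith
  have hj0 : (0 : ℝ) ≤ (j : ℝ) := Nat.cast_nonneg j
  have hE0 : 0 < Real.exp (-M) := Real.exp_pos _
  have hE1 : Real.exp (-M) ≤ 1 := Real.exp_le_one_iff.2 (by linarith)
  obtain ⟨κ, hκ⟩ : ∃ κ : ℝ, κ = Real.exp (-M) / (128 * ((j : ℝ) + 1)) := ⟨_, rfl⟩
  have hden : (0 : ℝ) < 128 * ((j : ℝ) + 1) := by positivity
  have hκ0 : 0 < κ := by rw [hκ]; positivity
  have hκm : κ * (128 * ((j : ℝ) + 1)) = Real.exp (-M) := by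
    rw [hκ]; field_simp
  have hκ1 : κ ≤ 1 := by
    rw [hκ, div_le_one hden]
    linarith
  obtain ⟨β, hβ⟩ : ∃ β : ℝ, β = Real.exp (-M) / 8 := ⟨_, rfl⟩
  have hβ0 : 0 < β := by rw [hβ]; positivity
  have hβ1 : β ≤ 1 := by rw [hβ]; linarith
  have hβM : 8 * Real.exp M * β = 1 := by
    rw [hβ]
    have : Real.exp M * Real.exp (-M) = 1 := by rw [← Real.exp_add]; simp
    linear_combination this
  obtain ⟨ε₀, hε⟩ : ∃ ε₀ : ℝ, ε₀ = κ * β / 64 := ⟨_, rfl⟩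
  have hε0 : 0 < ε₀ := by rw [hε]; positivity
  have hε1 : ε₀ ≤ κ / 4 := by
    rw [hε]
    nlinarith
  obtain ⟨δ, hδ⟩ : ∃ δ : ℝ, δ = ε₀ ^ 2 * κ * β / 1024 := ⟨_, rfl⟩
  have hδ0 : 0 < δ := by rw [hδ]; positivity
  obtain ⟨η, hη⟩ : ∃ η : ℝ, η = β / 16 := ⟨_, rfl⟩
  have hη0 : 0 < η := by rw [hη]; positivity
  have hη1 : η ≤ 1 := by rw [hη]; linarith
  have hsmall : 2 * η + 2 * (16 * δ / ε₀ ^ 2) + 8 / κ * (ε₀ + 16 * δ / ε₀ ^ 2 + δ) ≤ β := by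
    rw [hη, hδ, hε]
    exact Round_small hκ0 hκ1 hβ0 hβ1
  refine ⟨δ, hδ0, ?_⟩
  intro C D₁ k₁ hD₁ hSb
  obtain ⟨d, hd⟩ : ∃ d : ℝ, d = max (Real.exp 1 * D₁) (Real.exp M) := ⟨_, rfl⟩
  have hd1 : Real.exp 1 * D₁ ≤ d := by rw [hd]; exact le_max_left _ _
  have hd2 : Real.exp M ≤ d := by rw [hd]; exact le_max_right _ _
  have hdone : 1 ≤ d := le_trans (Real.one_le_exp (by linarith)) hd2
  have hd0 : 0 < d := by linarith
  obtain ⟨θ, hθ, k₀, hcf⟩ := cover_full (M := M) (d := d) (κ := κ) (j := j) hM1 hd2 hj hκ0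
    hκm.le
  obtain ⟨D₂, hD₂⟩ : ∃ D₂ : ℝ, D₂ = max (Real.exp 1 * D₁) (d / η ^ (1 / θ)) := ⟨_, rfl⟩
  have hηp : 0 < η ^ (1 / θ) := Real.rpow_pos_of_pos hη0 _
  have hηp1 : η ^ (1 / θ) ≤ 1 := Real.rpow_le_one hη0.le hη1 (by positivity)
  have hD2a : Real.exp 1 * D₁ ≤ D₂ := by rw [hD₂]; exact le_max_left _ _
  have hD2b : d / η ^ (1 / θ) ≤ D₂ := by rw [hD₂]; exact le_max_right _ _
  have hD2d : d ≤ D₂ := by
    refine le_trans ?_ hD2b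
    rw [le_div_iff₀ hηp]
    nlinarith
  refine ⟨D₂, max (max k₁ k₀) 1, by linarith, ?_⟩
  intro k hk n x hx F hF hFx
  have hk1 : k₁ ≤ k := le_trans (le_trans (le_max_left _ _) (le_max_left _ _)) hk
  have hk0 : k₀ ≤ k := le_trans (le_trans (le_max_right _ _) (le_max_left _ _)) hk
  have hkone : 1 ≤ k := le_trans (le_max_right _ _) hk
  have hdx : d ≤ x := le_trans hD2d hx
  have hx0 : 0 < x := by linarith
  have hy0 : 0 < d / x := by positivity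
  have hy1 : d / x ≤ 1 := by rw [div_le_one hx0]; exact hdx
  obtain ⟨r, hr0, hr1, hrk, hkr⟩ := exists_rate (k := k) hkone hy0 hy1
  have hlog : -Real.log (d / x) = Real.log x - Real.log d := by
    rw [Real.log_div hd0.ne' hx0.ne']; ring
  rw [hlog] at hkr
  have hyη : d / x ≤ η ^ (1 / θ) := by
    rw [div_le_iff₀ hx0]
    have := le_trans hD2b hx
    rw [div_le_iff₀ hηp] at this
    linarith
  have hfl : θ * (k : ℝ) ≤ ((⌊θ * (k : ℝ)⌋₊ : ℕ) : ℝ) + 1 := (Nat.lt_floor_add_one _).le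
  have hfl2 : ((⌊θ * (k : ℝ)⌋₊ : ℕ) : ℝ) ≤ θ * (k : ℝ) := Nat.floor_le (by positivity)
  have hηt := Round_pow (k := k) (t := ⌊θ * (k : ℝ)⌋₊) hkone hr1 hrk hy0 hy1 hθ hfl hη0 hyη
  exact round_one (V := Fin n) (k := k) (t := ⌊θ * (k : ℝ)⌋₊) hkone hM hd0 hdx (by linarith)
    (Lin_of_Sb hD₁ (hSb k hk1 n) (le_trans hD2a hx)) (Lin_of_Sb hD₁ (hSb k hk1 n) hd1)
    hκ0 hκ1 hε0 hε1 hδ0 hη0 hηt hβM hsmall hr0 hr1 hrk hkr
    (fun G hG => hcf k hk0 _ hfl2 (Fin n) G hG) F hF hFx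

/-- Theorem H -/
theorem main_H (K : ℝ) (hK : 0 ≤ K) : ∃ (D : ℝ) (k₀ : ℕ), 1 ≤ D ∧
    ∀ k : ℕ, k₀ ≤ k → ∀ n : ℕ, Sb (Fin n) k (-K) D := by
  obtain ⟨δ, hδ, hstep⟩ := round_step K hK
  have key : ∀ m : ℕ, ∃ (D : ℝ) (k₀ : ℕ), 1 ≤ D ∧
      ∀ k : ℕ, k₀ ≤ k → ∀ n : ℕ, Sb (Fin n) k (max (1 - (m : ℝ) * δ) (-K)) D := by
    intro m
    induction m with
    | zero =>
      refine ⟨1, 1, le_rfl, fun k hk n => ?_⟩
      exact Sb_mono (by simp) le_rfl (Sb_base hk)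
    | succ m ih =>
      obtain ⟨D, k₀, hD, h⟩ := ih
      obtain ⟨D₂, k₂, hD₂, h2⟩ := hstep _ D k₀ hD h
      refine ⟨D₂, k₂, hD₂, fun k hk n => ?_⟩
      refine Sb_mono ?_ le_rfl (h2 k hk n)
      refine max_le ?_ (le_max_right _ _)
      have e : max (1 - (m : ℝ) * δ) (-K) - δ = max (1 - (m : ℝ) * δ - δ) (-K - δ) := by
        rw [max_sub_sub_right]
      rw [e]
      refine max_le_max ?_ (by linarith)
      push_cast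
      linarith
  obtain ⟨m, hm⟩ := exists_nat_gt ((1 + K) / δ)
  obtain ⟨D, k₀, hD, h⟩ := key m
  refine ⟨D, k₀, hD, fun k hk n => ?_⟩
  refine Sb_mono ?_ le_rfl (h k hk n)
  refine max_le ?_ le_rfl
  rw [div_lt_iff₀ hδ] at hm
  linarith

end Pool.Agent.DCX
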