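import Pool.Agent.DCX.CoverFull
import Pool.Agent.DCX.Gain
import Pool.Agent.DCX.NearCount

/-!
TUR-RoundOne. Section 5 of turT31.md for fixed `k`, `V`, with explicit hypotheses. With `ε' = 16 δ / ε₀²`: if `k |F| ≤ (1 - δ) x n` or
`ε' x n ≤ um F ((1+ε₀) x)` then `gain` at `x` is enough, if `ε' d n ≤ E um (res F S) ((1+ε₀) d)` then `rand_gain`; otherwise
`E Nb ≤ n d (2η + 2ε' + (8/κ)(ε₀ + ε' + δ)) ≤ β n d` by `near_count` and `low_tail`, and a random step followed by `hcov` is enough.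
-/

namespace Pool.Agent.DCX

open Finset

variable {V : Type} [Fintype V] [DecidableEq V]

private theorem RoundOne_um_nonneg (F : Finset (Finset V)) (y : ℝ) : 0 ≤ um F y :=
  Finset.sum_nonneg fun _ _ => mul_nonneg (Nat.cast_nonneg _) (ind_nonneg _)

private theorem RoundOne_step {k : ℕ} {r : ℝ} (hr0 : 0 ≤ r) (hr1 : r < 1) (F : Finset (Finset V))
    (g : Finset V → ℝ) (hg : ∀ S, (k : ℝ) * (tau (res F S) : ℝ) ≤ g S) :
    (k : ℝ) * (tau F : ℝ) ≤ (k : ℝ) * r * (Fintype.card V : ℝ) + EE r g := by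
  have h1 := tau_le_Ex_step (p := fun _ : V => r) (fun _ => hr0) (fun _ => hr1.le) F
  have h2 : (k : ℝ) * Ex (univ : Finset V) (fun _ => r) (fun S => (tau (res F S) : ℝ)) ≤ EE r g := by
    rw [← Ex_mul_left]
    exact EE_mono hr0 hr1.le hg
  have h3 : ∑ _v : V, r = r * (Fintype.card V : ℝ) := by
    rw [sum_const, card_univ, nsmul_eq_mul, mul_comm]
  rw [h3] at h1
  have h4 := mul_le_mul_of_nonneg_left h1 (Nat.cast_nonneg (α := ℝ) k)
  calc (k : ℝ) * (tau F : ℝ) ≤ (k : ℝ) * (r * (Fintype.card V : ℝ) +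
        Ex (univ : Finset V) (fun _ => r) (fun S => (tau (res F S) : ℝ))) := h4
    _ = (k : ℝ) * r * (Fintype.card V : ℝ) +
        (k : ℝ) * Ex (univ : Finset V) (fun _ => r) (fun S => (tau (res F S) : ℝ)) := by ring
    _ ≤ _ := by linarith

private theorem RoundOne_card {k : ℕ} {r : ℝ} (F : Finset (Finset V)) (hF : Unif k F) :
    EE r (fun S => ((res F S).card : ℝ)) = (F.card : ℝ) * (1 - r) ^ k := by
  rw [EE_card_res, Finset.sum_congr rfl fun e he => by rw [hF e he], sum_const, nsmul_eq_mul]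

private theorem RoundOne_low {k : ℕ} {κ d x ε₀ r : ℝ} (hd : 0 < d) (hx : 0 < x)
    (hκ0 : 0 < κ) (hκ1 : κ ≤ 1) (hε0 : 0 < ε₀) (hr0 : 0 ≤ r) (hr1 : r < 1)
    (hrk : (1 - r) ^ k = d / x) (F : Finset (Finset V)) (hF : Unif k F) :
    κ / 4 * ∑ v : V, PP r (fun S => (deg (res F S) v : ℝ) < (1 - κ / 4) * d) ≤
      ε₀ * (Fintype.card V : ℝ) + EE r (fun S => um (res F S) ((1 + ε₀) * d)) / d +
        (Fintype.card V : ℝ) - (k : ℝ) * (F.card : ℝ) / x := by
  have h1 : κ / 4 * ∑ v : V, PP r (fun S => (deg (res F S) v : ℝ) < (1 - κ / 4) * d) =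
      EE r (fun S => κ / 4 * ∑ v : V, ind ((deg (res F S) v : ℝ) < (1 - κ / 4) * d)) := by
    unfold PP EE
    rw [Ex_mul_left, Ex_sum]
  have h2 : EE r (fun S => κ / 4 * ∑ v : V, ind ((deg (res F S) v : ℝ) < (1 - κ / 4) * d)) ≤
      EE r (fun S => (ε₀ * (Fintype.card V : ℝ) + (Fintype.card V : ℝ)) +
        (1 / d * um (res F S) ((1 + ε₀) * d) - (k : ℝ) / d * ((res F S).card : ℝ))) := by
    refine EE_mono hr0 hr1.le fun S => ?_
    have := low_tail (a := κ / 4) (by positivity) (by linarith) hε0.le hd (res F S) (res_unif hF S)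
    refine this.trans (le_of_eq ?_)
    ring
  rw [h1]
  refine h2.trans (le_of_eq ?_)
  have h3 : EE r (fun S => (ε₀ * (Fintype.card V : ℝ) + (Fintype.card V : ℝ)) +
        (1 / d * um (res F S) ((1 + ε₀) * d) - (k : ℝ) / d * ((res F S).card : ℝ))) =
      (ε₀ * (Fintype.card V : ℝ) + (Fintype.card V : ℝ)) +
        (1 / d * EE r (fun S => um (res F S) ((1 + ε₀) * d)) -
          (k : ℝ) / d * EE r (fun S => ((res F S).card : ℝ))) := by
    unfold EE
    rw [Ex_add, Ex_const, Ex_sub, Ex_mul_left, Ex_mul_left]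
  rw [h3, RoundOne_card F hF, hrk]
  field_simp
  ring

theorem round_one {k t : ℕ} (hk : 1 ≤ k) {C K M d x κ ε₀ δ η β r : ℝ} (hM : M = K + 8)
    (hd : 0 < d) (hdx : d ≤ x) (hx1 : 1 ≤ x) (hLx : Lin V k C x) (hLd : Lin V k C d)
    (hκ0 : 0 < κ) (hκ1 : κ ≤ 1) (hε0 : 0 < ε₀) (hε1 : ε₀ ≤ κ / 4) (hδ : 0 < δ)
    (hη0 : 0 < η) (hη : (1 - r) ^ (t + 1) ≤ η)
    (hβ : 8 * Real.exp M * β = 1)
    (hsmall : 2 * η + 2 * (16 * δ / ε₀ ^ 2) + 8 / κ * (ε₀ + 16 * δ / ε₀ ^ 2 + δ) ≤ β)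
    (hr0 : 0 ≤ r) (hr1 : r < 1) (hrk : (1 - r) ^ k = d / x)
    (hkr : (k : ℝ) * r ≤ Real.log x - Real.log d)
    (hcov : ∀ G : Finset (Finset V), Unif k G →
      (k : ℝ) * (tau G : ℝ) ≤
        (Real.log d - M + 2) * (Fintype.card V : ℝ) + 8 * Real.exp M * Nb G t (κ * d) / d
          + 3 * ((k : ℝ) * (G.card : ℝ)) / d)
    (F : Finset (Finset V)) (hF : Unif k F)
    (hFx : (k : ℝ) * (F.card : ℝ) ≤ x * (Fintype.card V : ℝ)) :
    (k : ℝ) * (tau F : ℝ) ≤ (Real.log x + max (C - δ) (-K)) * (Fintype.card V : ℝ) := by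
  have hx0 : 0 < x := hd.trans_le hdx
  set N : ℝ := (Fintype.card V : ℝ) with hN
  have hN0 : 0 ≤ N := Nat.cast_nonneg _
  have hε1' : ε₀ ≤ 1 := by linarith
  set ep : ℝ := 16 * δ / ε₀ ^ 2 with hep
  have hep1 : ε₀ ^ 2 / 16 * ep = δ := by
    rw [hep]
    field_simp
  have hep0 : 0 ≤ ep := by positivity
  set kF : ℝ := (k : ℝ) * (F.card : ℝ) with hkF
  have hkF0 : 0 ≤ kF := by positivity
  have hkFx : kF / x ≤ N := by
    rw [div_le_iff₀ hx0, mul_comm]
    exact hFx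
  have hga := gain hk hx0 hLx hε0 hε1' F hF
  have hgb := rand_gain hk hd hdx hLd hε0 hε1' hr0 hr1 hrk hkr F hF
  have hum0 : 0 ≤ um F ((1 + ε₀) * x) := RoundOne_um_nonneg _ _
  -- it is enough to have the bound with `C - δ`
  have hC : (k : ℝ) * (tau F : ℝ) ≤ (Real.log x + (C - δ)) * N →
      (k : ℝ) * (tau F : ℝ) ≤ (Real.log x + max (C - δ) (-K)) * N := fun h =>
    h.trans (mul_le_mul_of_nonneg_right (by linarith [le_max_left (C - δ) (-K)]) hN0)
  by_cases h1 : kF / x ≤ (1 - δ) * N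
  · refine hC ?_
    have h2 : 0 ≤ ε₀ ^ 2 / 16 * um F ((1 + ε₀) * x) / x := by positivity
    linarith
  by_cases h2 : ep * N ≤ um F ((1 + ε₀) * x) / x
  · refine hC ?_
    have h3 := mul_le_mul_of_nonneg_left h2 (show 0 ≤ ε₀ ^ 2 / 16 by positivity)
    rw [← mul_assoc, hep1] at h3
    have h4 : ε₀ ^ 2 / 16 * um F ((1 + ε₀) * x) / x = ε₀ ^ 2 / 16 * (um F ((1 + ε₀) * x) / x) := by
      ring
    rw [h4] at hga
    linarith
  by_cases h3 : ep * N ≤ EE r (fun S => um (res F S) ((1 + ε₀) * d)) / d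
  · refine hC ?_
    have h4 := mul_le_mul_of_nonneg_left h3 (show 0 ≤ ε₀ ^ 2 / 16 by positivity)
    rw [← mul_assoc, hep1] at h4
    have h5 : ε₀ ^ 2 / 16 * EE r (fun S => um (res F S) ((1 + ε₀) * d)) / d =
        ε₀ ^ 2 / 16 * (EE r (fun S => um (res F S) ((1 + ε₀) * d)) / d) := by
      ring
    rw [h5] at hgb
    linarith
  push Not at h1 h2 h3
  -- the number of incidences with many near edges
  have hlow := RoundOne_low (k := k) hd hx0 hκ0 hκ1 hε0 hr0 hr1 hrk F hF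
  have hnear := near_count hr0 hr1 hη hd hdx hrk hκ0 hκ1 F hF
  rw [← hN, ← hkF] at hlow
  rw [← hkF] at hnear
  set P : ℝ := ∑ v : V, PP r (fun S => (deg (res F S) v : ℝ) < (1 - κ / 4) * d) with hP
  have hP1 : P ≤ 4 / κ * ((ε₀ + ep + δ) * N) := by
    have h4 : κ / 4 * P ≤ (ε₀ + ep + δ) * N := by linarith
    calc P = 4 / κ * (κ / 4 * P) := by field_simp
      _ ≤ _ := mul_le_mul_of_nonneg_left h4 (by positivity)
  have hu1 : EE r (fun S => um (res F S) ((1 + κ / 4) * d)) ≤ ep * N * d := by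
    have h4 : EE r (fun S => um (res F S) ((1 + κ / 4) * d)) ≤
        EE r (fun S => um (res F S) ((1 + ε₀) * d)) :=
      EE_mono hr0 hr1.le fun S => um_anti (mul_le_mul_of_nonneg_right (by linarith) hd.le)
    refine h4.trans ?_
    rw [div_lt_iff₀ hd] at h3
    exact h3.le
  have hu2 : d / x * um F (2 * x) ≤ ep * N * d := by
    have h4 : um F (2 * x) ≤ um F ((1 + ε₀) * x) :=
      um_anti (mul_le_mul_of_nonneg_right (by linarith) hx0.le)
    have h5 : um F (2 * x) ≤ ep * N * x := by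
      rw [div_lt_iff₀ hx0] at h2
      exact h4.trans h2.le
    calc d / x * um F (2 * x) ≤ d / x * (ep * N * x) :=
          mul_le_mul_of_nonneg_left h5 (by positivity)
      _ = ep * N * d := by field_simp
  have hu3 : 2 * η * kF * (d / x) ≤ 2 * η * N * d := by
    calc 2 * η * kF * (d / x) = 2 * η * d * (kF / x) := by ring
      _ ≤ 2 * η * d * N := mul_le_mul_of_nonneg_left hkFx (by positivity)
      _ = 2 * η * N * d := by ring
  have hu4 : 2 * d * P ≤ 8 / κ * (ε₀ + ep + δ) * N * d := by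
    calc 2 * d * P ≤ 2 * d * (4 / κ * ((ε₀ + ep + δ) * N)) :=
          mul_le_mul_of_nonneg_left hP1 (by positivity)
      _ = 8 / κ * (ε₀ + ep + δ) * N * d := by ring
  have hNb : EE r (fun S => Nb (res F S) t (κ * d)) ≤ β * N * d := by
    have h4 : (2 * η + 2 * ep + 8 / κ * (ε₀ + ep + δ)) * (N * d) ≤ β * (N * d) :=
      mul_le_mul_of_nonneg_right hsmall (by positivity)
    calc EE r (fun S => Nb (res F S) t (κ * d)) ≤ 2 * η * N * d + ep * N * d + ep * N * d +
          8 / κ * (ε₀ + ep + δ) * N * d := by linarith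
      _ = (2 * η + 2 * ep + 8 / κ * (ε₀ + ep + δ)) * (N * d) := by ring
      _ ≤ β * (N * d) := h4
      _ = β * N * d := by ring
  -- the random step followed by the cover lemma
  have hstep := RoundOne_step (k := k) hr0 hr1 F
    (fun S => (Real.log d - M + 2) * N + (8 * Real.exp M / d * Nb (res F S) t (κ * d) +
      3 * (k : ℝ) / d * ((res F S).card : ℝ))) (fun S => by
      refine (hcov (res F S) (res_unif hF S)).trans (le_of_eq ?_)
      ring)
  have hEE : EE r (fun S => (Real.log d - M + 2) * N + (8 * Real.exp M / d *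
      Nb (res F S) t (κ * d) + 3 * (k : ℝ) / d * ((res F S).card : ℝ))) =
      (Real.log d - M + 2) * N + (8 * Real.exp M / d * EE r (fun S => Nb (res F S) t (κ * d)) +
        3 * (k : ℝ) / d * EE r (fun S => ((res F S).card : ℝ))) := by
    unfold EE
    rw [Ex_add, Ex_const, Ex_add, Ex_mul_left, Ex_mul_left]
  rw [hEE, RoundOne_card F hF, hrk] at hstep
  have h5 : 8 * Real.exp M / d * EE r (fun S => Nb (res F S) t (κ * d)) ≤ N := by
    calc 8 * Real.exp M / d * EE r (fun S => Nb (res F S) t (κ * d)) ≤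
          8 * Real.exp M / d * (β * N * d) := mul_le_mul_of_nonneg_left hNb (by positivity)
      _ = 8 * Real.exp M * β * N := by field_simp
      _ = N := by rw [hβ, one_mul]
  have h6 : 3 * (k : ℝ) / d * ((F.card : ℝ) * (d / x)) ≤ 3 * N := by
    calc 3 * (k : ℝ) / d * ((F.card : ℝ) * (d / x)) = 3 * (kF / x) := by
          rw [hkF]
          field_simp
      _ ≤ 3 * N := by linarith
  have h7 : (k : ℝ) * r * N ≤ (Real.log x - Real.log d) * N :=
    mul_le_mul_of_nonneg_right hkr hN0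
  have h8 : (k : ℝ) * (tau F : ℝ) ≤ (Real.log x - M + 6) * N := by
    refine hstep.trans ?_
    have e : (Real.log x - M + 6) * N = (Real.log x - Real.log d) * N +
        ((Real.log d - M + 2) * N + (N + 3 * N)) := by ring
    rw [e]
    linarith
  refine h8.trans (mul_le_mul_of_nonneg_right ?_ hN0)
  have := le_max_right (C - δ) (-K)
  linarith

end Pool.Agent.DCX
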