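import Pool.Agent.DCX.Tail
import Pool.Agent.DCX.Harmless

/-!
TUR-TTBasic. Facts on `TT F t c v` under `Hyp`: members, near edges, the lower bound of `aa`, the selection probabilities and the
two costs of the cover lemma.
-/

namespace Pool.Agent.DCX

open Finset

variable {V : Type} [Fintype V] [DecidableEq V]

theorem TT_subset (F : Finset (Finset V)) (t : ℕ) (c : ℝ) (v : V) : TT F t c v ⊆ F := by
  unfold TT
  exact filter_subset _ _

theorem mem_of_mem_TT {F : Finset (Finset V)} {t : ℕ} {c : ℝ} {v : V} {g : Finset V}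
    (h : g ∈ TT F t c v) : v ∈ g := by
  unfold TT at h
  exact (mem_filter.1 h).2.1

theorem TT_near {F : Finset (Finset V)} {t : ℕ} {c : ℝ} {v : V} :
    ∀ e ∈ TT F t c v,
      (((TT F t c v).filter (fun g => t < (g ∩ e).card)).card : ℝ) ≤ c := by
  intro e he
  unfold TT at he
  have h1 := (mem_filter.1 he).2.2
  refine le_trans ?_ h1
  refine Nat.cast_le.2 (card_le_card fun g hg => ?_)
  have h2 := mem_filter.1 hg
  exact mem_filter.2 ⟨TT_subset F t c v h2.1, mem_of_mem_TT h2.1, h2.2⟩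

theorem TT_card_le {F : Finset (Finset V)} {t : ℕ} {c : ℝ} {v : V} :
    (TT F t c v).card ≤ deg F v := by
  unfold deg
  refine card_le_card fun g hg => ?_
  exact mem_filter.2 ⟨TT_subset F t c v hg, mem_of_mem_TT hg⟩

variable {F : Finset (Finset V)} {k t j : ℕ} {M d κ r : ℝ}

private theorem TTBasic_dpos (h : Hyp V F k t j M d κ r) : 0 < d :=
  lt_of_lt_of_le (Real.exp_pos M) h.hd

private theorem TTBasic_Mpos (h : Hyp V F k t j M d κ r) : 0 < M :=
  lt_of_lt_of_le one_pos h.hM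

private theorem TTBasic_kpos (h : Hyp V F k t j M d κ r) : (0 : ℝ) < k := by
  have h1 := h.hk
  exact_mod_cast h1

private theorem TTBasic_unif (h : Hyp V F k t j M d κ r) (c : ℝ) (v : V) :
    Unif k (TT F t c v) := fun e he => h.unif e (TT_subset F t c v he)

private theorem TTBasic_card (h : Hyp V F k t j M d κ r) (c : ℝ) (v : V) :
    ((TT F t c v).card : ℝ) ≤ d :=
  le_trans (Nat.cast_le.2 TT_card_le) (h.hdeg v)

private theorem TTBasic_half (h : Hyp V F k t j M d κ r) : 1 / 2 ≤ (1 - r) ^ (j * t) := by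
  have h0 : 0 ≤ 1 - r := by linarith [h.hr1]
  have h1 : 1 - r ≤ 1 := by linarith [h.hr0]
  have h2 := h.hhalf
  rw [pow_succ] at h2
  have h3 : (1 - r) ^ (j * t) * (1 - r) ≤ (1 - r) ^ (j * t) * 1 :=
    mul_le_mul_of_nonneg_left h1 (pow_nonneg h0 _)
  linarith

theorem aa_lower (h : Hyp V F k t j M d κ r) (v : V)
    (hv : Usable F t (κ * d) (Real.exp (-M) * d / 16) v) :
    (Real.exp M / d) ^ j ≤ aa F t (κ * d) r j v := by
  have hd := TTBasic_dpos h
  have hc : 0 < κ * d := mul_pos h.hκ0 hd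
  have hj0 : (0 : ℝ) ≤ j := Nat.cast_nonneg j
  have h1 : (j : ℝ) * (κ * d) ≤ ((TT F t (κ * d) v).card : ℝ) := by
    refine le_trans ?_ hv
    have h2 : κ * (j : ℝ) ≤ Real.exp (-M) / 16 := by
      have h3 := h.hκ
      have h4 : κ * (j : ℝ) ≤ κ * ((j : ℝ) + 1) := mul_le_mul_of_nonneg_left (by linarith) h.hκ0.le
      have h5 := Real.exp_pos (-M)
      nlinarith
    calc (j : ℝ) * (κ * d) = κ * (j : ℝ) * d := by ring
      _ ≤ Real.exp (-M) / 16 * d := mul_le_mul_of_nonneg_right h2 hd.le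
      _ = Real.exp (-M) * d / 16 := by ring
  have h6 := Has_lower (v := v) (k := k) h.hr0 h.hr1.le (TTBasic_unif h (κ * d) v) hc h.htk TT_near h1
  rw [h.hrk] at h6
  exact h6

theorem aa_pos (h : Hyp V F k t j M d κ r) (v : V)
    (hv : Usable F t (κ * d) (Real.exp (-M) * d / 16) v) :
    0 < aa F t (κ * d) r j v := by
  have hd := TTBasic_dpos h
  exact lt_of_lt_of_le (pow_pos (div_pos (Real.exp_pos M) hd) j) (aa_lower h v hv)

theorem xx_nonneg (h : Hyp V F k t j M d κ r) (v : V) :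
    0 ≤ xx F t (κ * d) (Real.exp (-M) * d / 16) r M j k v := by
  unfold xx
  split_ifs with hu
  · have h1 := aa_pos h v hu
    have h2 := TTBasic_Mpos h
    have h3 := TTBasic_kpos h
    positivity
  · exact le_rfl

theorem xx_le_one (h : Hyp V F k t j M d κ r) (v : V) :
    xx F t (κ * d) (Real.exp (-M) * d / 16) r M j k v ≤ 1 := by
  unfold xx
  split_ifs with hu
  · have h1 := aa_pos h v hu
    have h3 := TTBasic_kpos h
    rw [div_le_one (mul_pos h3 h1)]
    exact le_trans h.hx (mul_le_mul_of_nonneg_left (aa_lower h v hu) h3.le)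
  · exact zero_le_one

/-- the cost of the selection: `x_v P(Has (T v) v t (j+1)) ≤ 1/k` -/
theorem tail_use (h : Hyp V F k t j M d κ r) (v : V) :
    xx F t (κ * d) (Real.exp (-M) * d / 16) r M j k v *
      PP r (Has (TT F t (κ * d) v) v t (j + 1)) ≤ 1 / (k : ℝ) := by
  have hk0 := TTBasic_kpos h
  have hM0 := TTBasic_Mpos h
  have hd := TTBasic_dpos h
  unfold xx
  split_ifs with hu
  · have ha := aa_pos h v hu
    have h0 : 0 ≤ 1 - r := by linarith [h.hr1]
    have h1 := tail_ineq (v := v) (k := k) (t := t) (j := j) h.hr0 h.hr1.le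
      (TTBasic_unif h (κ * d) v) (fun g hg => mem_of_mem_TT hg)
    obtain ⟨P, hP⟩ : ∃ P : ℝ, P = PP r (Has (TT F t (κ * d) v) v t (j + 1)) := ⟨_, rfl⟩
    obtain ⟨a, hae⟩ : ∃ a : ℝ, a = aa F t (κ * d) r j v := ⟨_, rfl⟩
    have hae' : PP r (Has (TT F t (κ * d) v) v t j) = a := by
      rw [hae]
      rfl
    have hP0 : 0 ≤ P := by
      rw [hP]
      exact PP_nonneg h.hr0 h.hr1.le _
    rw [← hP, hae'] at h1
    rw [← hP, ← hae]
    rw [← hae] at ha
    have hj0 : (0 : ℝ) ≤ j := Nat.cast_nonneg j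
    have h2 : (1 - r) ^ (k - 1) * (1 - r) = Real.exp M / d := by
      rw [← pow_succ, Nat.sub_add_cancel h.hk, h.hrk]
    have h3 : (1 - r) ^ (j * t + 1) * (((j : ℝ) + 1) * P) ≤ Real.exp M * a := by
      calc (1 - r) ^ (j * t + 1) * (((j : ℝ) + 1) * P)
          = (1 - r) ^ (j * t) * (((j : ℝ) + 1) * P) * (1 - r) := by
            rw [pow_succ]
            ring
        _ ≤ ((TT F t (κ * d) v).card : ℝ) * (1 - r) ^ (k - 1) * a * (1 - r) :=
            mul_le_mul_of_nonneg_right h1 h0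
        _ = ((TT F t (κ * d) v).card : ℝ) * (Real.exp M / d) * a := by
            rw [← h2]
            ring
        _ ≤ d * (Real.exp M / d) * a := by
            refine mul_le_mul_of_nonneg_right ?_ ha.le
            exact mul_le_mul_of_nonneg_right (TTBasic_card h _ v)
              (div_pos (Real.exp_pos M) hd).le
        _ = Real.exp M * a := by
            rw [mul_div_cancel₀ _ hd.ne']
    have h4 : 1 / 2 * (((j : ℝ) + 1) * P) ≤ Real.exp M * a :=
      le_trans (mul_le_mul_of_nonneg_right h.hhalf (by positivity)) h3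
    have h5 : 4 * M * Real.exp M * P ≤ ((j : ℝ) + 1) * P := mul_le_mul_of_nonneg_right h.hj hP0
    have h6 : 2 * M * P ≤ a := by
      have h7 : Real.exp M * (2 * M * P) ≤ Real.exp M * a := by
        calc Real.exp M * (2 * M * P) = 1 / 2 * (4 * M * Real.exp M * P) := by ring
          _ ≤ 1 / 2 * (((j : ℝ) + 1) * P) := by linarith
          _ ≤ Real.exp M * a := h4
      exact le_of_mul_le_mul_left h7 (Real.exp_pos M)
    rw [div_mul_eq_mul_div, div_le_div_iff₀ (mul_pos hk0 ha) hk0]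
    calc 2 * M * P * (k : ℝ) ≤ a * (k : ℝ) := mul_le_mul_of_nonneg_right h6 hk0.le
      _ = 1 * ((k : ℝ) * a) := by ring
  · rw [zero_mul]
    positivity

/-- `x_v P(E_v(e)(S \ e)) ≤ 4 M / k` -/
theorem far_use (h : Hyp V F k t j M d κ r) (v : V) (e : Finset V) :
    xx F t (κ * d) (Real.exp (-M) * d / 16) r M j k v *
      PP r (fun S => Has (far (TT F t (κ * d) v) t e) v t j (S \ e)) ≤ 4 * M / (k : ℝ) := by
  have hk0 := TTBasic_kpos h
  have hM0 := TTBasic_Mpos h
  unfold xx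
  split_ifs with hu
  · have ha := aa_pos h v hu
    have h1 := far_couple (T := TT F t (κ * d) v) (v := v) (t := t) (j := j) h.hr0 h.hr1.le
      (Subset.refl e)
    have h2 : PP r (Has (far (TT F t (κ * d) v) t e) v t j) ≤ aa F t (κ * d) r j v :=
      PP_mono h.hr0 h.hr1.le fun S hS => Has_mono_T (filter_subset _ _) hS
    obtain ⟨P, hP⟩ : ∃ P : ℝ, P = PP r (fun S => Has (far (TT F t (κ * d) v) t e) v t j (S \ e)) :=
      ⟨_, rfl⟩
    obtain ⟨a, hae⟩ : ∃ a : ℝ, a = aa F t (κ * d) r j v := ⟨_, rfl⟩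
    have hP0 : 0 ≤ P := by
      rw [hP]
      exact PP_nonneg h.hr0 h.hr1.le _
    rw [← hP] at h1 ⊢
    rw [← hae] at h2 ha ⊢
    have h3 : 1 / 2 * P ≤ a :=
      le_trans (mul_le_mul_of_nonneg_right (TTBasic_half h) hP0) (le_trans h1 h2)
    rw [div_mul_eq_mul_div, div_le_div_iff₀ (mul_pos hk0 ha) hk0]
    have h4 : 2 * M * (k : ℝ) * P ≤ 2 * M * (k : ℝ) * (2 * a) :=
      mul_le_mul_of_nonneg_left (by linarith) (by positivity)
    calc 2 * M * P * (k : ℝ) = 2 * M * (k : ℝ) * P := by ring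
      _ ≤ 2 * M * (k : ℝ) * (2 * a) := h4
      _ = 4 * M * ((k : ℝ) * a) := by ring
  · rw [zero_mul]
    positivity

end Pool.Agent.DCX
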