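import Pool.Agent.DCX.Fam

/-!
TUR-Tail. Tail bound for the families `Has T v t j`: `far_couple` compares the law of the far part on `S` with the
law on `S \ A`, `A ⊆ e`; `tail_ineq` bounds the probability of a family of `j + 1` members by the one of `j` members.
-/

namespace Pool.Agent.DCX

open Finset

variable {V : Type} [Fintype V] [DecidableEq V]

theorem far_couple {T : Finset (Finset V)} {v : V} {t j : ℕ} {r : ℝ} (hr0 : 0 ≤ r) (hr1 : r ≤ 1)
    {e A : Finset V} (hA : A ⊆ e) :
    (1 - r) ^ (j * t) * PP r (fun S => Has (far T t e) v t j (S \ A)) ≤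
      PP r (Has (far T t e) v t j) := by
  refine couple hr0 hr1 A (j * t) (Has (far T t e) v t j) (Has (far T t e) v t j) ?_
  rintro S _ ⟨G, hG, hcard, hpair, hdis⟩
  refine ⟨G.biUnion (fun g => g ∩ A), ?_, ?_, ?_⟩
  · intro x hx
    rw [mem_biUnion] at hx
    obtain ⟨g, _, hxg⟩ := hx
    exact (mem_inter.1 hxg).2
  · refine (card_biUnion_le_card_mul G (fun g => g ∩ A) t ?_).trans ?_
    · intro g hg
      have h1 := hG hg
      unfold far at h1
      rw [mem_filter] at h1
      exact (card_le_card (inter_subset_inter_left hA)).trans h1.2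
    · rw [hcard]
  · intro R hR hBR
    refine ⟨G, hG, hcard, hpair, fun g hg => ?_⟩
    rw [disjoint_union_right]
    refine ⟨hdis g hg, ?_⟩
    rw [disjoint_left]
    intro x hx hxR
    refine disjoint_left.1 hBR ?_ hxR
    rw [mem_biUnion]
    exact ⟨g, hg, mem_inter.2 ⟨mem_of_mem_erase hx, hR hxR⟩⟩

omit [Fintype V] in
private theorem Tail_point {T : Finset (Finset V)} {v : V} {t j : ℕ} (S : Finset V) :
    ((j : ℝ) + 1) * ind (Has T v t (j + 1) S) ≤
      ∑ g ∈ T, ind (Disjoint (g.erase v) S) * ind (Has (far T t g) v t j S) := by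
  have hnn : ∀ g ∈ T, 0 ≤ ind (Disjoint (g.erase v) S) * ind (Has (far T t g) v t j S) :=
    fun g _ => mul_nonneg (ind_nonneg _) (ind_nonneg _)
  by_cases h : Has T v t (j + 1) S
  · rw [ind_true h, mul_one]
    obtain ⟨G, hG, hcard, hpair, hdis⟩ := h
    have h1 : ∑ g ∈ G, ind (Disjoint (g.erase v) S) * ind (Has (far T t g) v t j S) ≤
        ∑ g ∈ T, ind (Disjoint (g.erase v) S) * ind (Has (far T t g) v t j S) :=
      sum_le_sum_of_subset_of_nonneg hG fun g hg _ => hnn g hg
    refine le_trans ?_ h1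
    have h2 : ∀ g ∈ G, ind (Disjoint (g.erase v) S) * ind (Has (far T t g) v t j S) = 1 := by
      intro g hg
      have h3 : Has (far T t g) v t j S := by
        refine ⟨G.erase g, ?_, ?_, ?_, ?_⟩
        · intro g' hg'
          unfold far
          rw [mem_filter]
          rw [mem_erase] at hg'
          exact ⟨hG hg'.2, hpair g' hg'.2 g hg hg'.1⟩
        · rw [card_erase_of_mem hg, hcard]
          rfl
        · intro g1 h1 g2 h2 h12
          exact hpair g1 (mem_of_mem_erase h1) g2 (mem_of_mem_erase h2) h12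
        · intro g1 h1
          exact hdis g1 (mem_of_mem_erase h1)
      rw [ind_true (hdis g hg), ind_true h3, mul_one]
    rw [sum_congr rfl h2, sum_const, hcard, nsmul_eq_mul, mul_one]
    push_cast
    exact le_rfl
  · rw [ind_false h, mul_zero]
    exact sum_nonneg hnn

theorem tail_ineq {T : Finset (Finset V)} {v : V} {k t j : ℕ} {r : ℝ} (hr0 : 0 ≤ r) (hr1 : r ≤ 1)
    (hT : Unif k T) (hv : ∀ g ∈ T, v ∈ g) :
    (1 - r) ^ (j * t) * (((j : ℝ) + 1) * PP r (Has T v t (j + 1))) ≤
      (T.card : ℝ) * (1 - r) ^ (k - 1) * PP r (Has T v t j) := by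
  have h0 : 0 ≤ (1 - r) ^ (j * t) := pow_nonneg (by linarith) _
  have h0' : 0 ≤ (1 - r) ^ (k - 1) := pow_nonneg (by linarith) _
  have h1 : ((j : ℝ) + 1) * PP r (Has T v t (j + 1)) ≤
      ∑ g ∈ T, (1 - r) ^ (k - 1) * PP r (fun S => Has (far T t g) v t j (S \ g.erase v)) := by
    have e1 : ((j : ℝ) + 1) * PP r (Has T v t (j + 1)) =
        EE r (fun S => ((j : ℝ) + 1) * ind (Has T v t (j + 1) S)) := by
      unfold PP EE
      rw [Ex_mul_left]
    have e2 : ∑ g ∈ T, (1 - r) ^ (k - 1) * PP r (fun S => Has (far T t g) v t j (S \ g.erase v)) =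
        EE r (fun S => ∑ g ∈ T, ind (Disjoint (g.erase v) S) * ind (Has (far T t g) v t j S)) := by
      have e3 : EE r (fun S => ∑ g ∈ T, ind (Disjoint (g.erase v) S) *
          ind (Has (far T t g) v t j S)) =
          ∑ g ∈ T, EE r (fun S => ind (Disjoint (g.erase v) S) * ind (Has (far T t g) v t j S)) := by
        unfold EE
        exact Ex_sum T univ (fun _ => r)
          (fun g S => ind (Disjoint (g.erase v) S) * ind (Has (far T t g) v t j S))
      rw [e3]
      refine sum_congr rfl fun g hg => ?_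
      rw [EE_disj r (g.erase v) (fun S => ind (Has (far T t g) v t j S)),
        card_erase_of_mem (hv g hg), hT g hg]
      rfl
    rw [e1, e2]
    exact EE_mono hr0 hr1 fun S => Tail_point S
  calc (1 - r) ^ (j * t) * (((j : ℝ) + 1) * PP r (Has T v t (j + 1)))
      ≤ (1 - r) ^ (j * t) * ∑ g ∈ T, (1 - r) ^ (k - 1) *
          PP r (fun S => Has (far T t g) v t j (S \ g.erase v)) :=
        mul_le_mul_of_nonneg_left h1 h0
    _ = ∑ g ∈ T, (1 - r) ^ (k - 1) * ((1 - r) ^ (j * t) *
          PP r (fun S => Has (far T t g) v t j (S \ g.erase v))) := by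
        rw [mul_sum]
        refine sum_congr rfl fun g _ => ?_
        ring
    _ ≤ ∑ _g ∈ T, (1 - r) ^ (k - 1) * PP r (Has T v t j) := by
        refine sum_le_sum fun g _ => mul_le_mul_of_nonneg_left ?_ h0'
        refine (far_couple hr0 hr1 (erase_subset v g)).trans ?_
        exact PP_mono hr0 hr1 fun S hS => Has_mono_T (filter_subset _ _) hS
    _ = (T.card : ℝ) * (1 - r) ^ (k - 1) * PP r (Has T v t j) := by
        rw [sum_const, nsmul_eq_mul]
        ring

end Pool.Agent.DCX
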