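import Pool.Agent.Helper1.TuranLimit
import Pool.Agent.Helper2.DC3

/-!
The finite form of the bound of de Caen (1983), proved from the local inequality of `Pool.Agent.Helper2.DC1`.
-/

namespace Pool.Agent.DCX

open Finset Pool.Agent.Helper2.DC

section deCaen

variable {V : Type} [Fintype V] [DecidableEq V]

/-- the recursion of de Caen in its exact form -/
private theorem XCaen_rec {H : Finset (Finset V)} {r : ℕ} (hr : 2 ≤ r)
    (hH : ∀ e ∈ H, e.card = r) {s : ℕ} (hN : 0 < NI H (s + 1)) :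
    ((s : ℝ) + 2 - r) * (beta H (s + 1) - ((s : ℝ) + 1) / (Fintype.card V : ℝ)) ≤
      ((s : ℝ) + 1) * (beta H s - (s : ℝ) / (Fintype.card V : ℝ)) := by
  obtain ⟨hN0, hn⟩ := ind_nonempty_of_succ hN
  set n : ℝ := (Fintype.card V : ℝ) with hndef
  have e1 : ∑ Q ∈ ind H s, ((ext H Q).card : ℝ)^2 =
      (((s:ℝ)+1) * NI H (s+1)) * (n * (1 - beta H s)) + VI H s := by
    have hs := sum_ext_real H s
    unfold VI
    have hc : ∑ Q ∈ ind H s, (((ext H Q).card : ℝ) - n * (1 - beta H s))^2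
        = ∑ Q ∈ ind H s, ((ext H Q).card : ℝ)^2
          - 2 * (n * (1 - beta H s)) * ∑ Q ∈ ind H s, ((ext H Q).card : ℝ)
          + NI H s * (n * (1 - beta H s))^2 := by
      have hc2 : NI H s * (n * (1 - beta H s))^2 = ∑ Q ∈ ind H s, (n * (1 - beta H s))^2 := by
        rw [sum_const, nsmul_eq_mul]; rfl
      rw [hc2, mul_sum, ← sum_sub_distrib, ← sum_add_distrib]
      refine sum_congr rfl (fun Q _ => by ring)
    rw [hc, hs]
    have hb := beta_eq (H := H) (s := s) hN0 hn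
    rw [← hndef] at hb
    have : NI H s * (n * (1 - beta H s))^2 = (((s:ℝ)+1) * NI H (s+1)) * (n * (1 - beta H s)) := by
      rw [hb]; ring
    rw [this]; ring
  have e2 : ∑ Q ∈ ind H s, ((ext H Q).card : ℝ)^2
      = ∑ S ∈ ind H (s+1), ∑ a ∈ S, ((ext H (S.erase a)).card : ℝ) := by
    rw [← sum_ext H s (fun Q _ => ((ext H Q).card : ℝ))]
    refine sum_congr rfl (fun Q _ => ?_)
    rw [sum_const, nsmul_eq_mul, sq]
  have e3 : ∀ S ∈ ind H (s+1), ∑ a ∈ S, ((ext H (S.erase a)).card : ℝ) + ((bad H S).card : ℝ) ≤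
      ((s:ℝ)+1) + ((s:ℝ)+1) * ((ext H S).card : ℝ)
        + ((r:ℝ)-1) * (n - ((s:ℝ)+1) - ((ext H S).card : ℝ)) := by
    intro S hS
    obtain ⟨h1, h2⟩ := mem_ind.1 hS
    have h3 := local_ineq hH h2
    have h4 := card_split H S
    rw [h1] at h3 h4
    have h5 : ((bl H S).card : ℝ) = n - ((s:ℝ)+1) - ((ext H S).card : ℝ) := by
      rw [hndef, ← h4]; push_cast; ring
    rw [← h5]
    have h6 : ((r:ℝ) - 1) = ((r - 1 : ℕ) : ℝ) := by
      rw [Nat.cast_sub (by omega)]; simp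
    rw [h6]
    exact_mod_cast h3
  have e4 := sum_le_sum e3
  rw [sum_add_distrib, ← e2, e1] at e4
  have e5 : ∑ S ∈ ind H (s+1), (((s:ℝ)+1) + ((s:ℝ)+1) * ((ext H S).card : ℝ)
        + ((r:ℝ)-1) * (n - ((s:ℝ)+1) - ((ext H S).card : ℝ)))
      = ((s:ℝ)+1) * NI H (s+1) + ((s:ℝ)+1) * (n * NI H (s+1) * (1 - beta H (s+1)))
        + ((r:ℝ)-1) * ((n - ((s:ℝ)+1)) * NI H (s+1) - n * NI H (s+1) * (1 - beta H (s+1))) := by
    have hb := beta_eq (H := H) (s := s+1) hN hn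
    rw [← hndef] at hb
    rw [← hb]
    have hs := sum_ext_real H (s+1)
    rw [← hs]
    unfold NI
    rw [sum_add_distrib, sum_add_distrib, ← mul_sum, ← mul_sum, sum_sub_distrib]
    simp only [sum_const, nsmul_eq_mul]
    ring
  rw [e5] at e4
  change _ + BI H (s+1) ≤ _ at e4
  have hB := BI_nonneg H (s+1)
  have hV := VI_nonneg H s
  have hnN : 0 < n * NI H (s+1) := mul_pos hn hN
  -- multiply by `n N`
  have key : (n * NI H (s+1)) * (((s : ℝ) + 2 - r) * (beta H (s + 1) - ((s : ℝ) + 1) / n)) ≤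
      (n * NI H (s+1)) * (((s : ℝ) + 1) * (beta H s - (s : ℝ) / n)) := by
    have q1 : (n * NI H (s+1)) * (((s : ℝ) + 2 - r) * (beta H (s + 1) - ((s : ℝ) + 1) / n)) =
        NI H (s+1) * ((s : ℝ) + 2 - r) * (n * beta H (s + 1) - ((s : ℝ) + 1)) := by
      field_simp
    have q2 : (n * NI H (s+1)) * (((s : ℝ) + 1) * (beta H s - (s : ℝ) / n)) =
        NI H (s+1) * ((s : ℝ) + 1) * (n * beta H s - (s : ℝ)) := by
      field_simp
    rw [q1, q2]
    nlinarith [e4, hB, hV]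
  exact le_of_mul_le_mul_left key hnN

/-- normalised average number of blocked vertices -/
private noncomputable def XCaen_v (H : Finset (Finset V)) (r s : ℕ) : ℝ :=
  (beta H s - (s : ℝ) / (Fintype.card V : ℝ)) / (s.choose (r - 1) : ℝ)

private theorem XCaen_step {H : Finset (Finset V)} {r : ℕ} (hr : 2 ≤ r)
    (hH : ∀ e ∈ H, e.card = r) {s : ℕ} (hs : r - 1 ≤ s) (hN : 0 < NI H (s + 1)) :
    XCaen_v H r (s + 1) ≤ XCaen_v H r s := by
  have h := XCaen_rec hr hH hN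
  have hc0 : (0:ℝ) < (s.choose (r-1) : ℝ) := by exact_mod_cast Nat.choose_pos hs
  have hc1 : (0:ℝ) < ((s+1).choose (r-1) : ℝ) := by exact_mod_cast Nat.choose_pos (by omega)
  have hid : ((s+1).choose (r-1) : ℝ) * ((s:ℝ)+2-r) = ((s:ℝ)+1) * (s.choose (r-1) : ℝ) := by
    have h1 := Nat.choose_mul_succ_eq s (r-1)
    have h2 : ((s + 1 - (r-1) : ℕ) : ℝ) = (s:ℝ)+2-r := by
      rw [Nat.cast_sub (by omega), Nat.cast_sub (by omega)]; push_cast; ring
    rw [← h2]
    have h3 : ((s.choose (r-1) * (s+1) : ℕ) : ℝ) = (((s+1).choose (r-1) * (s+1-(r-1)) : ℕ) : ℝ) := by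
      rw [h1]
    push_cast at h3 ⊢
    linarith
  have hpos : 0 < (s:ℝ)+2-r := by
    by_contra hcon
    push Not at hcon
    have h1 : ((s+1).choose (r-1) : ℝ) * ((s:ℝ)+2-r) ≤ 0 := mul_nonpos_of_nonneg_of_nonpos hc1.le hcon
    rw [hid] at h1
    have : 0 < ((s:ℝ)+1) * (s.choose (r-1) : ℝ) := by positivity
    linarith
  unfold XCaen_v
  rw [div_le_div_iff₀ hc1 hc0]
  push_cast
  -- `x1 * c0 ≤ x0 * c1`; multiply by `s + 1`
  have hs1 : (0:ℝ) < (s:ℝ) + 1 := by positivity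
  refine le_of_mul_le_mul_left ?_ hs1
  calc ((s:ℝ)+1) * ((beta H (s+1) - ((s:ℝ)+1) / (Fintype.card V : ℝ)) * (s.choose (r-1) : ℝ))
      = (((s:ℝ)+1) * (s.choose (r-1) : ℝ)) * (beta H (s+1) - ((s:ℝ)+1) / (Fintype.card V : ℝ)) := by
        ring
    _ = ((s+1).choose (r-1) : ℝ) * (((s:ℝ)+2-r) *
          (beta H (s+1) - ((s:ℝ)+1) / (Fintype.card V : ℝ))) := by rw [← hid]; ring
    _ ≤ ((s+1).choose (r-1) : ℝ) * (((s:ℝ)+1) * (beta H s - (s:ℝ) / (Fintype.card V : ℝ))) :=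
        mul_le_mul_of_nonneg_left h hc1.le
    _ = _ := by ring

private theorem XCaen_anti {H : Finset (Finset V)} {r : ℕ} (hr : 2 ≤ r)
    (hH : ∀ e ∈ H, e.card = r) {s t : ℕ} (hs : r - 1 ≤ s) (hst : s ≤ t) (hN : 0 < NI H t) :
    XCaen_v H r t ≤ XCaen_v H r s := by
  induction t, hst using Nat.le_induction with
  | base => exact le_rfl
  | succ t hst ih =>
    exact (XCaen_step hr hH (hs.trans hst) hN).trans (ih (ind_nonempty_of_succ hN).1)

/-- there is a largest `t` with independent `t`-sets -/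
private theorem XCaen_top {H : Finset (Finset V)} {M : ℕ} (hM : NI H (M + 1) = 0)
    {s : ℕ} (hsM : s ≤ M) (hN : 0 < NI H s) :
    ∃ t, s ≤ t ∧ t ≤ M ∧ 0 < NI H t ∧ NI H (t + 1) = 0 := by
  obtain ⟨d, hd⟩ : ∃ d, M = s + d := ⟨M - s, by omega⟩
  induction d generalizing s with
  | zero =>
    have : M = s := by omega
    subst this
    exact ⟨M, le_rfl, le_rfl, hN, hM⟩
  | succ d ih =>
    by_cases h : 0 < NI H (s+1)
    · obtain ⟨t, h1, h2, h3, h4⟩ := ih (s := s+1) (by omega) h (by omega)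
      exact ⟨t, by omega, h2, h3, h4⟩
    · exact ⟨s, le_rfl, hsM, hN, le_antisymm (not_lt.1 h) (NI_nonneg _ _)⟩

/-- de Caen's bound, exact finite form: if every set of `M + 1` vertices contains a member of `H`
then `(1 - M / n) ≤ C(M, r - 1) (1 - (r - 1) / n) |H| / C(n, r)`. -/
private theorem XCaen_deCaen {H : Finset (Finset V)} {r M : ℕ} (hr : 2 ≤ r)
    (hH : ∀ e ∈ H, e.card = r) (hrM : r ≤ M) (hM : NI H (M + 1) = 0)
    (hn : r ≤ Fintype.card V) :
    1 - (M : ℝ) / (Fintype.card V : ℝ) ≤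
      (M.choose (r - 1) : ℝ) * ((1 - ((r : ℝ) - 1) / (Fintype.card V : ℝ)) *
        ((H.card : ℝ) / ((Fintype.card V).choose r : ℝ))) := by
  obtain ⟨k, rfl⟩ : ∃ k, r = k + 1 := ⟨r - 1, by omega⟩
  have hN : 0 < NI H k := by
    rw [NI_of_lt hH (Nat.lt_succ_self k)]
    exact_mod_cast Nat.choose_pos (by omega)
  obtain ⟨t, h1, h2, h3, h4⟩ := XCaen_top hM (s := k) (by omega) hN
  have h5 := XCaen_anti hr hH (s := k) (t := t) (by omega) h1 h3
  have hb : beta H t = 1 := by unfold beta; rw [h4]; simp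
  have hn0 : (0:ℝ) < (Fintype.card V : ℝ) := by
    have : 0 < Fintype.card V := by omega
    exact_mod_cast this
  have hk1 : k + 1 - 1 = k := by omega
  have hv : XCaen_v H (k + 1) k = (1 - (((k + 1 : ℕ) : ℝ) - 1) / (Fintype.card V : ℝ)) *
        ((H.card : ℝ) / ((Fintype.card V).choose (k + 1) : ℝ)) := by
    unfold XCaen_v
    rw [hk1, beta_init hH hn, Nat.choose_self]
    push_cast
    ring
  rw [← hv]
  have hMt : (t.choose k : ℝ) ≤ (M.choose k : ℝ) := by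
    exact_mod_cast Nat.choose_le_choose k h2
  have hct : (0:ℝ) < (t.choose k : ℝ) := by exact_mod_cast Nat.choose_pos (by omega)
  have h6 : XCaen_v H (k + 1) t = (1 - (t : ℝ) / (Fintype.card V : ℝ)) / (t.choose k : ℝ) := by
    unfold XCaen_v
    rw [hk1, hb]
  rw [h6, div_le_iff₀ hct] at h5
  have htM : (t : ℝ) / (Fintype.card V : ℝ) ≤ (M : ℝ) / (Fintype.card V : ℝ) :=
    div_le_div_of_nonneg_right (by exact_mod_cast h2) hn0.le
  have hv0 : 0 ≤ XCaen_v H (k + 1) k := by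
    rw [hv]
    refine mul_nonneg ?_ (by positivity)
    have : (((k + 1 : ℕ) : ℝ) - 1) / (Fintype.card V : ℝ) ≤ 1 := by
      rw [div_le_one hn0]
      have : ((k + 1 : ℕ) : ℝ) ≤ (Fintype.card V : ℝ) := by exact_mod_cast hn
      linarith
    linarith
  rw [hk1]
  calc 1 - (M : ℝ) / (Fintype.card V : ℝ) ≤ 1 - (t : ℝ) / (Fintype.card V : ℝ) := by linarith
    _ ≤ XCaen_v H (k + 1) k * (t.choose k : ℝ) := h5
    _ ≤ XCaen_v H (k + 1) k * (M.choose k : ℝ) := mul_le_mul_of_nonneg_left hMt hv0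
    _ = _ := by ring

end deCaen

open Pool.Agent.Helper1.Turan in
/-- the bound of de Caen (1983), with the factor `1 / 2` for all `n ≥ 2 m` -/
theorem deCaen_half {k m n : ℕ} (hk : 2 ≤ k) (hkm : k < m) (hn : 2 * m ≤ n) :
    (exNum k m n : ℝ) ≤ (1 - (1 / 2) / ((m - 1).choose (k - 1) : ℝ)) * (n.choose k : ℝ) := by
  obtain ⟨G, hG1, hG2, hG3⟩ := exists_exNum (k := k) (m := m) (n := n) hkm.le
  rw [← hG3]
  set H : Finset (Finset (Fin n)) := powersetCard k univ \ G with hH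
  have hGs : G ⊆ powersetCard k (univ : Finset (Fin n)) := fun e he =>
    mem_powersetCard.2 ⟨subset_univ _, hG1 e he⟩
  have hHr : ∀ e ∈ H, e.card = k := fun e he => (mem_powersetCard.1 (mem_sdiff.1 he).1).2
  have hNI : NI H (m - 1 + 1) = 0 := by
    unfold NI
    have : ind H (m-1+1) = ∅ := by
      rw [eq_empty_iff_forall_notMem]
      intro S hS
      obtain ⟨hSc, hSI⟩ := mem_ind.1 hS
      obtain ⟨e, heS, hec, heG⟩ := hG2 S (by omega)
      exact hSI e (mem_sdiff.2 ⟨mem_powersetCard.2 ⟨subset_univ _, hec⟩, heG⟩) heS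
    rw [this]; simp
  have h := XCaen_deCaen (V := Fin n) (H := H) (r := k) (M := m - 1) hk hHr (by omega) hNI
    (by rw [Fintype.card_fin]; omega)
  rw [Fintype.card_fin] at h
  have hHc : (H.card : ℝ) = (n.choose k : ℝ) - (G.card : ℝ) := by
    rw [hH, card_sdiff_of_subset hGs, card_powersetCard, card_univ, Fintype.card_fin,
      Nat.cast_sub]
    have := card_le_card hGs
    rwa [card_powersetCard, card_univ, Fintype.card_fin] at this
  have hc0 : (0:ℝ) < (n.choose k : ℝ) := by exact_mod_cast Nat.choose_pos (by omega)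
  have hB0 : (0:ℝ) < ((m - 1).choose (k - 1) : ℝ) := by
    exact_mod_cast Nat.choose_pos (by omega)
  have hn0 : (0:ℝ) < (n : ℝ) := by
    have : 0 < n := by omega
    exact_mod_cast this
  have hm1 : ((m - 1 : ℕ) : ℝ) / (n : ℝ) ≤ 1 / 2 := by
    rw [div_le_iff₀ hn0]
    have h1 : ((m - 1 : ℕ) : ℝ) ≤ (m : ℝ) := by exact_mod_cast Nat.sub_le _ _
    have h2 : (2 : ℝ) * (m : ℝ) ≤ (n : ℝ) := by exact_mod_cast hn
    linarith
  have hk1 : 0 ≤ ((k : ℝ) - 1) / (n : ℝ) := by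
    have : (2 : ℝ) ≤ (k : ℝ) := by exact_mod_cast hk
    exact div_nonneg (by linarith) hn0.le
  have hd0 : 0 ≤ (H.card : ℝ) / (n.choose k : ℝ) := by positivity
  have h2 : (1 - ((k : ℝ) - 1) / (n : ℝ)) * ((H.card : ℝ) / (n.choose k : ℝ)) ≤
      (H.card : ℝ) / (n.choose k : ℝ) := by
    nlinarith [mul_nonneg hk1 hd0]
  have h3 : 1 / 2 ≤ ((m - 1).choose (k - 1) : ℝ) * ((H.card : ℝ) / (n.choose k : ℝ)) := by
    have := mul_le_mul_of_nonneg_left h2 hB0.le
    linarith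
  have h4 : (1 / 2) / ((m - 1).choose (k - 1) : ℝ) * (n.choose k : ℝ) ≤ (H.card : ℝ) := by
    rw [mul_div_assoc'] at h3
    rw [le_div_iff₀ hc0] at h3
    rw [div_mul_eq_mul_div, div_le_iff₀ hB0]
    linarith
  rw [hHc] at h4
  linarith

end Pool.Agent.DCX
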