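import Pool.Agent.DCX.CoverFull

/-!
Explicit form of the cover lemma (`cover_full`): `θ = exp (-(3 d log d))` and `k₀ = exp (3 d log d)`
are possible as soon as `j + 1 ≤ d`.
-/

namespace Pool.Agent.DCX

open Finset

private theorem XCover_half {k n : ℕ} (hk : 1 ≤ k) {r y L : ℝ} (hr : r < 1)
    (hrk : (1 - r) ^ k = Real.exp (-y)) (hyL : y * (n : ℝ) ≤ L) (hL : L ≤ (k : ℝ) / 2) :
    1 / 2 ≤ (1 - r) ^ n := by
  have h0 : (0 : ℝ) ≤ (1 - r) ^ n := pow_nonneg (by linarith) n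
  have hk0 : k ≠ 0 := by omega
  rw [← pow_le_pow_iff_left₀ (by norm_num) h0 hk0, ← pow_mul, mul_comm n k, pow_mul, hrk,
    ← Real.exp_nat_mul]
  have h1 : ((1 : ℝ) / 2) ^ k = Real.exp (-((k : ℝ) * Real.log 2)) := by
    rw [Real.exp_neg, Real.exp_nat_mul, Real.exp_log (by norm_num), one_div, inv_pow]
  rw [h1]
  apply Real.exp_le_exp.2
  have h2 := Real.log_two_gt_d9
  have hk1 : (0 : ℝ) ≤ (k : ℝ) := Nat.cast_nonneg k
  nlinarith [mul_nonneg hk1 (by linarith : (0 : ℝ) ≤ Real.log 2 - 1 / 2)]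

private theorem XCover_step {V : Type} [Fintype V] [DecidableEq V] {F : Finset (Finset V)}
    {k t j : ℕ} {M d κ r : ℝ} (hd0 : 0 < d) {S : Finset V}
    (hS : (S.card : ℝ) * d ≤ (F.card : ℝ)) (h : Hyp V (res F S) k t j M d κ r) :
    (k : ℝ) * (tau F : ℝ) ≤
      (Real.log d - M + 2) * (Fintype.card V : ℝ) + 8 * Real.exp M * Nb F t (κ * d) / d
        + 3 * ((k : ℝ) * (F.card : ℝ)) / d := by
  have hk0 : (0 : ℝ) ≤ (k : ℝ) := Nat.cast_nonneg k
  have hsub : res F S ⊆ F := Finset.filter_subset _ _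
  have h1 : (tau F : ℝ) ≤ (S.card : ℝ) + (tau (res F S) : ℝ) := by exact_mod_cast tau_step F S
  have h2 := cover_core h
  have h3 : (S.card : ℝ) ≤ (F.card : ℝ) / d := (le_div_iff₀ hd0).2 hS
  have h4 : ((res F S).card : ℝ) ≤ (F.card : ℝ) := by
    exact_mod_cast Finset.card_le_card hsub
  have h5 := Nb_mono hsub t (κ * d)
  have h6 : 8 * Real.exp M * Nb (res F S) t (κ * d) / d ≤ 8 * Real.exp M * Nb F t (κ * d) / d := by
    apply div_le_div_of_nonneg_right _ hd0.le
    exact mul_le_mul_of_nonneg_left h5 (by positivity)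
  have h7 : 2 * ((k : ℝ) * ((res F S).card : ℝ)) / d ≤ 2 * ((k : ℝ) * (F.card : ℝ)) / d := by
    apply div_le_div_of_nonneg_right _ hd0.le
    exact mul_le_mul_of_nonneg_left (mul_le_mul_of_nonneg_left h4 hk0) (by norm_num)
  have h8 : (k : ℝ) * (tau F : ℝ) ≤ (k : ℝ) * ((F.card : ℝ) / d) + (k : ℝ) * (tau (res F S) : ℝ) := by
    rw [← mul_add]
    exact mul_le_mul_of_nonneg_left (h1.trans (by linarith)) hk0
  have h9 : (k : ℝ) * ((F.card : ℝ) / d) + 2 * ((k : ℝ) * (F.card : ℝ)) / d =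
      3 * ((k : ℝ) * (F.card : ℝ)) / d := by ring
  linarith

/-- numerical facts for the explicit constants -/
private theorem XCover_num {M d : ℝ} {j : ℕ} (hM : 1 ≤ M) (hd : Real.exp M ≤ d)
    (hjd : (j : ℝ) + 1 ≤ d) (hj : 4 * M * Real.exp M ≤ (j : ℝ) + 1) :
    128 * Real.log d * Real.exp (2 * d * Real.log d) * d ^ 2 * Real.exp M +
        4 * ((j : ℝ) + 1) * Real.log d + 2 ≤ Real.exp (3 * d * Real.log d) ∧
      4 * Real.log d + 2 * M / (Real.exp M / d) ^ j + 1 ≤ Real.exp (3 * d * Real.log d) := by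
  have hE : 2.7 ≤ Real.exp M := by
    have h1 := Real.exp_one_gt_d9
    have h2 : Real.exp 1 ≤ Real.exp M := Real.exp_le_exp.2 hM
    linarith
  have hd10 : 10 ≤ d := by nlinarith
  have hd0 : 0 < d := by linarith
  have hl1 : 1 ≤ Real.log d := by
    have h1 : M ≤ Real.log d := (Real.le_log_iff_exp_le hd0).2 hd
    linarith
  have hMl : M ≤ Real.log d := (Real.le_log_iff_exp_le hd0).2 hd
  have hld : Real.log d ≤ d := by
    have := Real.log_le_sub_one_of_pos hd0
    linarith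
  have hl0 : 0 ≤ Real.log d := by linarith
  obtain ⟨R, hR⟩ : ∃ R : ℝ, R = Real.exp (d * Real.log d) := ⟨_, rfl⟩
  have hR0 : 0 < R := by rw [hR]; exact Real.exp_pos _
  have hRd : d ^ 10 ≤ R := by
    have h1 : d ^ 10 = Real.exp (10 * Real.log d) := by
      have h2 : (10 : ℝ) * Real.log d = ((10 : ℕ) : ℝ) * Real.log d := by norm_num
      rw [h2, Real.exp_nat_mul, Real.exp_log hd0]
    rw [h1, hR]
    exact Real.exp_le_exp.2 (mul_le_mul_of_nonneg_right hd10 hl0)
  have hd4 : (0 : ℝ) < d ^ 4 := by positivity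
  have hd6 : (10 : ℝ) ^ 6 ≤ d ^ 6 := pow_le_pow_left₀ (by norm_num) hd10 6
  have hRd4 : 1000000 * d ^ 4 ≤ R := by
    have h1 : d ^ 10 = d ^ 6 * d ^ 4 := by ring
    have h2 : (10 : ℝ) ^ 6 * d ^ 4 ≤ d ^ 6 * d ^ 4 := mul_le_mul_of_nonneg_right hd6 hd4.le
    have h3 : (10 : ℝ) ^ 6 = 1000000 := by norm_num
    rw [h3] at h2
    linarith
  have hd1 : 1 ≤ d := by linarith
  have hp1 : d ≤ d ^ 4 := by
    calc d = d ^ 1 := (pow_one d).symm
      _ ≤ d ^ 4 := pow_le_pow_right₀ hd1 (by norm_num)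
  have hp2 : d ^ 2 ≤ d ^ 4 := pow_le_pow_right₀ hd1 (by norm_num)
  have hp0 : 1 ≤ d ^ 4 := one_le_pow₀ hd1
  have hR1 : 1 ≤ R := by linarith
  have hP : Real.exp (2 * d * Real.log d) = R ^ 2 := by
    rw [hR, ← Real.exp_nat_mul]
    congr 1
    push_cast
    ring
  have hQ : Real.exp (3 * d * Real.log d) = R ^ 3 := by
    rw [hR, ← Real.exp_nat_mul]
    congr 1
    push_cast
    ring
  rw [hP, hQ]
  have hR2 : 1 ≤ R ^ 2 := one_le_pow₀ hR1
  constructor
  · have h1 : Real.log d * (d ^ 2 * Real.exp M) ≤ d * (d ^ 2 * d) := by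
      apply mul_le_mul hld _ (by positivity) hd0.le
      exact mul_le_mul_of_nonneg_left hd (by positivity)
    have h2 : d * (d ^ 2 * d) = d ^ 4 := by ring
    have h3 : ((j : ℝ) + 1) * Real.log d ≤ d * d := by
      apply mul_le_mul hjd hld hl0 hd0.le
    have h4 : d * d = d ^ 2 := by ring
    have h5 : 128 * Real.log d * R ^ 2 * d ^ 2 * Real.exp M =
        R ^ 2 * (128 * (Real.log d * (d ^ 2 * Real.exp M))) := by ring
    have h6 : R ^ 2 * (128 * (Real.log d * (d ^ 2 * Real.exp M))) ≤ R ^ 2 * (128 * d ^ 4) := by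
      apply mul_le_mul_of_nonneg_left _ (by positivity)
      linarith
    have h7 : 4 * ((j : ℝ) + 1) * Real.log d + 2 ≤ R ^ 2 * (6 * d ^ 4) := by
      have h8 : 4 * ((j : ℝ) + 1) * Real.log d + 2 ≤ 6 * d ^ 4 := by nlinarith
      have h9 : 1 * (6 * d ^ 4) ≤ R ^ 2 * (6 * d ^ 4) :=
        mul_le_mul_of_nonneg_right hR2 (by positivity)
      linarith
    have h10 : R ^ 2 * (134 * d ^ 4) ≤ R ^ 2 * R := by
      apply mul_le_mul_of_nonneg_left _ (by positivity)
      linarith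
    rw [h5]
    calc R ^ 2 * (128 * (Real.log d * (d ^ 2 * Real.exp M))) +
          4 * ((j : ℝ) + 1) * Real.log d + 2 ≤ R ^ 2 * (128 * d ^ 4) + R ^ 2 * (6 * d ^ 4) := by
          linarith
      _ = R ^ 2 * (134 * d ^ 4) := by ring
      _ ≤ R ^ 2 * R := h10
      _ = R ^ 3 := by ring
  · have hq : 1 / (Real.exp M / d) ^ j ≤ R := by
      have h1 : 1 / (Real.exp M / d) ^ j = (d / Real.exp M) ^ j := by
        rw [one_div, ← inv_pow, inv_div]
      have h2 : d / Real.exp M ≤ d := div_le_self hd0.le (by linarith)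
      have h3 : (d / Real.exp M) ^ j ≤ d ^ j := pow_le_pow_left₀ (by positivity) h2 j
      have h4 : d ^ j = Real.exp ((j : ℝ) * Real.log d) := by
        rw [Real.exp_nat_mul, Real.exp_log hd0]
      have h5 : Real.exp ((j : ℝ) * Real.log d) ≤ R := by
        rw [hR]
        exact Real.exp_le_exp.2 (mul_le_mul_of_nonneg_right (by linarith) hl0)
      rw [h1]
      linarith
    have h6 : 2 * M / (Real.exp M / d) ^ j = 2 * M * (1 / (Real.exp M / d) ^ j) := by ring
    have h7 : 2 * M * (1 / (Real.exp M / d) ^ j) ≤ 2 * d * R := by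
      apply mul_le_mul _ hq (by positivity) (by positivity)
      linarith
    rw [h6]
    have h8 : d * R ≤ R * R := mul_le_mul_of_nonneg_right (by linarith) hR0.le
    have h9 : R * R ≤ R ^ 3 / 1000000 := by
      have h10 : 1000000 * (R * R) ≤ R * (R * R) :=
        mul_le_mul_of_nonneg_right (by nlinarith) (by positivity)
      have h11 : R ^ 3 = R * (R * R) := by ring
      linarith
    nlinarith

theorem cover_x {M d κ : ℝ} {j : ℕ} (hM : 1 ≤ M) (hd : Real.exp M ≤ d)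
    (hjd : (j : ℝ) + 1 ≤ d)
    (hj : 4 * M * Real.exp M ≤ (j : ℝ) + 1) (hκ0 : 0 < κ)
    (hκ : κ * (128 * ((j : ℝ) + 1)) ≤ Real.exp (-M))
    {k : ℕ} (hk : Real.exp (3 * d * Real.log d) ≤ (k : ℝ))
    {t : ℕ} (ht : (t : ℝ) * Real.exp (3 * d * Real.log d) ≤ (k : ℝ))
    (V : Type) [Fintype V] [DecidableEq V] (F : Finset (Finset V)) (hF : Unif k F) :
    (k : ℝ) * (tau F : ℝ) ≤
      (Real.log d - M + 2) * (Fintype.card V : ℝ) + 8 * Real.exp M * Nb F t (κ * d) / d
        + 3 * ((k : ℝ) * (F.card : ℝ)) / d := by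
  obtain ⟨hn1, hn2⟩ := XCover_num hM hd hjd hj
  have hd0 : 0 < d := (Real.exp_pos M).trans_le hd
  have hlog : M ≤ Real.log d := (Real.le_log_iff_exp_le hd0).2 hd
  have hl1 : 1 ≤ Real.log d := hM.trans hlog
  set A : ℝ := 128 * Real.log d * Real.exp (2 * d * Real.log d) * d ^ 2 * Real.exp M with hA
  have hA0 : 0 < A := by positivity
  set W : ℝ := A + 4 * ((j : ℝ) + 1) * Real.log d + 2 with hW
  have hj0 : (0 : ℝ) ≤ (j : ℝ) := Nat.cast_nonneg j
  have hjl : 0 ≤ ((j : ℝ) + 1) * Real.log d := by positivity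
  have hW0 : 0 < W := by nlinarith
  set q : ℝ := (Real.exp M / d) ^ j with hq
  have hq0 : 0 < q := by positivity
  have hk' : 4 * Real.log d + 2 * M / q + 1 ≤ (k : ℝ) := hn2.trans hk
  have hMq : 0 ≤ 2 * M / q := by positivity
  have hk1' : (1 : ℝ) ≤ (k : ℝ) := by linarith
  have hk1 : 1 ≤ k := by exact_mod_cast hk1'
  have hk0 : (0 : ℝ) < (k : ℝ) := by linarith
  have ht0 : (0 : ℝ) ≤ (t : ℝ) := Nat.cast_nonneg t
  have ht' : (t : ℝ) * W ≤ (k : ℝ) := (mul_le_mul_of_nonneg_left hn1 ht0).trans ht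
  have htA : (t : ℝ) * A ≤ (k : ℝ) := by
    refine le_trans (mul_le_mul_of_nonneg_left ?_ ht0) ht'
    nlinarith
  have htj : (t : ℝ) * (4 * ((j : ℝ) + 1) * Real.log d) ≤ (k : ℝ) := by
    refine le_trans (mul_le_mul_of_nonneg_left ?_ ht0) ht'
    linarith
  have ht2 : (t : ℝ) * 2 ≤ (k : ℝ) := by
    refine le_trans (mul_le_mul_of_nonneg_left ?_ ht0) ht'
    nlinarith
  obtain ⟨S, hS1, hS2⟩ := deg_red F hd0
  have hy0 : 0 < Real.exp M / d := by positivity
  have hy1 : Real.exp M / d ≤ 1 := (div_le_one hd0).2 hd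
  obtain ⟨r, hr0, hr1, hrk, hkr⟩ := exists_rate hk1 hy0 hy1
  have hlogy : Real.log (Real.exp M / d) = M - Real.log d := by
    rw [Real.log_div (Real.exp_pos M).ne' hd0.ne', Real.log_exp]
  refine XCover_step hd0 hS1
    { hk := hk1
      unif := res_unif hF S
      hdeg := fun v => (hS2 v).le
      hM := hM
      hd := hd
      hr0 := hr0
      hr1 := hr1
      hrk := hrk
      hkr := by rw [hlogy] at hkr; linarith
      hj := hj
      hκ0 := hκ0
      hκ := hκ
      htk := by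
        have : (t : ℝ) < (k : ℝ) := by
          rcases ht0.eq_or_lt with h | h
          · rw [← h]; exact hk0
          · linarith
        exact_mod_cast this
      hhalf := ?_
      hx := ?_
      hvar := by
        calc 128 * Real.log d * Real.exp (2 * d * Real.log d) * d ^ 2 * Real.exp M * (t : ℝ)
            = (t : ℝ) * A := by rw [hA]; ring
          _ ≤ (k : ℝ) := htA }
  · refine XCover_half (y := Real.log d - M) (L := (k : ℝ) / 2) hk1 hr1 ?_ ?_ le_rfl
    · rw [hrk, ← Real.exp_log hy0, hlogy]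
      congr 1
      ring
    · push_cast
      have h1 : 0 ≤ Real.log d - M := by linarith
      have h2 : (0 : ℝ) ≤ (j : ℝ) * (t : ℝ) + 1 := by positivity
      have h3 : (Real.log d - M) * ((j : ℝ) * (t : ℝ) + 1) ≤
          Real.log d * ((j : ℝ) * (t : ℝ) + 1) := mul_le_mul_of_nonneg_right (by linarith) h2
      have h4 : Real.log d * ((j : ℝ) * (t : ℝ)) ≤ (k : ℝ) / 4 := by
        have h5 : 0 ≤ (t : ℝ) * Real.log d := by positivity
        nlinarith
      nlinarith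
  · have h1 : 2 * M / q ≤ (k : ℝ) := by linarith
    exact (div_le_iff₀ hq0).1 h1

end Pool.Agent.DCX
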