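import Mathlib

/-!
The tower function and the iterated triple exponential.
-/

namespace Pool.Agent.DCX

/-- `tower 0 = 1`, `tower (L + 1) = 2 ^ tower L` -/
def tower : ℕ → ℕ
  | 0 => 1
  | L + 1 => 2 ^ tower L

theorem tower_succ (L : ℕ) : tower (L + 1) = 2 ^ tower L := rfl

theorem lt_tower (L : ℕ) : L < tower L := by
  induction L with
  | zero => simp [tower]
  | succ L ih =>
    rw [tower_succ]
    have h := Nat.lt_two_pow_self (n := tower L)
    omega

theorem tower_mono {a b : ℕ} (h : a ≤ b) : tower a ≤ tower b := by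
  induction b, h using Nat.le_induction with
  | base => exact le_rfl
  | succ b _ ih =>
    rw [tower_succ]
    have h := Nat.lt_two_pow_self (n := tower b)
    omega

/-- triple exponential -/
noncomputable def eee (x : ℝ) : ℝ := Real.exp (Real.exp (Real.exp x))

theorem le_eee (x : ℝ) : x ≤ eee x := by
  unfold eee
  have h1 := Real.add_one_le_exp x
  have h2 := Real.add_one_le_exp (Real.exp x)
  have h3 := Real.add_one_le_exp (Real.exp (Real.exp x))
  linarith

theorem eee_mono {x y : ℝ} (h : x ≤ y) : eee x ≤ eee y :=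
  Real.exp_le_exp.2 (Real.exp_le_exp.2 (Real.exp_le_exp.2 h))

private theorem XTower_two (y : ℝ) (hy : 0 ≤ y) : y ≤ (2 : ℝ) ^ y * Real.log 2 := by
  have hl := Real.log_two_gt_d9
  have hl0 : 0 < Real.log 2 := by linarith
  -- `2 ^ y = exp (y log 2) ≥ e * (y log 2)`; use `exp z ≥ 1 + z + z ^ 2 / 2`
  have h1 : (2 : ℝ) ^ y = Real.exp (Real.log 2 * y) :=
    Real.rpow_def_of_pos (by norm_num) y
  rw [h1]
  have hz : 0 ≤ Real.log 2 * y := by positivity
  have h2 := Real.quadratic_le_exp_of_nonneg hz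
  have h3 : y ≤ (1 + Real.log 2 * y + (Real.log 2 * y) ^ 2 / 2) * Real.log 2 := by
    have hu := Real.log_two_lt_d9
    have e1 : (0.69 : ℝ) ≤ Real.log 2 := by linarith
    have e2 : (0.69 : ℝ) * 0.69 ≤ Real.log 2 * Real.log 2 :=
      mul_le_mul e1 e1 (by norm_num) hl0.le
    have e3 : (0.69 : ℝ) * 0.69 * 0.69 ≤ Real.log 2 * Real.log 2 * Real.log 2 :=
      mul_le_mul e2 e1 (by norm_num) (by positivity)
    have e4 : (1 + Real.log 2 * y + (Real.log 2 * y) ^ 2 / 2) * Real.log 2 =
        Real.log 2 + Real.log 2 * Real.log 2 * y +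
          (Real.log 2 * Real.log 2 * Real.log 2) * y ^ 2 / 2 := by ring
    rw [e4]
    have e5 : (0.69 * 0.69) * y ≤ Real.log 2 * Real.log 2 * y :=
      mul_le_mul_of_nonneg_right e2 hy
    have e6 : (0.69 * 0.69 * 0.69) * y ^ 2 ≤ (Real.log 2 * Real.log 2 * Real.log 2) * y ^ 2 :=
      mul_le_mul_of_nonneg_right e3 (by positivity)
    nlinarith [sq_nonneg (y - 8 / 5)]
  have h4 := mul_le_mul_of_nonneg_right h2 hl0.le
  linarith

theorem exp_tower_le (L : ℕ) : Real.exp (tower L : ℝ) ≤ (tower (L + 2) : ℝ) := by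
  have h0 : (0 : ℝ) ≤ (tower L : ℝ) := Nat.cast_nonneg _
  have h1 := XTower_two (tower L : ℝ) h0
  have h2 : ((tower (L + 2) : ℕ) : ℝ) = Real.exp (((2 : ℝ) ^ (tower L : ℝ)) * Real.log 2) := by
    rw [tower_succ, tower_succ]
    push_cast
    rw [← Real.rpow_natCast 2 (2 ^ tower L), Real.rpow_def_of_pos (by norm_num)]
    congr 1
    push_cast
    rw [← Real.rpow_natCast 2 (tower L)]
    ring
  rw [h2]
  exact Real.exp_le_exp.2 h1

theorem eee_le_tower {x : ℝ} {L : ℕ} (h : x ≤ (tower L : ℝ)) : eee x ≤ (tower (L + 6) : ℝ) := by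
  unfold eee
  have h1 : Real.exp x ≤ (tower (L + 2) : ℝ) :=
    (Real.exp_le_exp.2 h).trans (exp_tower_le L)
  have h2 : Real.exp (Real.exp x) ≤ (tower (L + 4) : ℝ) :=
    (Real.exp_le_exp.2 h1).trans (exp_tower_le (L + 2))
  exact (Real.exp_le_exp.2 h2).trans (exp_tower_le (L + 4))

/-- iterates of the triple exponential -/
noncomputable def itr (x : ℝ) : ℕ → ℝ
  | 0 => x
  | n + 1 => eee (itr x n)

theorem itr_succ (x : ℝ) (n : ℕ) : itr x (n + 1) = eee (itr x n) := rfl

theorem le_itr (x : ℝ) (n : ℕ) : x ≤ itr x n := by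
  induction n with
  | zero => exact le_rfl
  | succ n ih => rw [itr_succ]; exact ih.trans (le_eee _)

theorem itr_le_tower {x : ℝ} {L : ℕ} (h : x ≤ (tower L : ℝ)) (n : ℕ) :
    itr x n ≤ (tower (L + 6 * n) : ℝ) := by
  induction n with
  | zero => exact h
  | succ n ih =>
    rw [itr_succ]
    have := eee_le_tower ih
    have e : L + 6 * n + 6 = L + 6 * (n + 1) := by ring
    rwa [e] at this

end Pool.Agent.DCX
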