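import Pool.Agent.DCX.XRound
import Pool.Agent.DCX.XTower

/-!
Theorem H with an explicit threshold: a tower of height at most `C A ^ 10` when the gain is
`K = log A + 3`.
-/

namespace Pool.Agent.DCX

private theorem XMain_dex_pos (K : ℝ) : 0 < dex K := by
  have h1 : 0 < kax K := by
    unfold kax; positivity
  have h2 : 0 < bex K := by
    unfold bex; positivity
  unfold dex
  positivity

/-- the induction over the rounds -/
theorem main_itr {K D₀ : ℝ} (hK : 0 ≤ K) (h5 : 5 ≤ D₀) (hj : (jx K : ℝ) + 1 ≤ D₀)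
    (hM : Real.exp (K + 8) ≤ D₀) (hη : Real.log (16 / bex K) ≤ D₀) (i : ℕ) :
    ∀ k : ℕ, itr D₀ i ≤ (k : ℝ) → ∀ n : ℕ,
      Sb (Fin n) k (max (1 - (i : ℝ) * dex K) (-K)) (itr D₀ i) := by
  induction i with
  | zero =>
    intro k hk n
    have hk1 : 1 ≤ k := by
      have : (5 : ℝ) ≤ (k : ℝ) := h5.trans hk
      have h2 : 5 ≤ k := by exact_mod_cast this
      omega
    refine Sb_mono ?_ ?_ (Sb_base hk1)
    · simp
    · show (1 : ℝ) ≤ D₀
      linarith
  | succ i ih =>
    intro k hk n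
    have hle := le_itr D₀ i
    have h := round_x (K := K) (C := max (1 - (i : ℝ) * dex K) (-K)) (D := itr D₀ i) hK
      (h5.trans hle) (hj.trans hle) (hM.trans hle) (hη.trans hle) ih k hk n
    refine Sb_mono ?_ le_rfl h
    refine max_le ?_ (le_max_right _ _)
    have hd := XMain_dex_pos K
    have e : max (1 - (i : ℝ) * dex K) (-K) - dex K =
        max (1 - (i : ℝ) * dex K - dex K) (-K - dex K) := by
      rw [max_sub_sub_right]
    rw [e]
    refine max_le_max ?_ (by linarith)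
    push_cast
    linarith

private theorem XMain_jx {K : ℝ} (hK : 0 ≤ K) :
    (jx K : ℝ) + 1 ≤ 5 * (K + 8) * Real.exp (K + 8) := by
  have h1 : (jx K : ℝ) < 4 * (K + 8) * Real.exp (K + 8) + 1 := by
    unfold jx
    exact Nat.ceil_lt_add_one (by positivity)
  have h2 := Real.add_one_le_exp (K + 8)
  have h3 : (2 : ℝ) ≤ (K + 8) * Real.exp (K + 8) := by nlinarith
  nlinarith

/-- size of `1 / dex K` -/
private theorem XMain_dex {K : ℝ} (hK : 0 ≤ K) :
    1 / dex K ≤ (2 ^ 22 * (5120 : ℝ) ^ 3) * (K + 8) ^ 3 * Real.exp (9 * (K + 8)) := by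
  have hj := XMain_jx hK
  have hj0 : (0 : ℝ) < (jx K : ℝ) + 1 := by positivity
  have hM : (0 : ℝ) < K + 8 := by linarith
  have hE : 0 < Real.exp (K + 8) := Real.exp_pos _
  have h1 : kax K * bex K = 1 / (1024 * ((jx K : ℝ) + 1) * Real.exp (K + 8) ^ 2) := by
    unfold kax bex
    rw [Real.exp_neg]
    field_simp
    norm_num
  have h2 : dex K = (kax K * bex K) ^ 3 / 2 ^ 22 := by
    unfold dex; ring
  have h3 : 1 / dex K = 2 ^ 22 * (1024 * ((jx K : ℝ) + 1) * Real.exp (K + 8) ^ 2) ^ 3 := by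
    rw [h2, h1]
    field_simp
  have h4 : 1024 * ((jx K : ℝ) + 1) * Real.exp (K + 8) ^ 2 ≤
      5120 * (K + 8) * Real.exp (K + 8) ^ 3 := by
    have h5 : 1024 * ((jx K : ℝ) + 1) * Real.exp (K + 8) ^ 2 ≤
        1024 * (5 * (K + 8) * Real.exp (K + 8)) * Real.exp (K + 8) ^ 2 := by
      refine mul_le_mul_of_nonneg_right ?_ (by positivity)
      linarith
    refine h5.trans (le_of_eq ?_)
    ring
  have h6 : (1024 * ((jx K : ℝ) + 1) * Real.exp (K + 8) ^ 2) ^ 3 ≤
      (5120 * (K + 8) * Real.exp (K + 8) ^ 3) ^ 3 :=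
    pow_le_pow_left₀ (by positivity) h4 3
  have h7 : Real.exp (9 * (K + 8)) = Real.exp (K + 8) ^ 9 := by
    rw [← Real.exp_nat_mul]; norm_num
  rw [h3, h7]
  calc 2 ^ 22 * (1024 * ((jx K : ℝ) + 1) * Real.exp (K + 8) ^ 2) ^ 3
      ≤ 2 ^ 22 * (5120 * (K + 8) * Real.exp (K + 8) ^ 3) ^ 3 :=
        mul_le_mul_of_nonneg_left h6 (by norm_num)
    _ = _ := by ring

/-- the starting threshold -/
private theorem XMain_D0 {K : ℝ} (hK : 0 ≤ K) :
    (5 : ℝ) ≤ Real.exp (2 * K + 20) ∧ (jx K : ℝ) + 1 ≤ Real.exp (2 * K + 20) ∧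
      Real.exp (K + 8) ≤ Real.exp (2 * K + 20) ∧
      Real.log (16 / bex K) ≤ Real.exp (2 * K + 20) := by
  have hM : (0 : ℝ) < K + 8 := by linarith
  have h1 := Real.add_one_le_exp (2 * K + 20)
  have h2 : Real.exp (K + 8) ≤ Real.exp (2 * K + 20) := Real.exp_le_exp.2 (by linarith)
  refine ⟨by linarith, ?_, h2, ?_⟩
  · refine (XMain_jx hK).trans ?_
    have h3 : 5 * (K + 8) ≤ Real.exp (K + 12) := by
      have h4 := Real.quadratic_le_exp_of_nonneg (by linarith : (0 : ℝ) ≤ K + 12)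
      nlinarith
    have h5 : Real.exp (2 * K + 20) = Real.exp (K + 12) * Real.exp (K + 8) := by
      rw [← Real.exp_add]; congr 1; ring
    rw [h5]
    exact mul_le_mul_of_nonneg_right h3 (Real.exp_pos _).le
  · have h3 : 16 / bex K = 128 * Real.exp (K + 8) := by
      unfold bex
      rw [Real.exp_neg]
      field_simp
      norm_num
    rw [h3, Real.log_mul (by norm_num) (Real.exp_pos _).ne', Real.log_exp]
    have h4 : Real.log 128 ≤ 7 := by
      have h5 : (128 : ℝ) = 2 ^ 7 := by norm_num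
      rw [h5, Real.log_pow]
      have := Real.log_two_lt_d9
      push_cast
      linarith
    linarith

/-- Theorem H, explicit: height `C A ^ 10` -/
theorem main_x : ∃ C : ℝ, 0 ≤ C ∧ ∀ A : ℝ, 1 ≤ A → ∀ L : ℕ, C * A ^ 10 ≤ (L : ℝ) →
    ∃ D : ℝ, Real.exp 8 ≤ D ∧ D ≤ (tower L : ℝ) ∧
      ∀ k : ℕ, D ≤ (k : ℝ) → ∀ n : ℕ, Sb (Fin n) k (-(Real.log A + 3)) D := by
  set B : ℝ := (2 ^ 22 * (5120 : ℝ) ^ 3) with hB
  have hB1 : 1 ≤ B := by rw [hB]; norm_num
  refine ⟨6 * B * 15 ^ 4 * Real.exp 99 + 100, by positivity, ?_⟩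
  intro A hA L hL
  have hA0 : 0 < A := by linarith
  have hlog : 0 ≤ Real.log A := Real.log_nonneg hA
  obtain ⟨K, hK⟩ : ∃ K : ℝ, K = Real.log A + 3 := ⟨_, rfl⟩
  have hK0 : 0 ≤ K := by linarith
  obtain ⟨h5, hj, hM, hη⟩ := XMain_D0 hK0
  obtain ⟨N, hN⟩ : ∃ N : ℕ, N = ⌈(1 + K) / dex K⌉₊ := ⟨_, rfl⟩
  obtain ⟨L₀, hL₀⟩ : ∃ L₀ : ℕ, L₀ = ⌈2 * K + 20⌉₊ + 2 := ⟨_, rfl⟩
  have hdex := XMain_dex_pos K
  refine ⟨itr (Real.exp (2 * K + 20)) N, ?_, ?_, ?_⟩
  · refine le_trans ?_ (le_itr _ _)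
    exact Real.exp_le_exp.2 (by linarith)
  · -- tower bound
    have hstart : Real.exp (2 * K + 20) ≤ (tower L₀ : ℝ) := by
      rw [hL₀]
      refine le_trans (Real.exp_le_exp.2 ?_) (exp_tower_le ⌈2 * K + 20⌉₊)
      have h1 : (2 * K + 20) ≤ (⌈2 * K + 20⌉₊ : ℝ) := Nat.le_ceil _
      have h2 : ((⌈2 * K + 20⌉₊ : ℕ) : ℝ) ≤ (tower ⌈2 * K + 20⌉₊ : ℝ) := by
        exact_mod_cast (lt_tower _).le
      linarith
    refine (itr_le_tower hstart N).trans ?_
    have hle : L₀ + 6 * N ≤ L := by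
      have hr : ((L₀ + 6 * N : ℕ) : ℝ) ≤ (L : ℝ) := by
        refine le_trans ?_ hL
        -- sizes
        have hN1 : (N : ℝ) ≤ (1 + K) / dex K + 1 := by
          rw [hN]
          exact (Nat.ceil_lt_add_one (by positivity)).le
        have hL1 : (L₀ : ℝ) ≤ 2 * K + 23 := by
          rw [hL₀]
          push_cast
          have := (Nat.ceil_lt_add_one (by linarith : (0 : ℝ) ≤ 2 * K + 20)).le
          linarith
        have hdx := XMain_dex hK0
        -- `M = K + 8 ≤ 15 A^(1/4)`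
        obtain ⟨a, ha⟩ : ∃ a : ℝ, a = A ^ ((1 : ℝ) / 4) := ⟨_, rfl⟩
        have ha1 : 1 ≤ a := by rw [ha]; exact Real.one_le_rpow hA (by norm_num)
        have ha4 : a ^ 4 = A := by
          rw [ha, ← Real.rpow_natCast, ← Real.rpow_mul hA0.le]
          norm_num
        have hloga : Real.log A = 4 * Real.log a := by
          rw [← ha4, Real.log_pow]; norm_num
        have hla : Real.log a ≤ a - 1 := Real.log_le_sub_one_of_pos (by linarith)
        have hM15 : K + 8 ≤ 15 * a := by rw [hK]; linarith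
        have hM0 : 0 ≤ K + 8 := by linarith
        have hM4 : (K + 8) ^ 4 ≤ 15 ^ 4 * A := by
          have := pow_le_pow_left₀ hM0 hM15 4
          rw [mul_pow, ha4] at this
          exact this
        have hexp : Real.exp (9 * (K + 8)) = A ^ 9 * Real.exp 99 := by
          have e1 : 9 * (K + 8) = (9 : ℕ) * Real.log A + 99 := by rw [hK]; push_cast; ring
          rw [e1, Real.exp_add, Real.exp_nat_mul, Real.exp_log hA0]
        have hE99 : 0 < Real.exp 99 := Real.exp_pos _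
        have h1K : (1 + K) / dex K ≤ B * (15 ^ 4 * A) * (A ^ 9 * Real.exp 99) := by
          calc (1 + K) / dex K = (1 + K) * (1 / dex K) := by ring
            _ ≤ (K + 8) * (B * (K + 8) ^ 3 * Real.exp (9 * (K + 8))) := by
                refine mul_le_mul (by linarith) hdx (by positivity) hM0
            _ = B * (K + 8) ^ 4 * Real.exp (9 * (K + 8)) := by ring
            _ = B * (K + 8) ^ 4 * (A ^ 9 * Real.exp 99) := by rw [hexp]
            _ ≤ B * (15 ^ 4 * A) * (A ^ 9 * Real.exp 99) := by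
                refine mul_le_mul_of_nonneg_right ?_ (by positivity)
                exact mul_le_mul_of_nonneg_left hM4 (by linarith)
        have hA10 : A ≤ A ^ 10 := by
          calc A = A ^ 1 := (pow_one A).symm
            _ ≤ A ^ 10 := pow_le_pow_right₀ hA (by norm_num)
        have hKA : K ≤ A + 2 := by
          have := Real.log_le_sub_one_of_pos hA0
          rw [hK]; linarith
        push_cast
        have e2 : B * (15 ^ 4 * A) * (A ^ 9 * Real.exp 99) = B * 15 ^ 4 * Real.exp 99 * A ^ 10 := by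
          ring
        rw [e2] at h1K
        have h1A : 1 ≤ A ^ 10 := one_le_pow₀ hA
        nlinarith
      exact_mod_cast hr
    exact_mod_cast tower_mono hle
  · intro k hk n
    rw [← hK]
    refine Sb_mono ?_ le_rfl (main_itr hK0 h5 hj hM hη N k hk n)
    refine max_le ?_ le_rfl
    have h1 : (1 + K) / dex K ≤ (N : ℝ) := by rw [hN]; exact Nat.le_ceil _
    rw [div_le_iff₀ hdex] at h1
    linarith

end Pool.Agent.DCX
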