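import Pool.Agent.DCX.XCover
import Pool.Agent.DCX.Round

/-!
Explicit form of one round: all constants are explicit functions of `K`, and one round costs
`D ↦ exp (exp (exp D))`.
-/

namespace Pool.Agent.DCX

open Finset

noncomputable def Mx (K : ℝ) : ℝ := K + 8
noncomputable def jx (K : ℝ) : ℕ := ⌈4 * (K + 8) * Real.exp (K + 8)⌉₊
noncomputable def kax (K : ℝ) : ℝ := Real.exp (-(K + 8)) / (128 * ((jx K : ℝ) + 1))
noncomputable def bex (K : ℝ) : ℝ := Real.exp (-(K + 8)) / 8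
noncomputable def dex (K : ℝ) : ℝ := (kax K * bex K / 64) ^ 2 * kax K * bex K / 1024

private theorem XRound_pow {r y E η : ℝ} {k t : ℕ} (hk : 1 ≤ k) (hr1 : r < 1)
    (hrk : (1 - r) ^ k = y) (hy0 : 0 < y) (hy1 : y ≤ 1) (hE : 0 < E)
    (ht : (k : ℝ) ≤ ((t : ℝ) + 1) * E) (hη0 : 0 < η)
    (hyη : E * Real.log (1 / η) ≤ -Real.log y) :
    (1 - r) ^ (t + 1) ≤ η := by
  have hk0 : (0 : ℝ) < (k : ℝ) := by exact_mod_cast (by omega : 0 < k)
  have h1r : 0 < 1 - r := by linarith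
  have hlogy : (k : ℝ) * Real.log (1 - r) = Real.log y := by rw [← hrk, Real.log_pow]
  have hlog0 : Real.log (1 - r) ≤ 0 := by
    have h1 : Real.log y ≤ 0 := Real.log_nonpos hy0.le hy1
    by_contra hcon
    push Not at hcon
    have : 0 < (k : ℝ) * Real.log (1 - r) := by positivity
    linarith
  rw [← Real.exp_log (pow_pos h1r (t + 1)), ← Real.exp_log hη0]
  apply Real.exp_le_exp.2
  rw [Real.log_pow]
  push_cast
  have h2 : Real.log (1 / η) = -Real.log η := by rw [one_div, Real.log_inv]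
  rw [h2] at hyη
  -- `E * ((t+1) log (1-r)) ≤ k log (1-r) = log y ≤ E log η`
  have h3 : ((t : ℝ) + 1) * E * Real.log (1 - r) ≤ (k : ℝ) * Real.log (1 - r) :=
    mul_le_mul_of_nonpos_right ht hlog0
  have h4 : E * (((t : ℝ) + 1) * Real.log (1 - r)) ≤ E * Real.log η := by
    have h5 : E * (((t : ℝ) + 1) * Real.log (1 - r)) = ((t : ℝ) + 1) * E * Real.log (1 - r) := by
      ring
    rw [h5]
    linarith
  exact le_of_mul_le_mul_left h4 hE

private theorem XRound_small {κ β : ℝ} (hκ0 : 0 < κ) (hκ1 : κ ≤ 1) (hβ0 : 0 < β) (hβ1 : β ≤ 1) :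
    2 * (β / 16) + 2 * (16 * ((κ * β / 64) ^ 2 * κ * β / 1024) / (κ * β / 64) ^ 2)
      + 8 / κ * (κ * β / 64 + 16 * ((κ * β / 64) ^ 2 * κ * β / 1024) / (κ * β / 64) ^ 2
        + (κ * β / 64) ^ 2 * κ * β / 1024) ≤ β := by
  have e1 : 16 * ((κ * β / 64) ^ 2 * κ * β / 1024) / (κ * β / 64) ^ 2 = κ * β / 64 := by
    field_simp
    ring
  rw [e1]
  have e2 : 8 / κ * (κ * β / 64 + κ * β / 64 + (κ * β / 64) ^ 2 * κ * β / 1024)
      = β / 4 + (κ * β / 64) ^ 2 * β / 128 := by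
    field_simp
    ring
  rw [e2]
  have h1 : κ * β ≤ 1 := by nlinarith
  have h2 : 0 < κ * β := by positivity
  have h3 : (κ * β / 64) ^ 2 ≤ 1 := by nlinarith
  have h4 : (κ * β / 64) ^ 2 * β ≤ 1 * β := mul_le_mul_of_nonneg_right h3 hβ0.le
  have h5 : κ * β ≤ 1 * β := mul_le_mul_of_nonneg_right hκ1 hβ0.le
  linarith

/-- `3 d log d ≤ exp D` etc. for `d = e D` -/
private theorem XRound_num {D : ℝ} (hD : 1000 ≤ D) :
    3 * (Real.exp 1 * D) * Real.log (Real.exp 1 * D) ≤ Real.exp D ∧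
      Real.log (Real.exp 1 * D) +
        Real.exp (3 * (Real.exp 1 * D) * Real.log (Real.exp 1 * D)) * D ≤
          Real.exp (Real.exp D) := by
  have hD0 : 0 < D := by linarith
  have he : Real.exp 1 ≤ 3 := by
    have := Real.exp_one_lt_d9
    linarith
  have he0 : 0 < Real.exp 1 := Real.exp_pos 1
  have hlog : Real.log (Real.exp 1 * D) = 1 + Real.log D := by
    rw [Real.log_mul he0.ne' hD0.ne', Real.log_exp]
  have hl0 : 0 ≤ Real.log D := Real.log_nonneg (by linarith)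
  have hl1 : Real.log D ≤ D - 1 := Real.log_le_sub_one_of_pos hD0
  have h1 : 3 * (Real.exp 1 * D) * Real.log (Real.exp 1 * D) ≤ 9 * D ^ 2 := by
    rw [hlog]
    have h2 : Real.exp 1 * D ≤ 3 * D := mul_le_mul_of_nonneg_right he hD0.le
    have h3 : 3 * (Real.exp 1 * D) * (1 + Real.log D) ≤ 3 * (3 * D) * D := by
      apply mul_le_mul _ (by linarith) (by linarith) (by positivity)
      linarith
    nlinarith
  have h4 : D ^ 4 / 64 ≤ Real.exp D := by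
    have h5 : 1 + D / 2 + (D / 2) ^ 2 / 2 ≤ Real.exp (D / 2) :=
      Real.quadratic_le_exp_of_nonneg (by positivity)
    have h6 : D ^ 2 / 8 ≤ Real.exp (D / 2) := by nlinarith
    have h7 : Real.exp D = Real.exp (D / 2) * Real.exp (D / 2) := by
      rw [← Real.exp_add]; congr 1; ring
    have h8 : D ^ 2 / 8 * (D ^ 2 / 8) ≤ Real.exp (D / 2) * Real.exp (D / 2) :=
      mul_le_mul h6 h6 (by positivity) (Real.exp_pos _).le
    rw [h7]
    calc D ^ 4 / 64 = D ^ 2 / 8 * (D ^ 2 / 8) := by ring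
      _ ≤ _ := h8
  have h9 : 9 * D ^ 2 + D ≤ D ^ 4 / 64 := by
    have h10 : (1000000 : ℝ) ≤ D ^ 2 := by nlinarith
    have h11 : D ^ 4 = D ^ 2 * D ^ 2 := by ring
    have h12 : D ≤ D ^ 2 := by nlinarith
    nlinarith
  refine ⟨by linarith, ?_⟩
  obtain ⟨y, hy⟩ : ∃ y : ℝ, y = 3 * (Real.exp 1 * D) * Real.log (Real.exp 1 * D) := ⟨_, rfl⟩
  rw [← hy] at h1 ⊢
  have hy0 : 0 ≤ y := by
    rw [hy, hlog]
    positivity
  have hE1 : 1 ≤ Real.exp y := Real.one_le_exp hy0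
  have h13 : Real.log (Real.exp 1 * D) ≤ D := by rw [hlog]; linarith
  have h14 : Real.log (Real.exp 1 * D) + Real.exp y * D ≤ Real.exp y * (2 * D) := by
    nlinarith
  have h15 : 2 * D ≤ Real.exp D := by
    have : D ≤ D ^ 2 := by nlinarith
    linarith
  have h16 : Real.exp y * (2 * D) ≤ Real.exp y * Real.exp D :=
    mul_le_mul_of_nonneg_left h15 (Real.exp_pos _).le
  rw [← Real.exp_add] at h16
  have h17 : Real.exp (y + D) ≤ Real.exp (Real.exp D) := Real.exp_le_exp.2 (by linarith)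
  linarith

theorem round_x {K C D : ℝ} (hK : 0 ≤ K) (h5 : 5 ≤ D) (hj : (jx K : ℝ) + 1 ≤ D)
    (hM : Real.exp (K + 8) ≤ D) (hη : Real.log (16 / bex K) ≤ D)
    (h : ∀ k : ℕ, D ≤ (k : ℝ) → ∀ n : ℕ, Sb (Fin n) k C D) :
    ∀ k : ℕ, Real.exp (Real.exp (Real.exp D)) ≤ (k : ℝ) →
      ∀ n : ℕ, Sb (Fin n) k (max (C - dex K) (-K)) (Real.exp (Real.exp (Real.exp D))) := by
  obtain ⟨M, hMd⟩ : ∃ M : ℝ, M = K + 8 := ⟨_, rfl⟩
  have hM1 : 1 ≤ M := by linarith
  rw [← hMd] at hM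
  obtain ⟨j, hjd⟩ : ∃ j : ℕ, j = jx K := ⟨_, rfl⟩
  rw [← hjd] at hj
  have hj4 : 4 * M * Real.exp M ≤ (j : ℝ) + 1 := by
    rw [hjd, jx, hMd]
    have := Nat.le_ceil (4 * (K + 8) * Real.exp (K + 8))
    linarith
  have hj0 : (0 : ℝ) ≤ (j : ℝ) := Nat.cast_nonneg j
  have hE0 : 0 < Real.exp (-M) := Real.exp_pos _
  have hE1 : Real.exp (-M) ≤ 1 := Real.exp_le_one_iff.2 (by linarith)
  obtain ⟨κ, hκ⟩ : ∃ κ : ℝ, κ = Real.exp (-M) / (128 * ((j : ℝ) + 1)) := ⟨_, rfl⟩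
  have hκx : kax K = κ := by rw [kax, hκ, ← hjd, ← hMd]
  have hden : (0 : ℝ) < 128 * ((j : ℝ) + 1) := by positivity
  have hκ0 : 0 < κ := by rw [hκ]; positivity
  have hκm : κ * (128 * ((j : ℝ) + 1)) = Real.exp (-M) := by
    rw [hκ]; field_simp
  have hκ1 : κ ≤ 1 := by
    rw [hκ, div_le_one hden]
    linarith
  obtain ⟨β, hβ⟩ : ∃ β : ℝ, β = Real.exp (-M) / 8 := ⟨_, rfl⟩
  have hβx : bex K = β := by rw [bex, hβ, ← hMd]
  have hβ0 : 0 < β := by rw [hβ]; positivity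
  have hβ1 : β ≤ 1 := by rw [hβ]; linarith
  have hβM : 8 * Real.exp M * β = 1 := by
    rw [hβ]
    have : Real.exp M * Real.exp (-M) = 1 := by rw [← Real.exp_add]; simp
    linear_combination this
  obtain ⟨ε₀, hε⟩ : ∃ ε₀ : ℝ, ε₀ = κ * β / 64 := ⟨_, rfl⟩
  have hε0 : 0 < ε₀ := by rw [hε]; positivity
  have hε1 : ε₀ ≤ κ / 4 := by
    rw [hε]
    nlinarith
  obtain ⟨δ, hδ⟩ : ∃ δ : ℝ, δ = ε₀ ^ 2 * κ * β / 1024 := ⟨_, rfl⟩
  have hδx : dex K = δ := by rw [dex, hκx, hβx, hδ, hε]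
  have hδ0 : 0 < δ := by rw [hδ]; positivity
  obtain ⟨η, hη'⟩ : ∃ η : ℝ, η = β / 16 := ⟨_, rfl⟩
  have hη0 : 0 < η := by rw [hη']; positivity
  have hηD : Real.log (1 / η) ≤ D := by
    have e : 1 / η = 16 / bex K := by
      rw [hη', hβx]
      field_simp
    rw [e]
    exact hη
  have hsmall : 2 * η + 2 * (16 * δ / ε₀ ^ 2) + 8 / κ * (ε₀ + 16 * δ / ε₀ ^ 2 + δ) ≤ β := by
    rw [hη', hδ, hε]
    exact XRound_small hκ0 hκ1 hβ0 hβ1
  have hD1000 : 1000 ≤ D := by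
    have h1 : Real.exp 8 ≤ Real.exp M := Real.exp_le_exp.2 (by linarith)
    have h2 : Real.exp 8 = Real.exp 1 ^ 8 := by rw [← Real.exp_nat_mul]; norm_num
    have h3 : (2.7 : ℝ) ^ 8 ≤ Real.exp 1 ^ 8 := by
      apply pow_le_pow_left₀ (by norm_num)
      have := Real.exp_one_gt_d9
      linarith
    have h4 : (1000 : ℝ) ≤ 2.7 ^ 8 := by norm_num
    linarith
  obtain ⟨hn1, hn2⟩ := XRound_num hD1000
  have hD1 : 1 ≤ D := by linarith
  have he1 : 1 ≤ Real.exp 1 := Real.one_le_exp (by norm_num)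
  obtain ⟨d, hd⟩ : ∃ d : ℝ, d = Real.exp 1 * D := ⟨_, rfl⟩
  rw [← hd] at hn1 hn2
  have hDd : D ≤ d := by rw [hd]; nlinarith
  have hd0 : 0 < d := by linarith
  obtain ⟨E, hE⟩ : ∃ E : ℝ, E = Real.exp (3 * d * Real.log d) := ⟨_, rfl⟩
  have hEpos : 0 < E := by rw [hE]; exact Real.exp_pos _
  have hE3 : E ≤ Real.exp (Real.exp D) := by
    rw [hE]; exact Real.exp_le_exp.2 hn1
  have hDexp : D ≤ Real.exp D := by
    have := Real.add_one_le_exp D
    linarith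
  have hexp2 : Real.exp (Real.exp D) ≤ Real.exp (Real.exp (Real.exp D)) := by
    apply Real.exp_le_exp.2
    have := Real.add_one_le_exp (Real.exp D)
    linarith
  have hD3 : D ≤ Real.exp (Real.exp (Real.exp D)) := by
    have h1 := Real.add_one_le_exp (Real.exp D)
    linarith
  have hd2 : d ≤ Real.exp (Real.exp (Real.exp D)) := by
    -- `log d ≤ exp (exp D)`
    have h1 : Real.log d ≤ Real.exp (Real.exp D) := by
      have h2 : 0 ≤ Real.exp (3 * d * Real.log d) * D := by positivity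
      linarith
    rw [← Real.exp_log hd0]
    exact Real.exp_le_exp.2 h1
  intro k hk n x hx F hF hFx
  have hkD : D ≤ (k : ℝ) := hD3.trans hk
  have hkR : 1 ≤ (k : ℝ) := hD1.trans hkD
  have hkone : 1 ≤ k := by exact_mod_cast hkR
  have hkE : E ≤ (k : ℝ) := hE3.trans (hexp2.trans hk)
  have hdx : d ≤ x := hd2.trans hx
  have hx0 : 0 < x := by linarith
  have hx1 : 1 ≤ x := by linarith
  have hy0 : 0 < d / x := by positivity
  have hy1 : d / x ≤ 1 := by rw [div_le_one hx0]; exact hdx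
  obtain ⟨r, hr0, hr1, hrk, hkr⟩ := exists_rate (k := k) hkone hy0 hy1
  have hlog : -Real.log (d / x) = Real.log x - Real.log d := by
    rw [Real.log_div hd0.ne' hx0.ne']; ring
  have hlogx : Real.exp (Real.exp D) ≤ Real.log x := by
    rw [Real.le_log_iff_exp_le hx0]
    exact hx
  have hyη : E * Real.log (1 / η) ≤ -Real.log (d / x) := by
    rw [hlog]
    have h1 : E * Real.log (1 / η) ≤ E * D := mul_le_mul_of_nonneg_left hηD hEpos.le
    rw [← hE] at hn2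
    linarith
  rw [hlog] at hkr
  obtain ⟨t, ht⟩ : ∃ t : ℕ, t = ⌊(k : ℝ) / E⌋₊ := ⟨_, rfl⟩
  have ht1 : (t : ℝ) * E ≤ (k : ℝ) := by
    have h1 : (t : ℝ) ≤ (k : ℝ) / E := by rw [ht]; exact Nat.floor_le (by positivity)
    rwa [le_div_iff₀ hEpos] at h1
  have ht2 : (k : ℝ) ≤ ((t : ℝ) + 1) * E := by
    have h1 : (k : ℝ) / E ≤ (t : ℝ) + 1 := by rw [ht]; exact (Nat.lt_floor_add_one _).le
    rwa [div_le_iff₀ hEpos] at h1
  have hηt := XRound_pow hkone hr1 hrk hy0 hy1 hEpos ht2 hη0 hyη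
  rw [hδx]
  have hSb := h k hkD n
  refine round_one (V := Fin n) (k := k) (t := t) hkone hMd hd0 hdx hx1
    (Lin_of_Sb hD1 hSb ?_) (Lin_of_Sb hD1 hSb ?_)
    hκ0 hκ1 hε0 hε1 hδ0 hη0 hηt hβM hsmall hr0 hr1 hrk hkr
    (fun G hG => cover_x hM1 (hM.trans hDd) (hj.trans hDd) hj4 hκ0 hκm.le
      (by rw [← hE]; exact hkE) (by rw [← hE]; exact ht1) (Fin n) G hG) F hF hFx
  · rw [← hd]; exact hdx
  · rw [← hd]

end Pool.Agent.DCX
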