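import Pool.Agent.DCX.XTuran
import Pool.Agent.DCX.XCaen

/-!
The rate in closed form: `c L ^ (1 / 10)` as soon as `k` and `m / k` are at least `tower L`. Below a constant `L`
we use the finite form of the bound of de Caen (`deCaen_half`).
-/

namespace Pool.Agent.DCX

open Finset

open Pool.Agent.Helper1.Turan in
/-- Theorem T with the rate, closed form -/
theorem final_star :
    ∃ c : ℝ, 0 < c ∧ ∀ L k m : ℕ, 2 ≤ k → k < m → tower L ≤ k → tower L * k ≤ m →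
      c * (L : ℝ) ^ ((1 : ℝ) / 10) / ((m - 1).choose (k - 1) : ℝ) ≤ 1 - turanDensity k m ∧
      ∀ n : ℕ, 2 * m ≤ n →
        (exNum k m n : ℝ) ≤
          (1 - c * (L : ℝ) ^ ((1 : ℝ) / 10) / ((m - 1).choose (k - 1) : ℝ)) *
            (n.choose k : ℝ) := by
  obtain ⟨C₀, h⟩ := final_X
  obtain ⟨C, hC⟩ : ∃ C : ℝ, C = max C₀ 1 := ⟨_, rfl⟩
  have hC1 : 1 ≤ C := by rw [hC]; exact le_max_right _ _
  have hC0 : C₀ ≤ C := by rw [hC]; exact le_max_left _ _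
  have hCpos : 0 < C := by linarith
  refine ⟨(1 / 2) * C⁻¹ ^ ((1 : ℝ) / 10), by positivity, ?_⟩
  intro L k m hk hkm hLk hLm
  have hB0 : (0:ℝ) < ((m - 1).choose (k - 1) : ℝ) := by
    exact_mod_cast Nat.choose_pos (by omega)
  -- the finite form
  have hfin : ∀ n : ℕ, 2 * m ≤ n →
        (exNum k m n : ℝ) ≤
          (1 - (1 / 2) * C⁻¹ ^ ((1 : ℝ) / 10) * (L : ℝ) ^ ((1 : ℝ) / 10) /
            ((m - 1).choose (k - 1) : ℝ)) * (n.choose k : ℝ) := by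
    intro n hn
    have hc0 : (0:ℝ) < (n.choose k : ℝ) := by exact_mod_cast Nat.choose_pos (by omega)
    -- enough: a bound with `A ≥ c L ^ (1 / 10)`
    have hA : ∃ A : ℝ, (1 / 2) * C⁻¹ ^ ((1 : ℝ) / 10) * (L : ℝ) ^ ((1 : ℝ) / 10) ≤ A ∧
        (exNum k m n : ℝ) ≤ (1 - A / ((m - 1).choose (k - 1) : ℝ)) * (n.choose k : ℝ) := by
      have hL0 : (0 : ℝ) ≤ (L : ℝ) := Nat.cast_nonneg L
      have e1 : C⁻¹ ^ ((1 : ℝ) / 10) * (L : ℝ) ^ ((1 : ℝ) / 10) =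
          ((L : ℝ) / C) ^ ((1 : ℝ) / 10) := by
        rw [← Real.mul_rpow (by positivity) hL0]
        congr 1
        rw [div_eq_mul_inv]; ring
      have e2 : (1 / 2) * C⁻¹ ^ ((1 : ℝ) / 10) * (L : ℝ) ^ ((1 : ℝ) / 10) =
          (1 / 2) * ((L : ℝ) / C) ^ ((1 : ℝ) / 10) := by
        rw [← e1]; ring
      rw [e2]
      have hLC : 0 ≤ (L : ℝ) / C := by positivity
      rcases le_or_gt C (L : ℝ) with hL | hL
      · have h1 : 1 ≤ (L : ℝ) / C := by rw [le_div_iff₀ hCpos]; linarith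
        have h2 : 1 ≤ ((L : ℝ) / C) ^ ((1 : ℝ) / 10) := Real.one_le_rpow h1 (by norm_num)
        refine ⟨((L : ℝ) / C) ^ ((1 : ℝ) / 10), by linarith, ?_⟩
        have h3 : (((L : ℝ) / C) ^ ((1 : ℝ) / 10)) ^ 10 = (L : ℝ) / C := by
          rw [← Real.rpow_natCast, ← Real.rpow_mul hLC]
          norm_num
        have h4 : C₀ * (((L : ℝ) / C) ^ ((1 : ℝ) / 10)) ^ 10 ≤ (L : ℝ) := by
          rw [h3]
          calc C₀ * ((L : ℝ) / C) ≤ C * ((L : ℝ) / C) := mul_le_mul_of_nonneg_right hC0 hLC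
            _ = (L : ℝ) := by field_simp
        exact (h _ h2 L k m h4 hLk hLm).2.2.2.2 n hn
      · refine ⟨1 / 2, ?_, deCaen_half hk hkm hn⟩
        have h1 : (L : ℝ) / C ≤ 1 := by rw [div_le_one hCpos]; exact hL.le
        have h2 : ((L : ℝ) / C) ^ ((1 : ℝ) / 10) ≤ 1 := Real.rpow_le_one hLC h1 (by norm_num)
        linarith
    obtain ⟨A, hA1, hA2⟩ := hA
    refine hA2.trans (mul_le_mul_of_nonneg_right ?_ hc0.le)
    have := div_le_div_of_nonneg_right hA1 hB0.le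
    linarith
  refine ⟨?_, hfin⟩
  have h4 := turanDensity_le_ratio (n := 2 * m) hkm.le (by omega)
  have hc : (0 : ℝ) < ((2 * m).choose k : ℝ) := by exact_mod_cast Nat.choose_pos (by omega)
  have h6 : (exNum k m (2 * m) : ℝ) / ((2 * m).choose k : ℝ) ≤
      1 - (1 / 2) * C⁻¹ ^ ((1 : ℝ) / 10) * (L : ℝ) ^ ((1 : ℝ) / 10) /
        ((m - 1).choose (k - 1) : ℝ) := by
    rw [div_le_iff₀ hc]; exact hfin (2 * m) le_rfl
  linarith

end Pool.Agent.DCX
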