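import Pool.Agent.DCX.XMain
import Pool.Agent.DCX.ToTuran

/-!
Theorem T with an explicit rate: the constant `A` is reached as soon as `k` and `m / k` are at least a tower of
height `C A ^ 10`.
-/

namespace Pool.Agent.DCX

open Finset

variable {V : Type} [Fintype V] [DecidableEq V]

/-- an `m`-set avoiding a small set: a vertex cover of the missing edges is large -/
private theorem XTuran_cover {k m M : ℕ} (hmM : m ≤ M)
    {G : Finset (Finset (Fin M))} (hfree : Pool.Agent.Helper1.Turan.CompleteFree k m M G)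
    (S : Finset (Fin M))
    (hS : ∀ e ∈ (univ : Finset (Fin M)).powersetCard k \ G, ¬ Disjoint e S) :
    M - m < S.card := by
  by_contra hcon
  have hcard : m ≤ (Sᶜ).card := by
    rw [card_compl, Fintype.card_fin]; omega
  obtain ⟨W, hW, hWc⟩ := exists_subset_card_eq hcard
  obtain ⟨e, heW, hec, heG⟩ := hfree W hWc
  have heE : e ∈ (univ : Finset (Fin M)).powersetCard k \ G := by
    rw [mem_sdiff, mem_powersetCard]
    exact ⟨⟨subset_univ _, hec⟩, heG⟩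
  apply hS e heE
  rw [disjoint_left]
  intro v hv hvS
  have := hW (heW hv)
  rw [mem_compl] at this
  exact this hvS

/-- from the bound of `main_x` at the threshold `D` to the Turan numbers -/
theorem fin_of_Sb {A D : ℝ} (hA : 1 ≤ A) (hD : Real.exp 8 ≤ D)
    (hH : ∀ k : ℕ, D ≤ (k : ℝ) → ∀ n : ℕ, Sb (Fin n) k (-(Real.log A + 3)) D)
    {k m n : ℕ} (hk : D ≤ (k : ℝ)) (hm : D * (k : ℝ) ≤ (m : ℝ)) (hn : 2 * m ≤ n) :
    2 ≤ k ∧ k < m ∧
      (Pool.Agent.Helper1.Turan.exNum k m n : ℝ) ≤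
        (1 - A / ((m - 1).choose (k - 1) : ℝ)) * (n.choose k : ℝ) := by
  have hA0 : 0 < A := by linarith
  have hlogA : 0 ≤ Real.log A := Real.log_nonneg hA
  have hDpos : 0 < D := (Real.exp_pos _).trans_le hD
  obtain ⟨C, hCdef⟩ : ∃ C : ℝ, C = Real.log D := ⟨_, rfl⟩
  have hexpC : Real.exp C = D := by rw [hCdef, Real.exp_log hDpos]
  have hC8 : 8 ≤ C := by
    rw [hCdef, Real.le_log_iff_exp_le hDpos]; exact hD
  have hC1 : 1 ≤ C := by linarith
  have hquad := Real.quadratic_le_exp_of_nonneg (by linarith : (0 : ℝ) ≤ C)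
  rw [hexpC] at hquad
  have hCD2 : C ^ 2 ≤ D := by
    have h1 := Real.quadratic_le_exp_of_nonneg (by linarith : (0 : ℝ) ≤ C / 2)
    have h2 : C ≤ Real.exp (C / 2) := by nlinarith [sq_nonneg (C - 2)]
    have h3 : Real.exp (C / 2) ^ 2 = D := by
      rw [← Real.exp_nat_mul, ← hexpC]; congr 1; push_cast; ring
    rw [← h3]
    exact pow_le_pow_left₀ (by linarith) h2 2
  have hCplus : C + 2 ≤ D := by nlinarith
  have hkC : C ^ 2 ≤ (k : ℝ) := hCD2.trans hk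
  have hkR : (2 : ℝ) ≤ (k : ℝ) := by nlinarith
  have hk2' : 2 ≤ k := by exact_mod_cast hkR
  have hkpos : (0 : ℝ) < (k : ℝ) := by linarith
  have hm : (C + 2) * (k : ℝ) ≤ (m : ℝ) :=
    (mul_le_mul_of_nonneg_right hCplus hkpos.le).trans hm
  have hkmR : (k : ℝ) < (m : ℝ) := by nlinarith
  have hkm : k < m := by exact_mod_cast hkmR
  refine ⟨hk2', hkm, ?_⟩
  have hmpos : (0 : ℝ) < (m : ℝ) := by linarith
  by_contra hcon
  push Not at hcon
  -- the number of vertices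
  obtain ⟨M₀, hM₀⟩ : ∃ M₀ : ℕ, M₀ = m + ⌈C * (m : ℝ) / (k : ℝ)⌉₊ := ⟨_, rfl⟩
  have hCmk0 : 0 ≤ C * (m : ℝ) / (k : ℝ) := by positivity
  have hmM : m ≤ M₀ := by omega
  have hMlow : (m : ℝ) + C * (m : ℝ) / (k : ℝ) ≤ (M₀ : ℝ) := by
    rw [hM₀]; push_cast
    have := Nat.le_ceil (C * (m : ℝ) / (k : ℝ))
    linarith
  have hMup : (M₀ : ℝ) ≤ (m : ℝ) + C * (m : ℝ) / (k : ℝ) + 1 := by
    rw [hM₀]; push_cast
    have := (Nat.ceil_lt_add_one hCmk0).le
    linarith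
  have hCk : C ≤ (k : ℝ) := by nlinarith
  have hM2 : M₀ ≤ 2 * m := by
    have h1 : ⌈C * (m : ℝ) / (k : ℝ)⌉₊ ≤ m := by
      rw [Nat.ceil_le, div_le_iff₀ hkpos]
      nlinarith
    omega
  have hM₀n : M₀ ≤ n := hM2.trans hn
  have hMpos : (0 : ℝ) < (M₀ : ℝ) := by
    have : (m : ℝ) ≤ (M₀ : ℝ) := by exact_mod_cast hmM
    linarith
  -- density at `M₀`
  obtain ⟨B, hB⟩ : ∃ B : ℝ, B = ((m - 1).choose (k - 1) : ℝ) := ⟨_, rfl⟩
  have hBpos : 0 < B := by
    rw [hB]; exact_mod_cast Nat.choose_pos (by omega)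
  have hcn : (0 : ℝ) < (n.choose k : ℝ) := by exact_mod_cast Nat.choose_pos (by omega)
  have hcM : (0 : ℝ) < (M₀.choose k : ℝ) := by exact_mod_cast Nat.choose_pos (by omega)
  have hratio : (1 - A / B) <
      (Pool.Agent.Helper1.Turan.exNum k m M₀ : ℝ) / (M₀.choose k : ℝ) := by
    refine lt_of_lt_of_le ?_
      (Pool.Agent.Helper1.Turan.ratio_antitone hkm.le (by omega : k ≤ M₀) hM₀n)
    rw [lt_div_iff₀ hcn, hB]
    exact hcon
  obtain ⟨G, hG1, hG2, hG3⟩ :=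
    Pool.Agent.Helper1.Turan.exists_exNum (k := k) (m := m) (n := M₀) hkm.le
  obtain ⟨E, hE⟩ : ∃ E : Finset (Finset (Fin M₀)),
    E = (univ : Finset (Fin M₀)).powersetCard k \ G := ⟨_, rfl⟩
  have hGsub : G ⊆ (univ : Finset (Fin M₀)).powersetCard k := by
    intro e he
    rw [mem_powersetCard]
    exact ⟨subset_univ _, hG1 e he⟩
  have hEcard : (E.card : ℝ) = (M₀.choose k : ℝ) - (G.card : ℝ) := by
    rw [hE, card_sdiff_of_subset hGsub, card_powersetCard, card_univ, Fintype.card_fin,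
      Nat.cast_sub]
    have := card_le_card hGsub
    simpa using this
  have hEunif : Unif k E := by
    intro e he
    rw [hE, mem_sdiff, mem_powersetCard] at he
    exact he.1.2
  have hElt : (E.card : ℝ) ≤ A / B * (M₀.choose k : ℝ) := by
    rw [lt_div_iff₀ hcM] at hratio
    rw [hEcard, hG3]
    linarith
  -- `k |E| ≤ x M₀`
  have hchoose : (k : ℝ) * (M₀.choose k : ℝ) = (M₀ : ℝ) * ((M₀ - 1).choose (k - 1) : ℝ) := by
    have h := Nat.add_one_mul_choose_eq (M₀ - 1) (k - 1)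
    have e1 : M₀ - 1 + 1 = M₀ := by omega
    have e2 : k - 1 + 1 = k := by omega
    rw [e1, e2] at h
    have h' : ((M₀ * (M₀ - 1).choose (k - 1) : ℕ) : ℝ) = ((M₀.choose k * k : ℕ) : ℝ) := by
      exact_mod_cast h
    push_cast at h'
    linarith
  have hexp : ((M₀ - 1).choose (k - 1) : ℝ) ≤ B * Real.exp (C + 1) := by
    refine (choose_ratio (by omega : 1 ≤ k) hkm hmM).trans ?_
    rw [← hB]
    refine mul_le_mul_of_nonneg_left ?_ hBpos.le
    rw [Real.exp_le_exp, div_le_iff₀ (by linarith)]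
    have h1 : (M₀ : ℝ) - m ≤ C * (m : ℝ) / (k : ℝ) + 1 := by linarith
    have h2 : ((M₀ : ℝ) - m) * ((k : ℝ) - 1) ≤ (C * (m : ℝ) / (k : ℝ) + 1) * ((k : ℝ) - 1) :=
      mul_le_mul_of_nonneg_right h1 (by linarith)
    have h3 : (C * (m : ℝ) / (k : ℝ) + 1) * ((k : ℝ) - 1) ≤
        (C * (m : ℝ) / (k : ℝ) + 1) * (k : ℝ) :=
      mul_le_mul_of_nonneg_left (by linarith) (by linarith)
    have h4 : (C * (m : ℝ) / (k : ℝ) + 1) * (k : ℝ) = C * (m : ℝ) + k := by
      field_simp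
    nlinarith
  have hkE : (k : ℝ) * (E.card : ℝ) ≤ (A * Real.exp (C + 1)) * (M₀ : ℝ) := by
    have h1 : (k : ℝ) * (E.card : ℝ) ≤ A / B * ((k : ℝ) * (M₀.choose k : ℝ)) := by
      calc (k : ℝ) * (E.card : ℝ) ≤ (k : ℝ) * (A / B * (M₀.choose k : ℝ)) :=
            mul_le_mul_of_nonneg_left hElt hkpos.le
        _ = _ := by ring
    rw [hchoose] at h1
    have h2 : A / B * ((M₀ : ℝ) * ((M₀ - 1).choose (k - 1) : ℝ)) ≤
        A / B * ((M₀ : ℝ) * (B * Real.exp (C + 1))) :=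
      mul_le_mul_of_nonneg_left (mul_le_mul_of_nonneg_left hexp hMpos.le) (by positivity)
    have h3 : A / B * ((M₀ : ℝ) * (B * Real.exp (C + 1))) =
        (A * Real.exp (C + 1)) * (M₀ : ℝ) := by
      field_simp
    linarith
  have hxD : D ≤ A * Real.exp (C + 1) := by
    have h1 : D ≤ Real.exp C := by
      rw [hCdef, Real.exp_log hDpos]
    have h2 : Real.exp C ≤ Real.exp (C + 1) := Real.exp_le_exp.2 (by linarith)
    have h3 : 0 < Real.exp (C + 1) := Real.exp_pos _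
    nlinarith
  have htau := hH k hk M₀ (A * Real.exp (C + 1)) hxD E hEunif
    (by rw [Fintype.card_fin]; exact hkE)
  rw [Fintype.card_fin, Real.log_mul hA0.ne' (Real.exp_pos _).ne', Real.log_exp] at htau
  -- the cover
  obtain ⟨S, hS1, hS2⟩ := exists_cover (by omega : 1 ≤ k) hEunif
  have hS3 := XTuran_cover hmM hG2 S (by rw [← hE]; exact hS2)
  have htlow : (M₀ : ℝ) - m + 1 ≤ (tau E : ℝ) := by
    have h1 : M₀ - m + 1 ≤ tau E := by omega
    have h2 : ((M₀ - m + 1 : ℕ) : ℝ) ≤ (tau E : ℝ) := by exact_mod_cast h1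
    rw [Nat.cast_add, Nat.cast_sub hmM] at h2
    push_cast at h2
    exact h2
  have hlow : C * (m : ℝ) + k ≤ (k : ℝ) * (tau E : ℝ) := by
    have h1 : C * (m : ℝ) / (k : ℝ) + 1 ≤ (tau E : ℝ) := by linarith
    have h2 := mul_le_mul_of_nonneg_left h1 hkpos.le
    have h3 : (k : ℝ) * (C * (m : ℝ) / (k : ℝ) + 1) = C * (m : ℝ) + k := by
      field_simp
    linarith
  have hfin : C * (m : ℝ) + k ≤ (C - 2) * (M₀ : ℝ) := by
    have : (Real.log A + (C + 1) + -(Real.log A + 3)) = C - 2 := by ring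
    rw [this] at htau
    linarith
  rcases le_or_gt C 2 with hC2 | hC2
  · have : (C - 2) * (M₀ : ℝ) ≤ 0 := mul_nonpos_of_nonpos_of_nonneg (by linarith) hMpos.le
    have h2 : 0 < C * (m : ℝ) + k := by positivity
    linarith
  · have h1 : (C - 2) * (M₀ : ℝ) ≤ (C - 2) * ((m : ℝ) + C * (m : ℝ) / (k : ℝ) + 1) :=
      mul_le_mul_of_nonneg_left hMup (by linarith)
    have h2 : (C - 2) * (C * (m : ℝ) / (k : ℝ)) ≤ (m : ℝ) := by
      rw [mul_div_assoc', div_le_iff₀ hkpos]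
      have h3 : (C - 2) * C ≤ (k : ℝ) := by nlinarith
      nlinarith
    have h4 : (C - 2) * ((m : ℝ) + C * (m : ℝ) / (k : ℝ) + 1) =
        (C - 2) * (m : ℝ) + (C - 2) * (C * (m : ℝ) / (k : ℝ)) + (C - 2) := by ring
    have h5 : C - 2 ≤ (k : ℝ) := by linarith
    nlinarith

/-- Theorem T with the rate -/
theorem final_X :
    ∃ C : ℝ, ∀ A : ℝ, 1 ≤ A → ∀ L k m : ℕ, C * A ^ 10 ≤ (L : ℝ) → tower L ≤ k →
      tower L * k ≤ m →
      2 ≤ k ∧ k < m ∧
      Filter.Tendsto (fun n : ℕ => (Pool.Agent.Helper1.Turan.exNum k m n : ℝ) /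
          (n.choose k : ℝ)) Filter.atTop
        (nhds (Pool.Agent.Helper1.Turan.turanDensity k m)) ∧
      A / ((m - 1).choose (k - 1) : ℝ) ≤ 1 - Pool.Agent.Helper1.Turan.turanDensity k m ∧
      ∀ n : ℕ, 2 * m ≤ n →
        (Pool.Agent.Helper1.Turan.exNum k m n : ℝ) ≤
          (1 - A / ((m - 1).choose (k - 1) : ℝ)) * (n.choose k : ℝ) := by
  obtain ⟨C, -, h⟩ := main_x
  refine ⟨C, fun A hA L k m hL hk hm => ?_⟩
  obtain ⟨D, hD8, hDL, hSb⟩ := h A hA L hL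
  have hkR : (tower L : ℝ) ≤ (k : ℝ) := by exact_mod_cast hk
  have hmR : (tower L : ℝ) * (k : ℝ) ≤ (m : ℝ) := by exact_mod_cast hm
  have hkD : D ≤ (k : ℝ) := hDL.trans hkR
  have hmD : D * (k : ℝ) ≤ (m : ℝ) :=
    (mul_le_mul_of_nonneg_right hDL (Nat.cast_nonneg _)).trans hmR
  have hfin : ∀ n : ℕ, 2 * m ≤ n → 2 ≤ k ∧ k < m ∧
      (Pool.Agent.Helper1.Turan.exNum k m n : ℝ) ≤
        (1 - A / ((m - 1).choose (k - 1) : ℝ)) * (n.choose k : ℝ) :=
    fun n hn => fin_of_Sb hA hD8 hSb hkD hmD hn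
  obtain ⟨h2, hkm, h3⟩ := hfin (2 * m) le_rfl
  refine ⟨h2, hkm, Pool.Agent.Helper1.Turan.tendsto_turanDensity hkm.le, ?_,
    fun n hn => (hfin n hn).2.2⟩
  have h4 := Pool.Agent.Helper1.Turan.turanDensity_le_ratio (n := 2 * m) hkm.le (by omega)
  have hc : (0 : ℝ) < ((2 * m).choose k : ℝ) := by exact_mod_cast Nat.choose_pos (by omega)
  have h6 : (Pool.Agent.Helper1.Turan.exNum k m (2 * m) : ℝ) / ((2 * m).choose k : ℝ) ≤
      1 - A / ((m - 1).choose (k - 1) : ℝ) := by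
    rw [div_le_iff₀ hc]; exact h3
  linarith

end Pool.Agent.DCX
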